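import Pool.Agent.Helper740.Words
import Mathlib.Computability.RE
import Mathlib.GroupTheory.FreeGroup.Reduce

/-! Primitive recursive certificate checker. -/

namespace Pool.Agent.Helper740


section general

variable {α β γ σ : Type*} [Primcodable α] [Primcodable β] [Primcodable γ] [Primcodable σ]

lemma pp_forall {f : α → List β} {P : α → β → Prop} (hf : Primrec f)
    (hP : PrimrecPred fun p : α × β => P p.1 p.2) : PrimrecPred fun a => ∀ b ∈ f a, P a b := by
  have h1 : PrimrecRel fun (b : β) (a : α) => P a b :=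
    PrimrecPred.comp hP (Primrec.pair Primrec.snd Primrec.fst)
  exact h1.forall_mem_list.comp hf Primrec.id

lemma pp_exists {f : α → List β} {P : α → β → Prop} (hf : Primrec f)
    (hP : PrimrecPred fun p : α × β => P p.1 p.2) : PrimrecPred fun a => ∃ b ∈ f a, P a b := by
  have h1 : PrimrecRel fun (b : β) (a : α) => P a b :=
    PrimrecPred.comp hP (Primrec.pair Primrec.snd Primrec.fst)
  exact h1.exists_mem_list.comp hf Primrec.id

lemma pp_imp {P Q : α → Prop} (hP : PrimrecPred P) (hQ : PrimrecPred Q) :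
    PrimrecPred fun a => (P a → Q a) := by
  classical
  refine (hP.not.or hQ).of_eq fun a => ?_
  tauto

end general

/-- flip a letter -/
def fl (l : ℕ × Bool) : ℕ × Bool := (l.1, !l.2)

lemma pr_fl : Primrec fl := Primrec.fst.pair (Primrec.not.comp Primrec.snd)

lemma pr_inv : Primrec inv := by
  have h1 : Primrec fun w : Wd => w.map fl := Primrec.list_map Primrec.id (pr_fl.comp Primrec.snd)
  exact Primrec.list_reverse.comp h1

/-- commutator word -/
def cmw (l l' : ℕ × Bool) : Wd := [l, l', fl l, fl l']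

lemma pr_cmw : Primrec₂ cmw := by
  have h0 : Primrec fun _ : (ℕ × Bool) × (ℕ × Bool) => ([] : Wd) := Primrec.const []
  have h1 := Primrec.list_cons.comp (pr_fl.comp (Primrec.snd (α := ℕ × Bool) (β := ℕ × Bool))) h0
  have h2 := Primrec.list_cons.comp (pr_fl.comp (Primrec.fst (α := ℕ × Bool) (β := ℕ × Bool))) h1
  have h3 := Primrec.list_cons.comp (Primrec.snd (α := ℕ × Bool) (β := ℕ × Bool)) h2
  exact Primrec.list_cons.comp (Primrec.fst (α := ℕ × Bool) (β := ℕ × Bool)) h3

/-- the letters with index below `n` -/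
def letters (n : ℕ) : List (ℕ × Bool) := (List.range n).flatMap fun i => [(i, true), (i, false)]

lemma mem_letters (n : ℕ) (l : ℕ × Bool) : l ∈ letters n ↔ l.1 < n := by
  obtain ⟨i, b⟩ := l
  simp only [letters, List.mem_flatMap, List.mem_range]
  constructor
  · rintro ⟨j, hj, h⟩
    simp at h
    omega
  · intro h
    refine ⟨i, h, ?_⟩
    cases b <;> simp

lemma pr_letters : Primrec letters := by
  refine Primrec.list_flatMap Primrec.list_range ?_
  have h0 : Primrec fun _ : ℕ × ℕ => ([] : List (ℕ × Bool)) := Primrec.const []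
  have h1 := Primrec.list_cons.comp
    ((Primrec.snd (α := ℕ) (β := ℕ)).pair (Primrec.const false)) h0
  exact Primrec.list_cons.comp ((Primrec.snd (α := ℕ) (β := ℕ)).pair (Primrec.const true)) h1

/-- all commutator words -/
def cms (n : ℕ) : List Wd := (letters n).flatMap fun l => (letters n).map fun l' => cmw l l'

lemma mem_cms (n : ℕ) (l l' : ℕ × Bool) (h : l.1 < n) (h' : l'.1 < n) : cmw l l' ∈ cms n := by
  simp only [cms, List.mem_flatMap, List.mem_map]
  exact ⟨l, (mem_letters n l).mpr h, l', (mem_letters n l').mpr h', rfl⟩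

lemma of_mem_cms (n : ℕ) (b : Wd) (h : b ∈ cms n) : ∃ l l', b = cmw l l' := by
  simp only [cms, List.mem_flatMap, List.mem_map] at h
  obtain ⟨l, _, l', _, rfl⟩ := h
  exact ⟨l, l', rfl⟩

lemma pr_cms : Primrec cms := by
  refine Primrec.list_flatMap pr_letters ?_
  exact Primrec.list_map (pr_letters.comp Primrec.fst)
    (pr_cmw.comp (Primrec.snd.comp Primrec.fst) Primrec.snd)

/-- repeated letter -/
def rep (m : ℕ) (l : ℕ × Bool) : Wd := (List.range m).map fun _ => l

lemma rep_eq (m : ℕ) (l : ℕ × Bool) : rep m l = List.replicate m l := by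
  simp [rep, List.map_const']

lemma pr_rep : Primrec₂ rep :=
  Primrec.list_map (Primrec.list_range.comp Primrec.fst) (Primrec.snd.comp Primrec.fst)

/-- one step of the box -/
def boxstep (L k : ℕ) (B : List Wd) : List Wd :=
  B.flatMap fun w => (List.range (L + 1)).flatMap fun m =>
    [w ++ rep m (k, true), w ++ rep m (k, false)]

/-- canonical words of the vectors in `[-L, L]^n` -/
def box (n L : ℕ) : List Wd := Nat.rec [[]] (fun k B => boxstep L k B) n

lemma pr_boxstep : Primrec fun p : ℕ × ℕ × List Wd => boxstep p.1 p.2.1 p.2.2 := by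
  refine Primrec.list_flatMap (Primrec.snd.comp Primrec.snd) ?_
  refine Primrec.list_flatMap
    (Primrec.list_range.comp (Primrec.succ.comp (Primrec.fst.comp Primrec.fst))) ?_
  -- context `((p, w), m)`
  have hw : Primrec fun q : ((ℕ × ℕ × List Wd) × Wd) × ℕ => q.1.2 :=
    Primrec.snd.comp Primrec.fst
  have hk : Primrec fun q : ((ℕ × ℕ × List Wd) × Wd) × ℕ => q.1.1.2.1 :=
    Primrec.fst.comp (Primrec.snd.comp (Primrec.fst.comp Primrec.fst))
  have hm : Primrec fun q : ((ℕ × ℕ × List Wd) × Wd) × ℕ => q.2 := Primrec.snd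
  have hb : ∀ b : Bool, Primrec fun q : ((ℕ × ℕ × List Wd) × Wd) × ℕ =>
      q.1.2 ++ rep q.2 (q.1.1.2.1, b) := fun b =>
    Primrec.list_append.comp hw (pr_rep.comp hm (hk.pair (Primrec.const b)))
  have h0 : Primrec fun _ : ((ℕ × ℕ × List Wd) × Wd) × ℕ => ([] : List Wd) := Primrec.const []
  exact Primrec.list_cons.comp (hb true) (Primrec.list_cons.comp (hb false) h0)

lemma pr_box : Primrec₂ box := by
  have h := Primrec.nat_rec' (α := ℕ × ℕ) (β := List Wd) (f := fun p => p.1)
    (g := fun _ => [[]]) (h := fun p q => boxstep p.2 q.1 q.2) Primrec.fst (Primrec.const [[]])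
    (by
      have h1 : Primrec fun r : (ℕ × ℕ) × (ℕ × List Wd) => r.1.2 := Primrec.snd.comp Primrec.fst
      have h2 : Primrec fun r : (ℕ × ℕ) × (ℕ × List Wd) => r.2 := Primrec.snd
      exact pr_boxstep.comp (h1.pair h2))
  exact h

lemma cw_mem_box (n L : ℕ) (q : ℕ → ℤ) (h : ∀ i < n, |q i| ≤ L) : cw q n ∈ box n L := by
  induction n with
  | zero => simp [cw, box]
  | succ n ih =>
    have h1 := ih (fun i hi => h i (by omega))
    have h2 : box (n + 1) L = boxstep L n (box n L) := rfl
    rw [h2, cw, boxstep, List.mem_flatMap]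
    refine ⟨cw q n, h1, ?_⟩
    rw [List.mem_flatMap]
    refine ⟨(q n).natAbs, ?_, ?_⟩
    · rw [List.mem_range]
      have := h n (by omega)
      rw [Int.abs_eq_natAbs] at this
      omega
    · rw [rep_eq, rep_eq]
      by_cases h3 : 0 ≤ q n <;> simp [h3]

lemma box_letters (n L : ℕ) (u : Wd) (hu : u ∈ box n L) : ∀ l ∈ u, l.1 < n := by
  induction n generalizing u with
  | zero =>
    simp [box] at hu
    simp [hu]
  | succ n ih =>
    have h2 : box (n + 1) L = boxstep L n (box n L) := rfl
    rw [h2, boxstep, List.mem_flatMap] at hu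
    obtain ⟨w, hw, hu⟩ := hu
    rw [List.mem_flatMap] at hu
    obtain ⟨m, _, hu⟩ := hu
    rw [rep_eq, rep_eq] at hu
    intro l hl
    simp only [List.mem_cons, List.not_mem_nil, or_false] at hu
    rcases hu with rfl | rfl
    · rcases List.mem_append.mp hl with h | h
      · have := ih w hw l h; omega
      · rw [List.mem_replicate] at h
        rw [h.2]; simp
    · rcases List.mem_append.mp hl with h | h
      · have := ih w hw l h; omega
      · rw [List.mem_replicate] at h
        rw [h.2]; simp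

/-- the word `∏ t b^± t⁻¹` -/
def relw (lam : List (Wd × Bool)) (b : Wd) : Wd :=
  lam.flatMap fun t => t.1 ++ ((if t.2 = true then b else inv b) ++ inv t.1)

lemma pr_relw : Primrec₂ relw := by
  refine Primrec.list_flatMap Primrec.fst ?_
  have ht : Primrec fun q : (List (Wd × Bool) × Wd) × (Wd × Bool) => q.2 := Primrec.snd
  have hb : Primrec fun q : (List (Wd × Bool) × Wd) × (Wd × Bool) => q.1.2 :=
    Primrec.snd.comp Primrec.fst
  have h1 : Primrec fun q : (List (Wd × Bool) × Wd) × (Wd × Bool) =>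
      if q.2.2 = true then q.1.2 else inv q.1.2 :=
    Primrec.ite (Primrec.eq.comp (Primrec.snd.comp ht) (Primrec.const true)) hb (pr_inv.comp hb)
  exact Primrec.list_append.comp (Primrec.fst.comp ht)
    (Primrec.list_append.comp h1 (pr_inv.comp (Primrec.fst.comp ht)))

/-- the word `a (u b u⁻¹) a⁻¹ (u b u⁻¹)⁻¹` -/
def commw (a u b : Wd) : Wd :=
  a ++ ((u ++ (b ++ inv u)) ++ (inv a ++ inv (u ++ (b ++ inv u))))

lemma pr_commw : Primrec fun p : Wd × Wd × Wd => commw p.1 p.2.1 p.2.2 := by
  have ha : Primrec fun p : Wd × Wd × Wd => p.1 := Primrec.fst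
  have hu : Primrec fun p : Wd × Wd × Wd => p.2.1 := Primrec.fst.comp Primrec.snd
  have hb : Primrec fun p : Wd × Wd × Wd => p.2.2 := Primrec.snd.comp Primrec.snd
  have hc : Primrec fun p : Wd × Wd × Wd => p.2.1 ++ (p.2.2 ++ inv p.2.1) :=
    Primrec.list_append.comp hu (Primrec.list_append.comp hb (pr_inv.comp hu))
  exact Primrec.list_append.comp ha (Primrec.list_append.comp hc
    (Primrec.list_append.comp (pr_inv.comp ha) (pr_inv.comp hc)))

/-- the list of required relators -/
def req (n L : ℕ) (Lam : List (List (Wd × Bool))) : List Wd :=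
  (Lam.flatMap fun lam => (cms n).map fun b => relw lam b ++ inv b) ++
  ((box n L).flatMap fun u => (cms n).flatMap fun a => (cms n).map fun b => commw a u b)

lemma pr_req : Primrec fun p : ℕ × ℕ × List (List (Wd × Bool)) => req p.1 p.2.1 p.2.2 := by
  refine Primrec.list_append.comp ?_ ?_
  · refine Primrec.list_flatMap (Primrec.snd.comp Primrec.snd) ?_
    refine Primrec.list_map (pr_cms.comp (Primrec.fst.comp Primrec.fst)) ?_
    have hlam : Primrec fun q : ((ℕ × ℕ × List (List (Wd × Bool))) × List (Wd × Bool)) × Wd =>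
        q.1.2 := Primrec.snd.comp Primrec.fst
    have hb : Primrec fun q : ((ℕ × ℕ × List (List (Wd × Bool))) × List (Wd × Bool)) × Wd =>
        q.2 := Primrec.snd
    exact Primrec.list_append.comp (pr_relw.comp hlam hb) (pr_inv.comp hb)
  · refine Primrec.list_flatMap (pr_box.comp Primrec.fst (Primrec.fst.comp Primrec.snd)) ?_
    refine Primrec.list_flatMap (pr_cms.comp (Primrec.fst.comp Primrec.fst)) ?_
    refine Primrec.list_map
      (pr_cms.comp (Primrec.fst.comp (Primrec.fst.comp Primrec.fst))) ?_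
    have ha : Primrec fun q : (((ℕ × ℕ × List (List (Wd × Bool))) × Wd) × Wd) × Wd =>
        q.1.2 := Primrec.snd.comp Primrec.fst
    have hu : Primrec fun q : (((ℕ × ℕ × List (List (Wd × Bool))) × Wd) × Wd) × Wd =>
        q.1.1.2 := Primrec.snd.comp (Primrec.fst.comp Primrec.fst)
    have hb : Primrec fun q : (((ℕ × ℕ × List (List (Wd × Bool))) × Wd) × Wd) × Wd =>
        q.2 := Primrec.snd
    have h := Primrec.comp pr_commw (ha.pair (hu.pair hb))
    exact h

/-- number of pairs of equal letters -/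
def PP (u w : Wd) : ℕ := (u.flatMap fun l => w.filter fun m => m = l).length

/-- number of pairs of opposite letters -/
def NN (u w : Wd) : ℕ := (u.flatMap fun l => w.filter fun m => m = fl l).length

lemma pr_filt_eq : Primrec₂ fun (w : Wd) (l : ℕ × Bool) => w.filter fun m => m = l := by
  have h1 : PrimrecRel fun (m l : ℕ × Bool) => m = l := Primrec.eq
  have h2 := PrimrecRel.listFilter (R := fun (m l : ℕ × Bool) => m = l) h1
  exact h2

lemma pr_PP : Primrec₂ PP := by
  refine Primrec.list_length.comp (Primrec.list_flatMap Primrec.fst ?_)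
  exact pr_filt_eq.comp (Primrec.snd.comp Primrec.fst) Primrec.snd

lemma pr_NN : Primrec₂ NN := by
  refine Primrec.list_length.comp (Primrec.list_flatMap Primrec.fst ?_)
  exact pr_filt_eq.comp (Primrec.snd.comp Primrec.fst) (pr_fl.comp Primrec.snd)

/-- keep the letters with index below `n` -/
def filt (n : ℕ) (w : Wd) : Wd := w.filter fun l => l.1 < n

lemma pr_filt : Primrec₂ filt := by
  have h1 : PrimrecRel fun (l : ℕ × Bool) (n : ℕ) => l.1 < n :=
    Primrec.nat_lt.comp (Primrec.fst.comp Primrec.fst) Primrec.snd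
  exact h1.listFilter.comp Primrec.snd Primrec.fst

lemma pr_reduce : Primrec (FreeGroup.reduce : Wd → Wd) := by
  have h1 : Primrec fun w : Wd => w.foldr (fun (l : ℕ × Bool) (acc : Wd) =>
      (List.casesOn acc [l] fun hd tl => if l = fl hd then tl else l :: hd :: tl : Wd)) [] := by
    refine Primrec.list_foldr (α := Wd) (β := ℕ × Bool) (σ := Wd) (f := fun w => w)
      (g := fun _ => [])
      (h := fun _ p => (List.casesOn p.2 [p.1] fun hd tl =>
        if p.1 = fl hd then tl else p.1 :: hd :: tl : Wd)) Primrec.id (Primrec.const []) ?_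
    have hacc : Primrec fun q : Wd × ((ℕ × Bool) × Wd) => q.2.2 := Primrec.snd.comp Primrec.snd
    have hl : Primrec fun q : Wd × ((ℕ × Bool) × Wd) => q.2.1 := Primrec.fst.comp Primrec.snd
    refine Primrec.list_casesOn (α := Wd × ((ℕ × Bool) × Wd)) (β := ℕ × Bool) (σ := Wd)
      (f := fun q => q.2.2) (g := fun q => [q.2.1])
      (h := fun q r => if q.2.1 = fl r.1 then r.2 else q.2.1 :: r.1 :: r.2) hacc
      (Primrec.list_cons.comp hl (Primrec.const [])) ?_
    have hl' : Primrec fun q : (Wd × ((ℕ × Bool) × Wd)) × ((ℕ × Bool) × Wd) => q.1.2.1 :=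
      hl.comp Primrec.fst
    have hhd : Primrec fun q : (Wd × ((ℕ × Bool) × Wd)) × ((ℕ × Bool) × Wd) => q.2.1 :=
      Primrec.fst.comp Primrec.snd
    have htl : Primrec fun q : (Wd × ((ℕ × Bool) × Wd)) × ((ℕ × Bool) × Wd) => q.2.2 :=
      Primrec.snd.comp Primrec.snd
    exact Primrec.ite (Primrec.eq.comp hl' (pr_fl.comp hhd)) htl
      (Primrec.list_cons.comp hl' (Primrec.list_cons.comp hhd htl))
  refine h1.of_eq fun w => ?_
  induction w with
  | nil => rfl
  | cons l w ih =>
    rw [FreeGroup.reduce.cons, List.foldr_cons, ih]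
    cases FreeGroup.reduce w with
    | nil => rfl
    | cons hd tl =>
      have e : (l = fl hd) ↔ (l.1 = hd.1 ∧ l.2 = !hd.2) := by
        unfold fl
        rw [Prod.ext_iff]
      simp only [e]

/-- a derivation: a list of conjugates of relators -/
abbrev Der := List (Wd × Wd × Bool)

/-- the product word of a derivation -/
def flat (d : Der) : Wd :=
  d.flatMap fun t => t.1 ++ ((if t.2.2 = true then t.2.1 else inv t.2.1) ++ inv t.1)

lemma pr_flat : Primrec flat := by
  refine Primrec.list_flatMap Primrec.id ?_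
  have h1 : Primrec fun q : Der × (Wd × Wd × Bool) => q.2.1 := Primrec.fst.comp Primrec.snd
  have h2 : Primrec fun q : Der × (Wd × Wd × Bool) => q.2.2.1 :=
    Primrec.fst.comp (Primrec.snd.comp Primrec.snd)
  have h3 : Primrec fun q : Der × (Wd × Wd × Bool) => q.2.2.2 :=
    Primrec.snd.comp (Primrec.snd.comp Primrec.snd)
  have h4 : Primrec fun q : Der × (Wd × Wd × Bool) =>
      if q.2.2.2 = true then q.2.2.1 else inv q.2.2.1 :=
    Primrec.ite (Primrec.eq.comp h3 (Primrec.const true)) h2 (pr_inv.comp h2)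
  exact Primrec.list_append.comp h1 (Primrec.list_append.comp h4 (pr_inv.comp h1))

/-- `d` is a derivation of `v` from `R` in the free group on `n` letters -/
def IsDer (n : ℕ) (R : List Wd) (v : Wd) (d : Der) : Prop :=
  (∀ t ∈ d, ∃ r ∈ R, t.2.1 = r) ∧ FreeGroup.reduce (filt n v) = FreeGroup.reduce (filt n (flat d))

lemma pp_isDer : PrimrecPred fun p : (ℕ × List Wd) × Wd × Der =>
    IsDer p.1.1 p.1.2 p.2.1 p.2.2 := by
  refine PrimrecPred.and ?_ ?_
  · refine pp_forall (Primrec.snd.comp Primrec.snd) ?_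
    refine pp_exists (Primrec.snd.comp (Primrec.fst.comp Primrec.fst)) ?_
    exact Primrec.eq.comp (Primrec.fst.comp (Primrec.snd.comp (Primrec.snd.comp Primrec.fst)))
      Primrec.snd
  · have hn : Primrec fun p : (ℕ × List Wd) × Wd × Der => p.1.1 := Primrec.fst.comp Primrec.fst
    have hv : Primrec fun p : (ℕ × List Wd) × Wd × Der => p.2.1 := Primrec.fst.comp Primrec.snd
    have hd : Primrec fun p : (ℕ × List Wd) × Wd × Der => p.2.2 := Primrec.snd.comp Primrec.snd
    exact Primrec.eq.comp (pr_reduce.comp (pr_filt.comp hn hv))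
      (pr_reduce.comp (pr_filt.comp hn (pr_flat.comp hd)))

/-- the bound -/
def bnd (n M S : ℕ) : ℕ := M * (S * S + n * ((4 * S + 3) * (4 * S + 3))) + 4 * S + 4

lemma pr_bnd : Primrec fun p : ℕ × ℕ × ℕ => bnd p.1 p.2.1 p.2.2 := by
  have hn : Primrec fun p : ℕ × ℕ × ℕ => p.1 := Primrec.fst
  have hM : Primrec fun p : ℕ × ℕ × ℕ => p.2.1 := Primrec.fst.comp Primrec.snd
  have hS : Primrec fun p : ℕ × ℕ × ℕ => p.2.2 := Primrec.snd.comp Primrec.snd
  have h4 : Primrec fun p : ℕ × ℕ × ℕ => 4 * p.2.2 :=
    Primrec.nat_mul.comp (Primrec.const 4) hS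
  have h43 : Primrec fun p : ℕ × ℕ × ℕ => 4 * p.2.2 + 3 :=
    Primrec.nat_add.comp h4 (Primrec.const 3)
  exact Primrec.nat_add.comp (Primrec.nat_add.comp (Primrec.nat_mul.comp hM
    (Primrec.nat_add.comp (Primrec.nat_mul.comp hS hS)
      (Primrec.nat_mul.comp hn (Primrec.nat_mul.comp h43 h43)))) h4) (Primrec.const 4)

/-- certificates: `(Λ, (M, L), derivations)` -/
abbrev Cert := List (List (Wd × Bool)) × (ℕ × ℕ) × List Der

/-- the covering condition -/
def Cov (n M : ℕ) (Lam : List (List (Wd × Bool))) : Prop :=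
  ∀ u ∈ box n M, (∃ l ∈ u, M ≤ (u.filter fun m => m = l).length) → ∃ lam ∈ Lam,
    (∀ t ∈ lam, PP u t.1 + t.1.length < NN u t.1) ∨ (∀ t ∈ lam, NN u t.1 + t.1.length < PP u t.1)

lemma pp_cov : PrimrecPred fun p : (ℕ × ℕ) × List (List (Wd × Bool)) => Cov p.1.1 p.1.2 p.2 := by
  refine pp_forall (pr_box.comp (Primrec.fst.comp Primrec.fst) (Primrec.snd.comp Primrec.fst)) ?_
  refine pp_imp ?_ ?_
  · refine pp_exists Primrec.snd ?_
    have hM : Primrec fun q : (((ℕ × ℕ) × List (List (Wd × Bool))) × Wd) × (ℕ × Bool) =>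
        q.1.1.1.2 := Primrec.snd.comp (Primrec.fst.comp (Primrec.fst.comp Primrec.fst))
    exact Primrec.nat_le.comp hM (Primrec.list_length.comp
      (pr_filt_eq.comp (Primrec.snd.comp Primrec.fst) Primrec.snd))
  · refine pp_exists (Primrec.snd.comp Primrec.fst) ?_
    have hu : Primrec fun q : ((((ℕ × ℕ) × List (List (Wd × Bool))) × Wd) ×
        List (Wd × Bool)) × (Wd × Bool) => q.1.1.2 := Primrec.snd.comp (Primrec.fst.comp Primrec.fst)
    have ht : Primrec fun q : ((((ℕ × ℕ) × List (List (Wd × Bool))) × Wd) ×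
        List (Wd × Bool)) × (Wd × Bool) => q.2.1 := Primrec.fst.comp Primrec.snd
    refine PrimrecPred.or ?_ ?_
    · refine pp_forall Primrec.snd ?_
      exact Primrec.nat_lt.comp (Primrec.nat_add.comp (pr_PP.comp hu ht)
        (Primrec.list_length.comp ht)) (pr_NN.comp hu ht)
    · refine pp_forall Primrec.snd ?_
      exact Primrec.nat_lt.comp (Primrec.nat_add.comp (pr_NN.comp hu ht)
        (Primrec.list_length.comp ht)) (pr_PP.comp hu ht)

/-- the certificate check -/
def Ok (p : ℕ × List Wd) (c : Cert) : Prop :=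
  0 < c.2.1.1 ∧ bnd p.1 c.2.1.1 0 ≤ c.2.1.2 ∧
  (∀ lam ∈ c.1, ∀ t ∈ lam, bnd p.1 c.2.1.1 t.1.length ≤ c.2.1.2) ∧
  Cov p.1 c.2.1.1 c.1 ∧
  (∀ v ∈ req p.1 c.2.1.2 c.1, ∃ d ∈ c.2.2, IsDer p.1 p.2 v d)

lemma pp_ok : PrimrecPred fun q : (ℕ × List Wd) × Cert => Ok q.1 q.2 := by
  have hn : Primrec fun q : (ℕ × List Wd) × Cert => q.1.1 := Primrec.fst.comp Primrec.fst
  have hLam : Primrec fun q : (ℕ × List Wd) × Cert => q.2.1 := Primrec.fst.comp Primrec.snd
  have hM : Primrec fun q : (ℕ × List Wd) × Cert => q.2.2.1.1 :=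
    Primrec.fst.comp (Primrec.fst.comp (Primrec.snd.comp Primrec.snd))
  have hL : Primrec fun q : (ℕ × List Wd) × Cert => q.2.2.1.2 :=
    Primrec.snd.comp (Primrec.fst.comp (Primrec.snd.comp Primrec.snd))
  have hD : Primrec fun q : (ℕ × List Wd) × Cert => q.2.2.2 :=
    Primrec.snd.comp (Primrec.snd.comp Primrec.snd)
  refine PrimrecPred.and (Primrec.nat_lt.comp (Primrec.const 0) hM) (PrimrecPred.and ?_
    (PrimrecPred.and ?_ (PrimrecPred.and ?_ ?_)))
  · exact Primrec.nat_le.comp (pr_bnd.comp (hn.pair (hM.pair (Primrec.const 0)))) hL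
  · refine pp_forall hLam ?_
    refine pp_forall Primrec.snd ?_
    have hf : Primrec fun q : (((ℕ × List Wd) × Cert) × List (Wd × Bool)) × (Wd × Bool) =>
        q.1.1 := Primrec.fst.comp Primrec.fst
    have ht : Primrec fun q : (((ℕ × List Wd) × Cert) × List (Wd × Bool)) × (Wd × Bool) =>
        q.2.1.length := Primrec.list_length.comp (Primrec.fst.comp Primrec.snd)
    have h := Primrec.comp pr_bnd ((hn.comp hf).pair ((hM.comp hf).pair ht))
    have h' := hL.comp hf
    exact Primrec.nat_le.comp h h'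
  · have h := PrimrecPred.comp pp_cov ((hn.pair hM).pair hLam)
    exact h
  · refine pp_forall (pr_req.comp (hn.pair (hL.pair hLam))) ?_
    refine pp_exists (hD.comp Primrec.fst) ?_
    have hp : Primrec fun q : (((ℕ × List Wd) × Cert) × Wd) × Der => q.1.1.1 :=
      Primrec.fst.comp (Primrec.fst.comp Primrec.fst)
    have hv : Primrec fun q : (((ℕ × List Wd) × Cert) × Wd) × Der => q.1.2 :=
      Primrec.snd.comp Primrec.fst
    exact pp_isDer.comp (hp.pair (hv.pair Primrec.snd))

/-- a projection of a primitive recursive relation is recursively enumerable -/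
lemma re_exists {α β : Type*} [Primcodable α] [Primcodable β] {P : α → β → Prop}
    (hP : PrimrecPred fun p : α × β => P p.1 p.2) : REPred fun a => ∃ b, P a b := by
  classical
  -- search over codes
  have h1 : Primrec₂ fun (a : α) (n : ℕ) =>
      (((Encodable.decode n : Option β).map fun b => decide (P a b)).getD false) := by
    refine Primrec.option_getD.comp ?_ (Primrec.const false)
    refine Primrec.option_map (Primrec.decode.comp Primrec.snd) ?_
    exact (hP.decide).comp ((Primrec.fst.comp Primrec.fst).pair Primrec.snd)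
  let F : α → ℕ →. Bool := fun a n =>
    Part.some (((Encodable.decode n : Option β).map fun b => decide (P a b)).getD false)
  have h2 : Partrec fun a : α => Nat.rfind (F a) := Partrec.rfind h1.to_comp.partrec
  refine (h2.dom_re).of_eq fun a => ?_
  refine Nat.rfind_dom.trans ?_
  constructor
  · rintro ⟨n, hn, _⟩
    replace hn : true ∈ (Part.some (((Encodable.decode n : Option β).map fun b =>
      decide (P a b)).getD false) : Part Bool) := hn
    rw [Part.mem_some_iff] at hn
    cases h : (Encodable.decode n : Option β) with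
    | none => rw [h] at hn; simp at hn
    | some b =>
      rw [h] at hn
      simp at hn
      exact ⟨b, hn⟩
  · rintro ⟨b, hb⟩
    refine ⟨Encodable.encode b, ?_, fun _ => trivial⟩
    change true ∈ (Part.some (((Encodable.decode (Encodable.encode b) : Option β).map fun b =>
      decide (P a b)).getD false) : Part Bool)
    simp [Encodable.encodek, hb]

end Pool.Agent.Helper740
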