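import Pool.Agent.Helper740.Final
import Mathlib.GroupTheory.ResiduallyFinite

set_option autoImplicit false

/-! Search for finite quotients that are not metabelian. -/

open scoped commutatorElement

namespace Pool.Agent.Helper740

/-- permutation tables: for each generator the list of values and the list of inverse values -/
abbrev Tab := List (List ℕ × List ℕ)

/-- apply a letter -/
def app (T : Tab) (l : ℕ × Bool) (k : ℕ) : ℕ :=
  (if l.2 = true then (T.getD l.1 ([], [])).1 else (T.getD l.1 ([], [])).2).getD k 0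

/-- apply a word -/
def act (T : Tab) (w : Wd) (k : ℕ) : ℕ := w.foldr (fun l j => app T l j) k

lemma pr_app : Primrec fun p : Tab × (ℕ × Bool) × ℕ => app p.1 p.2.1 p.2.2 := by
  have hT : Primrec fun p : Tab × (ℕ × Bool) × ℕ => p.1 := Primrec.fst
  have hl : Primrec fun p : Tab × (ℕ × Bool) × ℕ => p.2.1 := Primrec.fst.comp Primrec.snd
  have hk : Primrec fun p : Tab × (ℕ × Bool) × ℕ => p.2.2 := Primrec.snd.comp Primrec.snd
  have h1 : Primrec fun p : Tab × (ℕ × Bool) × ℕ => p.1.getD p.2.1.1 ([], []) :=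
    (Primrec.list_getD ([], [])).comp hT (Primrec.fst.comp hl)
  refine (Primrec.list_getD 0).comp ?_ hk
  exact Primrec.ite (Primrec.eq.comp (Primrec.snd.comp hl) (Primrec.const true))
    (Primrec.fst.comp h1) (Primrec.snd.comp h1)

lemma pr_act : Primrec fun p : Tab × Wd × ℕ => act p.1 p.2.1 p.2.2 := by
  have h : Primrec fun p : Tab × Wd × ℕ => p.2.1.foldr (fun l j => app p.1 l j) p.2.2 :=
    Primrec.list_foldr (α := Tab × Wd × ℕ) (β := ℕ × Bool) (σ := ℕ)
      (f := fun p => p.2.1) (g := fun p => p.2.2) (h := fun p q => app p.1 q.1 q.2)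
      (Primrec.fst.comp Primrec.snd) (Primrec.snd.comp Primrec.snd)
      (pr_app.comp ((Primrec.fst.comp Primrec.fst).pair Primrec.snd))
  exact h

/-- commutator of two words -/
def cmm (u v : Wd) : Wd := u ++ (v ++ (inv u ++ inv v))

lemma pr_cmm : Primrec₂ cmm :=
  Primrec.list_append.comp Primrec.fst (Primrec.list_append.comp Primrec.snd
    (Primrec.list_append.comp (pr_inv.comp Primrec.fst) (pr_inv.comp Primrec.snd)))

/-- certificate of a finite quotient that is not metabelian -/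
abbrev QCert := (ℕ × Tab) × ((Wd × Wd) × (Wd × Wd))

lemma pr_app' {α : Type} [Primcodable α] {f : α → Tab} {g : α → ℕ × Bool} {h : α → ℕ}
    (hf : Primrec f) (hg : Primrec g) (hh : Primrec h) : Primrec fun q => app (f q) (g q) (h q) :=
  Primrec.comp pr_app (hf.pair (hg.pair hh))

lemma pr_act' {α : Type} [Primcodable α] {f : α → Tab} {g : α → Wd} {h : α → ℕ}
    (hf : Primrec f) (hg : Primrec g) (hh : Primrec h) : Primrec fun q => act (f q) (g q) (h q) :=
  Primrec.comp pr_act (hf.pair (hg.pair hh))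

/-- apply a letter and then its inverse -/
def app2 (T : Tab) (l : ℕ × Bool) (k : ℕ) : ℕ := app T (fl l) (app T l k)

lemma pr_app2 : Primrec fun p : Tab × (ℕ × Bool) × ℕ => app2 p.1 p.2.1 p.2.2 := by
  have hT : Primrec fun p : Tab × (ℕ × Bool) × ℕ => p.1 := Primrec.fst
  have hl : Primrec fun p : Tab × (ℕ × Bool) × ℕ => p.2.1 := Primrec.fst.comp Primrec.snd
  exact Primrec.comp pr_app (hT.pair ((pr_fl.comp hl).pair pr_app))

lemma pr_app2' {α : Type} [Primcodable α] {f : α → Tab} {g : α → ℕ × Bool} {h : α → ℕ}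
    (hf : Primrec f) (hg : Primrec g) (hh : Primrec h) : Primrec fun q => app2 (f q) (g q) (h q) :=
  Primrec.comp pr_app2 (hf.pair (hg.pair hh))

/-- the table consists of permutations of `{0, ..., m - 1}` -/
def TabOk (n : ℕ) (c : ℕ × Tab) : Prop :=
  ∀ l ∈ letters n, ∀ k ∈ List.range c.1,
    app c.2 l k < c.1 ∧ app2 c.2 l k = k

lemma pp_tabOk : PrimrecPred fun p : ℕ × (ℕ × Tab) => TabOk p.1 p.2 := by
  have hm : Primrec fun q : ((ℕ × (ℕ × Tab)) × (ℕ × Bool)) × ℕ => q.1.1.2.1 :=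
    Primrec.fst.comp (Primrec.snd.comp (Primrec.fst.comp Primrec.fst))
  have hT : Primrec fun q : ((ℕ × (ℕ × Tab)) × (ℕ × Bool)) × ℕ => q.1.1.2.2 :=
    Primrec.snd.comp (Primrec.snd.comp (Primrec.fst.comp Primrec.fst))
  have hl : Primrec fun q : ((ℕ × (ℕ × Tab)) × (ℕ × Bool)) × ℕ => q.1.2 :=
    Primrec.snd.comp Primrec.fst
  have hk : Primrec fun q : ((ℕ × (ℕ × Tab)) × (ℕ × Bool)) × ℕ => q.2 := Primrec.snd
  have h1 : Primrec fun q : ((ℕ × (ℕ × Tab)) × (ℕ × Bool)) × ℕ => app q.1.1.2.2 q.1.2 q.2 :=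
    pr_app' hT hl hk
  have h2 : Primrec fun q : ((ℕ × (ℕ × Tab)) × (ℕ × Bool)) × ℕ =>
      app2 q.1.1.2.2 q.1.2 q.2 := pr_app2' hT hl hk
  have h3 : PrimrecPred fun q : ((ℕ × (ℕ × Tab)) × (ℕ × Bool)) × ℕ =>
      app q.1.1.2.2 q.1.2 q.2 < q.1.1.2.1 := Primrec.nat_lt.comp h1 hm
  have h4 : PrimrecPred fun q : ((ℕ × (ℕ × Tab)) × (ℕ × Bool)) × ℕ =>
      app2 q.1.1.2.2 q.1.2 q.2 = q.2 := Primrec.eq.comp h2 hk
  have h5 : PrimrecPred fun q : ((ℕ × (ℕ × Tab)) × (ℕ × Bool)) × ℕ =>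
      app q.1.1.2.2 q.1.2 q.2 < q.1.1.2.1 ∧
        app2 q.1.1.2.2 q.1.2 q.2 = q.2 := PrimrecPred.and h3 h4
  have h6 : Primrec fun q : (ℕ × (ℕ × Tab)) × (ℕ × Bool) => List.range q.1.2.1 :=
    Primrec.list_range.comp (Primrec.fst.comp (Primrec.snd.comp Primrec.fst))
  have h7 : PrimrecPred fun q : (ℕ × (ℕ × Tab)) × (ℕ × Bool) => ∀ k ∈ List.range q.1.2.1,
      app q.1.2.2 q.2 k < q.1.2.1 ∧ app2 q.1.2.2 q.2 k = k :=
    pp_forall h6 h5
  have h8 : Primrec fun q : ℕ × (ℕ × Tab) => letters q.1 := pr_letters.comp Primrec.fst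
  have h9 : PrimrecPred fun q : ℕ × (ℕ × Tab) => ∀ l ∈ letters q.1, ∀ k ∈ List.range q.2.1,
      app q.2.2 l k < q.2.1 ∧ app2 q.2.2 l k = k :=
    pp_forall h8 h7
  exact h9

/-- the certificate check -/
def QOk (p : ℕ × List Wd) (c : QCert) : Prop :=
  TabOk p.1 c.1 ∧
  (∀ r ∈ p.2, ∀ k ∈ List.range c.1.1, act c.1.2 (filt p.1 r) k = k) ∧
  (∃ k ∈ List.range c.1.1,
    ¬ act c.1.2 (filt p.1 (cmm (cmm c.2.1.1 c.2.1.2) (cmm c.2.2.1 c.2.2.2))) k = k)

lemma pp_qok : PrimrecPred fun q : (ℕ × List Wd) × QCert => QOk q.1 q.2 := by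
  have hn : Primrec fun q : (ℕ × List Wd) × QCert => q.1.1 := Primrec.fst.comp Primrec.fst
  have hm : Primrec fun q : (ℕ × List Wd) × QCert => q.2.1.1 :=
    Primrec.fst.comp (Primrec.fst.comp Primrec.snd)
  have hT : Primrec fun q : (ℕ × List Wd) × QCert => q.2.1.2 :=
    Primrec.snd.comp (Primrec.fst.comp Primrec.snd)
  have hW : Primrec fun q : (ℕ × List Wd) × QCert =>
      cmm (cmm q.2.2.1.1 q.2.2.1.2) (cmm q.2.2.2.1 q.2.2.2.2) := by
    have h0 : Primrec fun q : (ℕ × List Wd) × QCert => q.2.2 := Primrec.snd.comp Primrec.snd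
    exact pr_cmm.comp
      (pr_cmm.comp (Primrec.fst.comp (Primrec.fst.comp h0)) (Primrec.snd.comp (Primrec.fst.comp h0)))
      (pr_cmm.comp (Primrec.fst.comp (Primrec.snd.comp h0)) (Primrec.snd.comp (Primrec.snd.comp h0)))
  refine PrimrecPred.and ?_ (PrimrecPred.and ?_ ?_)
  · have h := PrimrecPred.comp pp_tabOk (hn.pair (Primrec.fst.comp Primrec.snd))
    exact h
  · refine pp_forall (Primrec.snd.comp Primrec.fst) ?_
    refine pp_forall (Primrec.list_range.comp (hm.comp Primrec.fst)) ?_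
    have hf : Primrec fun q : (((ℕ × List Wd) × QCert) × Wd) × ℕ => q.1.1 :=
      Primrec.fst.comp Primrec.fst
    have hr : Primrec fun q : (((ℕ × List Wd) × QCert) × Wd) × ℕ => q.1.2 :=
      Primrec.snd.comp Primrec.fst
    have h := pr_act' (hT.comp hf) (pr_filt.comp (hn.comp hf) hr)
      (Primrec.snd (α := ((ℕ × List Wd) × QCert) × Wd) (β := ℕ))
    exact Primrec.eq.comp h Primrec.snd
  · refine pp_exists (Primrec.list_range.comp hm) ?_
    refine PrimrecPred.not ?_
    have hf : Primrec fun q : ((ℕ × List Wd) × QCert) × ℕ => q.1 := Primrec.fst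
    have h := pr_act' (hT.comp hf) (pr_filt.comp (hn.comp hf) (hW.comp hf))
      (Primrec.snd (α := (ℕ × List Wd) × QCert) (β := ℕ))
    exact Primrec.eq.comp h Primrec.snd

section sound

variable {n m : ℕ} {T : Tab}

/-- the permutation given by a letter -/
def tperm (h : TabOk n (m, T)) (i : ℕ) (hi : i < n) : Equiv.Perm (Fin m) where
  toFun k := ⟨app T (i, true) k,
    (h (i, true) ((mem_letters n _).mpr hi) k (List.mem_range.mpr k.2)).1⟩
  invFun k := ⟨app T (i, false) k,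
    (h (i, false) ((mem_letters n _).mpr hi) k (List.mem_range.mpr k.2)).1⟩
  left_inv k := by
    ext
    exact (h (i, true) ((mem_letters n _).mpr hi) k (List.mem_range.mpr k.2)).2
  right_inv k := by
    ext
    exact (h (i, false) ((mem_letters n _).mpr hi) k (List.mem_range.mpr k.2)).2

/-- the permutations, padded by the identity -/
def txp (h : TabOk n (m, T)) (i : ℕ) : Equiv.Perm (Fin m) :=
  if hi : i < n then tperm h i hi else 1

lemma ev_txp (h : TabOk n (m, T)) (w : Wd) (k : Fin m) :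
    ((ev (txp h) w k : Fin m) : ℕ) = act T (filt n w) k := by
  induction w with
  | nil => simp [ev_nil, act, filt]
  | cons l w ih =>
    rw [ev_cons, Equiv.Perm.mul_apply]
    obtain ⟨i, b⟩ := l
    by_cases hi : i < n
    · have h1 : filt n ((i, b) :: w) = (i, b) :: filt n w := by
        simp [filt, hi]
      have h2 : ∀ j : Fin m, ((lt (txp h) (i, b) j : Fin m) : ℕ) = app T (i, b) j := by
        intro j
        cases b
        · simp only [lt, txp, dif_pos hi]
          rfl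
        · simp only [lt, txp, dif_pos hi]
          rfl
      rw [h1, h2, ih]
      rfl
    · have h1 : filt n ((i, b) :: w) = filt n w := by
        simp [filt, hi]
      have h2 : lt (txp h) (i, b) = 1 := by
        cases b <;> simp [lt, txp, hi]
      rw [h1, h2, ← ih]
      rfl

end sound

lemma ev_cmm {G : Type} [Group G] (x : ℕ → G) (u v : Wd) : ev x (cmm u v) = ⁅ev x u, ev x v⁆ := by
  rw [cmm, ev_append, ev_append, ev_append, ev_inv, ev_inv, commutatorElement_def]
  group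

lemma cc_mem (G : Type) [Group G] (hab : derivedSeries G 2 = ⊥) (a b c d : G) :
    ⁅⁅a, b⁆, ⁅c, d⁆⁆ = 1 := by
  rw [derived_two_iff] at hab
  rw [commutatorElement_eq_one_iff_mul_comm]
  exact hab _ (Subgroup.commutator_mem_commutator (Subgroup.mem_top a) (Subgroup.mem_top b)) _
    (Subgroup.commutator_mem_commutator (Subgroup.mem_top c) (Subgroup.mem_top d))

theorem qok_sound (n : ℕ) (R : List Wd) (c : QCert) (h : QOk (n, R) c) :
    ¬ derivedSeries (PresentedGroup (RS n R)) 2 = ⊥ := by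
  intro hab
  obtain ⟨⟨m, T⟩, ⟨u1, u2⟩, ⟨u3, u4⟩⟩ := c
  obtain ⟨hT, hR, k, hk, hne⟩ := h
  have hx1 : ∀ i, n ≤ i → txp hT i = 1 := by
    intro i hi
    simp [txp, Nat.not_lt.mpr hi]
  have hxR : ∀ r ∈ R, ev (txp hT) r = 1 := by
    intro r hr
    ext j
    rw [ev_txp hT r j]
    exact hR r hr j (List.mem_range.mpr j.2)
  obtain ⟨f, hf⟩ := (xg_fpres n R).2 _ (txp hT) hx1 hxR
  have h1 : ev (xg n R) (cmm (cmm u1 u2) (cmm u3 u4)) = 1 := by
    rw [ev_cmm, ev_cmm, ev_cmm]
    exact cc_mem _ hab _ _ _ _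
  have h2 := congrArg f h1
  rw [map_ev, map_one] at h2
  have h3 : (fun i => f (xg n R i)) = txp hT := funext hf
  rw [h3] at h2
  have hk' : k < m := List.mem_range.mp hk
  have h4 := ev_txp hT (cmm (cmm u1 u2) (cmm u3 u4)) ⟨k, hk'⟩
  rw [h2] at h4
  exact hne h4.symm

/-- the table of a tuple of permutations -/
def mkTab (n : ℕ) {m : ℕ} (σ : ℕ → Equiv.Perm (Fin m)) : Tab :=
  (List.range n).map fun i =>
    (List.ofFn fun k : Fin m => ((σ i k : Fin m) : ℕ),
      List.ofFn fun k : Fin m => (((σ i)⁻¹ k : Fin m) : ℕ))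

lemma app_mkTab (n : ℕ) {m : ℕ} (σ : ℕ → Equiv.Perm (Fin m)) (l : ℕ × Bool) (hl : l.1 < n)
    (k : Fin m) : app (mkTab n σ) l k = ((lt σ l k : Fin m) : ℕ) := by
  obtain ⟨i, b⟩ := l
  have hi : i < n := hl
  have h1 : (mkTab n σ).getD i ([], []) = (List.ofFn fun k : Fin m => ((σ i k : Fin m) : ℕ),
      List.ofFn fun k : Fin m => (((σ i)⁻¹ k : Fin m) : ℕ)) := by
    simp [mkTab, List.getD, hi]
  unfold app
  simp only
  rw [h1]
  cases b <;> simp [lt, List.getD]

lemma tabOk_mkTab (n : ℕ) {m : ℕ} (σ : ℕ → Equiv.Perm (Fin m)) : TabOk n (m, mkTab n σ) := by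
  intro l hl k hk
  have hl' := (mem_letters n l).mp hl
  have hk' : k < m := List.mem_range.mp hk
  have h1 := app_mkTab n σ l hl' ⟨k, hk'⟩
  simp only at h1
  change app (mkTab n σ) l k < m ∧ app (mkTab n σ) (fl l) (app (mkTab n σ) l k) = k
  rw [h1]
  refine ⟨Fin.is_lt _, ?_⟩
  have h2 := app_mkTab n σ (fl l) hl' (lt σ l ⟨k, hk'⟩)
  rw [h2]
  have h3 : lt σ (fl l) = (lt σ l)⁻¹ := lt_not σ l.1 l.2
  rw [h3]
  exact congrArg Fin.val (Equiv.symm_apply_apply (lt σ l) ⟨k, hk'⟩)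

lemma act_mkTab (n : ℕ) {m : ℕ} (σ : ℕ → Equiv.Perm (Fin m)) (hσ : ∀ i, n ≤ i → σ i = 1)
    (w : Wd) (k : Fin m) : act (mkTab n σ) (filt n w) k = ((ev σ w k : Fin m) : ℕ) := by
  induction w with
  | nil => simp [ev_nil, act, filt]
  | cons l w ih =>
    rw [ev_cons, Equiv.Perm.mul_apply]
    obtain ⟨i, b⟩ := l
    by_cases hi : i < n
    · have h1 : filt n ((i, b) :: w) = (i, b) :: filt n w := by
        simp [filt, hi]
      rw [h1, ← app_mkTab n σ (i, b) hi, ← ih]
      rfl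
    · have h1 : filt n ((i, b) :: w) = filt n w := by
        simp [filt, hi]
      have h2 : lt σ (i, b) = 1 := by
        cases b <;> simp [lt, hσ i (by omega)]
      rw [h1, h2, ih]
      rfl

lemma exists_cc_ne (G : Type) [Group G] (h : ¬ derivedSeries G 2 = ⊥) :
    ∃ a b c d : G, ⁅⁅a, b⁆, ⁅c, d⁆⁆ ≠ 1 := by
  by_contra hcon
  push Not at hcon
  apply h
  rw [derivedSeries_succ, derivedSeries_one, Subgroup.commutator_eq_bot_iff_le_centralizer]
  have h0 : (commutator G) = Subgroup.closure {g | ∃ a b : G, ⁅a, b⁆ = g} := by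
    rw [commutator_eq_closure]
    rfl
  have h1 : ∀ a b : G, ⁅a, b⁆ ∈ Subgroup.centralizer (commutator G : Set G) := by
    intro a b
    rw [Subgroup.mem_centralizer_iff]
    intro c hc
    have h2 : commutator G ≤ Subgroup.centralizer {⁅a, b⁆} := by
      rw [h0, Subgroup.closure_le]
      rintro _ ⟨c, d, rfl⟩
      rw [SetLike.mem_coe, Subgroup.mem_centralizer_iff]
      intro y hy
      rw [Set.mem_singleton_iff] at hy
      subst hy
      exact commutatorElement_eq_one_iff_mul_comm.mp (hcon a b c d)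
    have h3 := h2 hc
    rw [Subgroup.mem_centralizer_iff] at h3
    exact (h3 _ rfl).symm
  conv_lhs => rw [h0]
  rw [Subgroup.closure_le]
  rintro _ ⟨a, b, rfl⟩
  exact h1 a b

theorem qok_complete (n : ℕ) (R : List Wd) (a b c d : PresentedGroup (RS n R))
    (N : Subgroup (PresentedGroup (RS n R))) [N.Normal] [N.FiniteIndex]
    (hN : ⁅⁅a, b⁆, ⁅c, d⁆⁆ ∉ N) : ∃ c : QCert, QOk (n, R) c := by
  classical
  let G := PresentedGroup (RS n R)
  set m := Nat.card (G ⧸ N) with hm
  have hfin : Finite (G ⧸ N) := Subgroup.finite_quotient_of_finiteIndex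
  let e : (G ⧸ N) ≃ Fin m := Finite.equivFin (G ⧸ N)
  let φ : G →* Equiv.Perm (Fin m) :=
    (e.permCongrHom.toMonoidHom).comp (MulAction.toPermHom G (G ⧸ N))
  have hφ : ∀ g : G, φ g = 1 → g ∈ N := by
    intro g hg
    have h1 : φ g (e ((1 : G) : G ⧸ N)) = e ((1 : G) : G ⧸ N) := by rw [hg]; rfl
    have h2 : φ g (e ((1 : G) : G ⧸ N)) = e (g • ((1 : G) : G ⧸ N)) := by
      simp [φ, Equiv.permCongrHom]
    rw [h2] at h1
    have h3 := e.injective h1
    have h4 : g • ((1 : G) : G ⧸ N) = ((g * 1 : G) : G ⧸ N) := rfl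
    rw [h4, mul_one] at h3
    exact (QuotientGroup.eq_one_iff g).mp h3
  obtain ⟨ua, hua⟩ := exists_word (xg n R) (xg_gen n R) a
  obtain ⟨ub, hub⟩ := exists_word (xg n R) (xg_gen n R) b
  obtain ⟨uc, huc⟩ := exists_word (xg n R) (xg_gen n R) c
  obtain ⟨ud, hud⟩ := exists_word (xg n R) (xg_gen n R) d
  set σ : ℕ → Equiv.Perm (Fin m) := fun i => φ (xg n R i) with hσ
  have hσ1 : ∀ i, n ≤ i → σ i = 1 := by
    intro i hi
    rw [hσ]
    simp only
    rw [xg_one n R i hi, map_one]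
  have hev : ∀ w : Wd, ev σ w = φ (ev (xg n R) w) := fun w => (map_ev φ (xg n R) w).symm
  refine ⟨((m, mkTab n σ), ((ua, ub), (uc, ud))), tabOk_mkTab n σ, ?_, ?_⟩
  · intro r hr k hk
    have hk' : k < m := List.mem_range.mp hk
    have h1 := act_mkTab n σ hσ1 r ⟨k, hk'⟩
    have h2 : ev σ r = 1 := by
      rw [hev, xg_rel n R r hr, map_one]
    rw [h2] at h1
    exact h1
  · have h1 : ev σ (cmm (cmm ua ub) (cmm uc ud)) ≠ 1 := by
      rw [hev, ev_cmm, ev_cmm, ev_cmm, hua, hub, huc, hud]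
      intro h
      exact hN (hφ _ h)
    have h2 : ∃ k : Fin m, ev σ (cmm (cmm ua ub) (cmm uc ud)) k ≠ k := by
      by_contra hcon
      push Not at hcon
      apply h1
      ext k
      rw [hcon k]
      rfl
    obtain ⟨k, hk⟩ := h2
    refine ⟨k, List.mem_range.mpr k.2, ?_⟩
    have h3 := act_mkTab n σ hσ1 (cmm (cmm ua ub) (cmm uc ud)) k
    intro h4
    apply hk
    ext
    rw [← h3]
    exact h4

/-- a non-metabelian finite quotient can be found by search -/
theorem re_qok : REPred fun p : ℕ × List Wd => ∃ c : QCert, QOk p c := re_exists pp_qok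

/-- The decision procedure. -/
theorem exists_procedure : ∃ f : ℕ × List Wd →. Bool, Partrec f ∧
    (∀ p, ∀ b ∈ f p, b = true ↔ derivedSeries (PresentedGroup (RS p.1 p.2)) 2 = ⊥) ∧
    (∀ p, derivedSeries (PresentedGroup (RS p.1 p.2)) 2 = ⊥ → (f p).Dom) ∧
    (∀ p, (∃ N : Subgroup (PresentedGroup (RS p.1 p.2)), N.Normal ∧ N.FiniteIndex ∧
      ¬ derivedSeries (PresentedGroup (RS p.1 p.2)) 2 ≤ N) → (f p).Dom) := by
  have h1 := re_metabelian
  have h2 := re_qok
  have h1' : Partrec fun p : ℕ × List Wd =>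
      (Part.assert (derivedSeries (PresentedGroup (RS p.1 p.2)) 2 = ⊥)
        fun _ => Part.some ()).map fun _ => true :=
    Partrec.map h1 (Computable.const true).to₂
  have h2' : Partrec fun p : ℕ × List Wd =>
      (Part.assert (∃ c : QCert, QOk p c) fun _ => Part.some ()).map fun _ => false :=
    Partrec.map h2 (Computable.const false).to₂
  obtain ⟨k, hk, hk2⟩ := Partrec.merge h1' h2' (by
    intro p x hx y hy
    rw [Part.mem_map_iff] at hx hy
    obtain ⟨_, hx, _⟩ := hx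
    obtain ⟨_, hy, _⟩ := hy
    rw [Part.mem_assert_iff] at hx hy
    obtain ⟨hx, _⟩ := hx
    obtain ⟨⟨c, hc⟩, _⟩ := hy
    exact absurd hx (qok_sound p.1 p.2 c hc))
  refine ⟨k, hk, ?_, ?_, ?_⟩
  · intro p b hb
    rw [hk2] at hb
    rcases hb with hb | hb
    · rw [Part.mem_map_iff] at hb
      obtain ⟨_, hx, rfl⟩ := hb
      rw [Part.mem_assert_iff] at hx
      obtain ⟨hx, _⟩ := hx
      exact iff_of_true rfl hx
    · rw [Part.mem_map_iff] at hb
      obtain ⟨_, hx, rfl⟩ := hb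
      rw [Part.mem_assert_iff] at hx
      obtain ⟨⟨c, hc⟩, _⟩ := hx
      exact iff_of_false (by simp) (qok_sound p.1 p.2 c hc)
  · intro p hp
    have : true ∈ k p := by
      rw [hk2]
      left
      rw [Part.mem_map_iff]
      exact ⟨(), by rw [Part.mem_assert_iff]; exact ⟨hp, Part.mem_some _⟩, rfl⟩
    exact this.1
  · rintro p ⟨N, hN, hNf, hNp⟩
    have h3 : ∃ a b c d : PresentedGroup (RS p.1 p.2), ⁅⁅a, b⁆, ⁅c, d⁆⁆ ∉ N := by
      by_contra hcon
      push Not at hcon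
      apply hNp
      have h4 : derivedSeries (PresentedGroup (RS p.1 p.2) ⧸ N) 2 = ⊥ := by
        by_contra h5
        obtain ⟨a, b, c, d, h6⟩ := exists_cc_ne _ h5
        obtain ⟨a, rfl⟩ := QuotientGroup.mk'_surjective N a
        obtain ⟨b, rfl⟩ := QuotientGroup.mk'_surjective N b
        obtain ⟨c, rfl⟩ := QuotientGroup.mk'_surjective N c
        obtain ⟨d, rfl⟩ := QuotientGroup.mk'_surjective N d
        apply h6
        rw [← map_commutatorElement, ← map_commutatorElement, ← map_commutatorElement]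
        exact (QuotientGroup.eq_one_iff _).mpr (hcon a b c d)
      have h5 := map_derivedSeries_le_derivedSeries (QuotientGroup.mk' N) 2
      rw [h4, le_bot_iff, Subgroup.map_eq_bot_iff, QuotientGroup.ker_mk'] at h5
      exact h5
    obtain ⟨a, b, c, d, h4⟩ := h3
    obtain ⟨q, hq⟩ := qok_complete p.1 p.2 a b c d N h4
    have : false ∈ k p := by
      rw [hk2]
      right
      rw [Part.mem_map_iff]
      exact ⟨(), by rw [Part.mem_assert_iff]; exact ⟨⟨q, hq⟩, Part.mem_some _⟩, rfl⟩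
    exact this.1

end Pool.Agent.Helper740
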