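import Pool.Agent.Helper740.TameA3
import Mathlib.Topology.MetricSpace.ProperSpace.Real
import Mathlib.Analysis.Normed.Group.Constructions
import Mathlib.Analysis.Normed.Field.Basic

/-! Compactness: finitely many polynomials cover all directions. -/

namespace Pool.Agent.Helper740

open scoped commutatorElement

section

variable {G : Type} [Group G] (x : ℕ → G)

/-- the linear form attached to a word -/
noncomputable def vf (n : ℕ) (v : ℕ → ℝ) (w : Wd) : ℝ :=
  ∑ i ∈ Finset.range n, v i * (pos w i : ℝ)

lemma vf_nil (n : ℕ) (v : ℕ → ℝ) : vf n v [] = 0 := by simp [vf, pos_nil]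

lemma vf_cons (n : ℕ) (v : ℕ → ℝ) (l : ℕ × Bool) (w : Wd) :
    vf n v (l :: w) = (if l.1 < n then v l.1 * (sgn l.2 : ℝ) else 0) + vf n v w := by
  unfold vf
  simp only [pos_cons]
  push_cast
  simp only [mul_add, Finset.sum_add_distrib]
  congr 1
  have h1 : ∀ i ∈ Finset.range n, v i * (if l.1 = i then (sgn l.2 : ℝ) else 0) =
      if l.1 = i then v i * (sgn l.2 : ℝ) else 0 := by
    intro i _
    split_ifs <;> simp
  rw [Finset.sum_congr rfl h1, Finset.sum_ite_eq]
  simp

theorem exists_lam (n : ℕ) (R : List Wd) (hx : ∀ i, n ≤ i → x i = 1)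
    (hgen : Subgroup.closure (Set.range x) = ⊤) (hR : FPres x n R)
    (hab : ∀ a ∈ commutator G, ∀ b ∈ commutator G, a * b = b * a)
    (v : ℕ → ℝ) (hv : ∃ i < n, v i ≠ 0) :
    ∃ lam : List (Wd × Bool),
      ((∀ t ∈ lam, 0 < vf n v t.1) ∨ (∀ t ∈ lam, vf n v t.1 < 0)) ∧
      ∀ a ∈ commutator G, relprod x lam a = a := by
  by_cases hr : ∃ r ∈ R, vf n v r ≠ 0
  · obtain ⟨r, hrR, hr0⟩ := hr
    refine ⟨[(r, true)], ?_, ?_⟩
    · rcases lt_or_gt_of_ne hr0 with h | h
      · right; simpa using h
      · left; simpa using h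
    · intro a _
      simp [relprod, hR.1 r hrR]
  · push Not at hr
    classical
    let y : ℕ → Multiplicative ℝ := fun i => Multiplicative.ofAdd (if i < n then v i else 0)
    have hev : ∀ w : Wd, ev y w = Multiplicative.ofAdd (vf n v w) := by
      intro w
      induction w with
      | nil => rw [ev_nil, vf_nil]; rfl
      | cons l w ih =>
        rw [ev_cons, ih, vf_cons, ofAdd_add]
        congr 1
        obtain ⟨i, b⟩ := l
        cases b
        · simp only [lt, Bool.false_eq_true, if_false, y, sgn]
          rw [← ofAdd_neg]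
          congr 1
          split_ifs <;> simp
        · simp only [lt, if_true, y, sgn]
          congr 1
          split_ifs <;> simp
    obtain ⟨φ, hφ⟩ := hR.2 (Multiplicative ℝ) y (fun i hi => by
        simp only [y]; rw [if_neg (by omega)]; rfl) (fun r hrR => by
        rw [hev, hr r hrR]; rfl)
    have hφw : ∀ w : Wd, φ (ev x w) = ev y w := by
      intro w
      induction w with
      | nil => rw [ev_nil, ev_nil, map_one]
      | cons l w ih =>
        rw [ev_cons, ev_cons, map_mul, ih]
        congr 1
        obtain ⟨i, b⟩ := l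
        cases b <;> simp [lt, hφ]
    let c : G → ℝ := fun g => Multiplicative.toAdd (φ g)
    have hc : ∀ g h, c (g * h) = c g + c h := by
      intro g h
      simp [c]
    have hcw : ∀ w, c (ev x w) = vf n v w := by
      intro w
      simp only [c]
      rw [hφw, hev]
      rfl
    choose wd hwd using exists_word x hgen
    have conv : ∀ lam : List (G × Bool), ∀ a : G,
        relprod x (lam.map fun p => (wd p.1, p.2)) a = gprod lam a := by
      intro lam a
      simp only [relprod, gprod, List.map_map]
      congr 1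
      apply List.map_congr_left
      intro p _
      simp [hwd]
    have hcg : ∀ g, vf n v (wd g) = c g := by
      intro g
      rw [← hcw, hwd]
    obtain ⟨i0, hi0, hv0⟩ := hv
    have hcx : c (x i0) = v i0 := by
      have h1 := hcw [(i0, true)]
      rw [ev_singleton, vf_cons, vf_nil] at h1
      simpa [lt, sgn, hi0] using h1
    obtain ⟨z0, hz⟩ : ∃ z0 : ℕ × Bool, 0 < c (lt x z0) := by
      rcases lt_or_gt_of_ne hv0 with h | h
      · refine ⟨(i0, false), ?_⟩
        simp only [lt, Bool.false_eq_true, if_false]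
        rw [c_inv hc, hcx]; linarith
      · refine ⟨(i0, true), ?_⟩
        simp only [lt, if_true]
        rw [hcx]; exact h
    obtain ⟨c0, hcase⟩ := half_space x n R hx hgen hR hab hc z0 hz
    rcases hcase with h | h
    · -- use `-c`
      have hc' : ∀ g h, (fun g => - c g) (g * h) = (fun g => - c g) g + (fun g => - c g) h := by
        intro g h
        simp only [hc]; ring
      have ht' : 0 < (fun g => - c g) ((lt x z0)⁻¹) := by
        simp only
        rw [c_inv hc]; linarith
      have hA : ∀ a ∈ commutator G, a ∈ AA x (fun g => - (fun g => - c g) g) (Set.Iic c0) := by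
        intro a ha
        have e : (fun g => - (fun g => - c g) g) = c := by funext g; simp
        rw [e]
        exact h a ha
      obtain ⟨lam, hl1, hl2⟩ := exists_lam_pos x n hx hab hc' ((lt x z0)⁻¹) ht' c0 hA
      refine ⟨lam.map fun p => (wd p.1, p.2), Or.inr ?_, ?_⟩
      · intro t ht
        rw [List.mem_map] at ht
        obtain ⟨p, hp, rfl⟩ := ht
        have := hl1 p hp
        simp only [hcg] at this ⊢
        linarith
      · intro a ha
        rw [conv]
        exact hl2 a ha
    · obtain ⟨lam, hl1, hl2⟩ := exists_lam_pos x n hx hab hc (lt x z0) hz c0 h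
      refine ⟨lam.map fun p => (wd p.1, p.2), Or.inl ?_, ?_⟩
      · intro t ht
        rw [List.mem_map] at ht
        obtain ⟨p, hp, rfl⟩ := ht
        have := hl1 p hp
        simp only [hcg] at this ⊢
        linarith
      · intro a ha
        rw [conv]
        exact hl2 a ha

/-- extension by zero -/
noncomputable def extz (n : ℕ) (v : Fin n → ℝ) : ℕ → ℝ := fun i => if h : i < n then v ⟨i, h⟩ else 0

lemma continuous_vf (n : ℕ) (w : Wd) : Continuous fun v : Fin n → ℝ => vf n (extz n v) w := by
  unfold vf
  apply continuous_finset_sum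
  intro i _
  apply Continuous.mul _ continuous_const
  unfold extz
  by_cases h : i < n
  · simp only [dif_pos h]
    exact continuous_apply _
  · simp only [dif_neg h]
    exact continuous_const

/-- the open set of directions handled by `lam` with slack `M` -/
def OO (n : ℕ) (p : List (Wd × Bool) × ℕ) : Set (Fin n → ℝ) :=
  {v | ∀ t ∈ p.1, (t.1.length : ℝ) < p.2 * vf n (extz n v) t.1} ∪
  {v | ∀ t ∈ p.1, (t.1.length : ℝ) < -(p.2 * vf n (extz n v) t.1)}

lemma isOpen_OO (n : ℕ) (p : List (Wd × Bool) × ℕ) : IsOpen (OO n p) := by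
  obtain ⟨lam, M⟩ := p
  apply IsOpen.union
  · have : {v : Fin n → ℝ | ∀ t ∈ lam, (t.1.length : ℝ) < M * vf n (extz n v) t.1} =
        ⋂ t ∈ lam.toFinset, {v : Fin n → ℝ | (t.1.length : ℝ) < M * vf n (extz n v) t.1} := by
      ext v; simp
    simp only
    rw [this]
    apply isOpen_biInter_finset
    intro t _
    exact isOpen_lt continuous_const (continuous_const.mul (continuous_vf n t.1))
  · have : {v : Fin n → ℝ | ∀ t ∈ lam, (t.1.length : ℝ) < -(M * vf n (extz n v) t.1)} =
        ⋂ t ∈ lam.toFinset, {v : Fin n → ℝ | (t.1.length : ℝ) < -(M * vf n (extz n v) t.1)} := by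
      ext v; simp
    simp only
    rw [this]
    apply isOpen_biInter_finset
    intro t _
    exact isOpen_lt continuous_const (continuous_const.mul (continuous_vf n t.1)).neg

lemma exists_slack (n : ℕ) (v : ℕ → ℝ) (lam : List (Wd × Bool)) (h : ∀ t ∈ lam, 0 < vf n v t.1) :
    ∃ M : ℕ, ∀ t ∈ lam, (t.1.length : ℝ) < M * vf n v t.1 := by
  induction lam with
  | nil => exact ⟨0, by simp⟩
  | cons t lam ih =>
    obtain ⟨M, hM⟩ := ih (fun s hs => h s (by simp [hs]))
    have ht := h t (by simp)
    obtain ⟨K, hK⟩ := exists_nat_gt ((t.1.length : ℝ) / vf n v t.1)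
    rw [div_lt_iff₀ ht] at hK
    refine ⟨max M K, ?_⟩
    intro s hs
    rcases List.mem_cons.mp hs with rfl | hs
    · refine lt_of_lt_of_le hK ?_
      apply mul_le_mul_of_nonneg_right _ ht.le
      exact_mod_cast le_max_right _ _
    · refine lt_of_lt_of_le (hM s hs) ?_
      apply mul_le_mul_of_nonneg_right _ (h s (by simp [hs])).le
      exact_mod_cast le_max_left _ _

lemma vf_neg (n : ℕ) (v : ℕ → ℝ) (w : Wd) : vf n (fun i => - v i) w = - vf n v w := by
  unfold vf
  rw [← Finset.sum_neg_distrib]
  apply Finset.sum_congr rfl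
  intro i _
  ring

/-- **Theorem A.** -/
theorem exists_cert_data (n : ℕ) (R : List Wd) (hx : ∀ i, n ≤ i → x i = 1)
    (hgen : Subgroup.closure (Set.range x) = ⊤) (hR : FPres x n R)
    (hab : ∀ a ∈ commutator G, ∀ b ∈ commutator G, a * b = b * a) :
    ∃ (Lam : List (List (Wd × Bool))) (M : ℕ), 0 < M ∧
      (∀ q : ℕ → ℤ, (∀ i < n, |q i| ≤ M) → (∃ i < n, |q i| = M) → ∃ lam ∈ Lam,
        (∀ t ∈ lam, ∑ i ∈ Finset.range n, q i * pos t.1 i + t.1.length < 0) ∨
        (∀ t ∈ lam, 0 < ∑ i ∈ Finset.range n, q i * pos t.1 i - t.1.length)) ∧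
      ∀ lam ∈ Lam, ∀ a ∈ commutator G, relprod x lam a = a := by
  classical
  let V := {p : List (Wd × Bool) × ℕ // ∀ a ∈ commutator G, relprod x p.1 a = a}
  have hK : IsCompact (Metric.sphere (0 : Fin n → ℝ) 1) := isCompact_sphere _ _
  have hcover : Metric.sphere (0 : Fin n → ℝ) 1 ⊆ ⋃ p : V, OO n p.1 := by
    intro v hv
    rw [mem_sphere_zero_iff_norm] at hv
    have hv0 : v ≠ 0 := by
      rintro rfl
      simp at hv
    obtain ⟨i, hi⟩ : ∃ i, v i ≠ 0 := by
      by_contra hcon
      push Not at hcon
      exact hv0 (funext hcon)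
    obtain ⟨lam, hcase, hlam⟩ := exists_lam x n R hx hgen hR hab (extz n v)
      ⟨i, i.2, by simpa [extz] using hi⟩
    rw [Set.mem_iUnion]
    rcases hcase with h | h
    · obtain ⟨M, hM⟩ := exists_slack n (extz n v) lam h
      exact ⟨⟨(lam, M), hlam⟩, Or.inl hM⟩
    · obtain ⟨M, hM⟩ := exists_slack n (fun i => - extz n v i) lam (by
        intro t ht
        rw [vf_neg]
        linarith [h t ht])
      refine ⟨⟨(lam, M), hlam⟩, Or.inr ?_⟩
      intro t ht
      have := hM t ht
      rw [vf_neg] at this
      simp only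
      linarith
  obtain ⟨s, hs⟩ := hK.elim_finite_subcover (fun p : V => OO n p.1) (fun p => isOpen_OO n p.1)
    hcover
  set M : ℕ := s.sup (fun p => p.1.2) + 1 with hM
  have hMge : ∀ p ∈ s, p.1.2 ≤ M := by
    intro p hp
    have h1 : p.1.2 ≤ s.sup (fun p => p.1.2) := Finset.le_sup (f := fun p : V => p.1.2) hp
    omega
  have hM0 : 0 < M := by omega
  have hM0r : (0 : ℝ) < M := by exact_mod_cast hM0
  refine ⟨(s.toList.map fun p => p.1.1), M, hM0, ?_, ?_⟩
  · intro q hq1 hq2
    set v : Fin n → ℝ := fun i => (q i : ℝ) / M with hv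
    have hnorm : ‖v‖ = 1 := by
      apply le_antisymm
      · rw [pi_norm_le_iff_of_nonneg zero_le_one]
        intro i
        rw [hv, Real.norm_eq_abs, abs_div, abs_of_pos hM0r, div_le_one hM0r]
        have := hq1 i i.2
        exact_mod_cast this
      · obtain ⟨i, hi, hqi⟩ := hq2
        have h1 := norm_le_pi_norm v ⟨i, hi⟩
        rw [hv, Real.norm_eq_abs, abs_div, abs_of_pos hM0r] at h1
        simp only at h1
        have h2 : |(q i : ℝ)| = M := by exact_mod_cast hqi
        rw [h2, div_self hM0r.ne'] at h1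
        exact h1
    have hvs : v ∈ Metric.sphere (0 : Fin n → ℝ) 1 := by
      rw [mem_sphere_zero_iff_norm]; exact hnorm
    have h1 := hs hvs
    rw [Set.mem_iUnion₂] at h1
    obtain ⟨p, hp, hp2⟩ := h1
    have hvf : ∀ w : Wd, (M : ℝ) * vf n (extz n v) w =
        ((∑ i ∈ Finset.range n, q i * pos w i : ℤ) : ℝ) := by
      intro w
      unfold vf
      push_cast
      rw [Finset.mul_sum]
      apply Finset.sum_congr rfl
      intro i hi
      have hi' := Finset.mem_range.mp hi
      simp only [extz, dif_pos hi', hv]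
      field_simp
    refine ⟨p.1.1, List.mem_map.mpr ⟨p, Finset.mem_toList.mpr hp, rfl⟩, ?_⟩
    have hpM : (p.1.2 : ℝ) ≤ M := by exact_mod_cast hMge p hp
    have hp0 : (0 : ℝ) ≤ p.1.2 := Nat.cast_nonneg _
    rcases hp2 with h | h
    · right
      intro t ht
      have h2 := h t ht
      have h3 : (t.1.length : ℝ) < M * vf n (extz n v) t.1 := by
        have h4 : (0 : ℝ) ≤ t.1.length := Nat.cast_nonneg _
        have h5 : 0 < vf n (extz n v) t.1 := by
          by_contra hcon
          push Not at hcon
          nlinarith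
        nlinarith
      rw [hvf] at h3
      have h4 : (t.1.length : ℤ) < ∑ i ∈ Finset.range n, q i * pos t.1 i := by exact_mod_cast h3
      linarith
    · left
      intro t ht
      have h2 := h t ht
      have h3 : (t.1.length : ℝ) < -(M * vf n (extz n v) t.1) := by
        have h4 : (0 : ℝ) ≤ t.1.length := Nat.cast_nonneg _
        have h5 : vf n (extz n v) t.1 < 0 := by
          by_contra hcon
          push Not at hcon
          nlinarith
        nlinarith
      rw [hvf] at h3
      have h4 : (t.1.length : ℤ) < -(∑ i ∈ Finset.range n, q i * pos t.1 i) := by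
        exact_mod_cast h3
      linarith
  · intro lam hlam
    rw [List.mem_map] at hlam
    obtain ⟨p, _, rfl⟩ := hlam
    exact p.2

end

end Pool.Agent.Helper740
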