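import Pool.Agent.Helper740.Comp
import Pool.Agent.Helper740.TameA4
import Mathlib.GroupTheory.PresentedGroup

/-! Certificates exist exactly for the finite presentations of metabelian groups. -/

namespace Pool.Agent.Helper740

open scoped commutatorElement

/-! ### counting -/

lemma count_sub (w : Wd) (l : ℕ × Bool) :
    ((w.filter fun m => m = l).length : ℤ) - ((w.filter fun m => m = fl l).length : ℤ) =
      sgn l.2 * pos w l.1 := by
  induction w with
  | nil => simp [pos_nil]
  | cons m w ih =>
    rw [pos_cons, mul_add, ← ih]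
    obtain ⟨i, b⟩ := l
    obtain ⟨j, b'⟩ := m
    simp only [fl, List.filter_cons] at *
    by_cases hij : j = i
    · subst hij
      cases b <;> cases b' <;> simp [sgn] <;> ring
    · simp [hij]

lemma PP_sub_NN (n : ℕ) (u w : Wd) (hu : ∀ l ∈ u, l.1 < n) :
    (PP u w : ℤ) - NN u w = ∑ i ∈ Finset.range n, pos u i * pos w i := by
  induction u with
  | nil => simp [PP, NN, pos_nil]
  | cons l u ih =>
    have h1 := ih (fun m hm => hu m (by simp [hm]))
    have h2 : PP (l :: u) w = (w.filter fun m => m = l).length + PP u w := by simp [PP]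
    have h3 : NN (l :: u) w = (w.filter fun m => m = fl l).length + NN u w := by simp [NN]
    have h4 := count_sub w l
    rw [h2, h3]
    push_cast
    have h5 : ∑ i ∈ Finset.range n, pos (l :: u) i * pos w i =
        sgn l.2 * pos w l.1 + ∑ i ∈ Finset.range n, pos u i * pos w i := by
      simp only [pos_cons, add_mul, Finset.sum_add_distrib]
      congr 1
      have h6 : ∀ i ∈ Finset.range n, (if l.1 = i then sgn l.2 else 0) * pos w i =
          if l.1 = i then sgn l.2 * pos w l.1 else 0 := by
        intro i _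
        split_ifs with h
        · rw [h]
        · ring
      rw [Finset.sum_congr rfl h6, Finset.sum_ite_eq, if_pos (Finset.mem_range.mpr (hu l (by simp)))]
    rw [h5, ← h1, ← h4]
    ring

lemma le_count_cw (n : ℕ) (q : ℕ → ℤ) (i : ℕ) (hi : i < n) :
    (q i).natAbs ≤ ((cw q n).filter fun m => m = (i, decide (0 ≤ q i))).length := by
  induction n with
  | zero => omega
  | succ n ih =>
    rw [cw, List.filter_append, List.length_append]
    by_cases h : i < n
    · have := ih h
      omega
    · have h1 : i = n := by omega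
      subst h1
      have h2 : ((List.replicate (q i).natAbs (i, decide (0 ≤ q i))).filter fun m =>
          m = (i, decide (0 ≤ q i))) = List.replicate (q i).natAbs (i, decide (0 ≤ q i)) := by
        rw [List.filter_eq_self]
        intro a ha
        rw [List.mem_replicate] at ha
        simp [ha.2]
      rw [h2, List.length_replicate]
      omega

lemma cw_letters (n : ℕ) (q : ℕ → ℤ) : ∀ l ∈ cw q n, l.1 < n := by
  induction n with
  | zero => simp [cw]
  | succ n ih =>
    intro l hl
    rw [cw, List.mem_append] at hl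
    rcases hl with hl | hl
    · have := ih l hl; omega
    · rw [List.mem_replicate] at hl
      rw [hl.2]; simp

lemma pos_of_letters (w : Wd) (i : ℕ) (h : ∀ l ∈ w, l.1 ≠ i) : pos w i = 0 := by
  unfold pos
  apply List.sum_eq_zero
  intro y hy
  rw [List.mem_map] at hy
  obtain ⟨l, hl, rfl⟩ := hy
  rw [if_neg (h l hl)]

lemma box_count (n M : ℕ) (u : Wd) (hu : u ∈ box n M) :
    (∀ i, |pos u i| ≤ M) ∧
      ∀ l : ℕ × Bool, ((u.filter fun m => m = l).length : ℤ) ≤ |pos u l.1| := by
  induction n generalizing u with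
  | zero =>
    simp [box] at hu
    subst hu
    simp [pos_nil]
  | succ n ih =>
    have h2 : box (n + 1) M = boxstep M n (box n M) := rfl
    rw [h2, boxstep, List.mem_flatMap] at hu
    obtain ⟨w, hw, hu⟩ := hu
    rw [List.mem_flatMap] at hu
    obtain ⟨m, hm, hu⟩ := hu
    rw [List.mem_range] at hm
    rw [rep_eq, rep_eq] at hu
    obtain ⟨b, rfl⟩ : ∃ b, u = w ++ List.replicate m (n, b) := by
      simp only [List.mem_cons, List.not_mem_nil, or_false] at hu
      rcases hu with rfl | rfl
      · exact ⟨true, rfl⟩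
      · exact ⟨false, rfl⟩
    obtain ⟨ih1, ih2⟩ := ih w hw
    have hwl := box_letters n M w hw
    have hwn : pos w n = 0 := pos_of_letters w n (fun l hl => by have := hwl l hl; omega)
    have hpos : ∀ i, pos (w ++ List.replicate m (n, b)) i =
        if n = i then (m : ℤ) * sgn b else pos w i := by
      intro i
      rw [pos_append, pos_replicate]
      split_ifs with h
      · subst h; rw [hwn]; ring
      · ring
    constructor
    · intro i
      rw [hpos]
      split_ifs with h
      · rw [abs_mul, abs_sgn, mul_one, Nat.abs_cast]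
        omega
      · exact ih1 i
    · intro l
      rw [hpos, List.filter_append, List.length_append]
      by_cases h : n = l.1
      · rw [if_pos h]
        have h3 : (w.filter fun m => m = l) = [] := by
          rw [List.filter_eq_nil_iff]
          intro a ha
          have := hwl a ha
          simp only [decide_eq_true_eq]
          rintro rfl
          omega
        rw [h3, abs_mul, abs_sgn, mul_one, Nat.abs_cast]
        have h4 := List.length_filter_le (fun m => decide (m = l)) (List.replicate m (n, b))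
        rw [List.length_replicate] at h4
        simp only [List.length_nil, zero_add]
        exact_mod_cast h4
      · rw [if_neg h]
        have h3 : ((List.replicate m (n, b)).filter fun m => m = l) = [] := by
          rw [List.filter_eq_nil_iff]
          intro a ha
          rw [List.mem_replicate] at ha
          simp only [decide_eq_true_eq]
          rintro rfl
          apply h
          rw [ha.2]
        rw [h3, List.length_nil, add_zero]
        exact ih2 l

/-! ### evaluation of the words -/

section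

variable {G : Type} [Group G] (x : ℕ → G)

lemma ev_cmw (l l' : ℕ × Bool) : ev x (cmw l l') = cm x l l' := by
  have h1 : ∀ l : ℕ × Bool, lt x (fl l) = (lt x l)⁻¹ := fun l => lt_not x l.1 l.2
  rw [cmw, ev_cons, ev_cons, ev_cons, ev_singleton, h1, h1, cm, commutatorElement_def]
  group

lemma ev_relw (lam : List (Wd × Bool)) (b : Wd) : ev x (relw lam b) = relprod x lam (ev x b) := by
  induction lam with
  | nil => simp [relw, relprod, ev_nil]
  | cons t lam ih =>
    have h1 : relw (t :: lam) b =
        (t.1 ++ ((if t.2 = true then b else inv b) ++ inv t.1)) ++ relw lam b := by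
      simp [relw]
    have h2 : relprod x (t :: lam) (ev x b) =
        MulAut.conj (ev x t.1) (if t.2 then ev x b else (ev x b)⁻¹) *
          relprod x lam (ev x b) := by
      simp [relprod]
    rw [h1, h2, ev_append, ih]
    congr 1
    rw [ev_append, ev_append, ev_inv, MulAut.conj_apply]
    split_ifs
    · group
    · rw [ev_inv]; group

lemma ev_commw (a u b : Wd) : ev x (commw a u b) =
    ev x a * MulAut.conj (ev x u) (ev x b) * (ev x a)⁻¹ * (MulAut.conj (ev x u) (ev x b))⁻¹ := by
  simp only [commw, ev_append, ev_inv, MulAut.conj_apply]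
  group

lemma ev_filt (n : ℕ) (hx : ∀ i, n ≤ i → x i = 1) (w : Wd) : ev x (filt n w) = ev x w := by
  induction w with
  | nil => rfl
  | cons l w ih =>
    rw [filt, List.filter_cons]
    by_cases h : l.1 < n
    · rw [if_pos (by simpa using h), ev_cons, ev_cons]
      congr 1
    · rw [if_neg (by simpa using h), ev_cons]
      have h1 : lt x l = 1 := by simp [lt, hx l.1 (by omega)]
      rw [h1, one_mul]
      exact ih

lemma ev_eq_lift (w : Wd) : ev x w = FreeGroup.lift x (FreeGroup.mk w) := by
  rw [FreeGroup.lift_mk]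
  unfold ev
  congr 1
  apply List.map_congr_left
  intro l _
  obtain ⟨i, b⟩ := l
  cases b <;> simp [lt]

lemma ev_flat (R : List Wd) (hR : ∀ r ∈ R, ev x r = 1) (d : Der)
    (hd : ∀ t ∈ d, ∃ r ∈ R, t.2.1 = r) : ev x (flat d) = 1 := by
  induction d with
  | nil => rfl
  | cons t d ih =>
    have h1 : flat (t :: d) =
        (t.1 ++ ((if t.2.2 = true then t.2.1 else inv t.2.1) ++ inv t.1)) ++ flat d := by
      simp [flat]
    rw [h1, ev_append, ih (fun s hs => hd s (by simp [hs])), mul_one, ev_append, ev_append, ev_inv]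
    obtain ⟨r, hr, hr2⟩ := hd t (by simp)
    have h2 : ev x (if t.2.2 = true then t.2.1 else inv t.2.1) = 1 := by
      split_ifs
      · rw [hr2, hR r hr]
      · rw [ev_inv, hr2, hR r hr, inv_one]
    rw [h2, one_mul, mul_inv_cancel]

lemma isDer_sound (n : ℕ) (hx : ∀ i, n ≤ i → x i = 1) (R : List Wd) (hR : ∀ r ∈ R, ev x r = 1)
    (v : Wd) (d : Der) (h : IsDer n R v d) : ev x v = 1 := by
  obtain ⟨h1, h2⟩ := h
  have h3 := FreeGroup.reduce.exact h2
  rw [← ev_filt x n hx v, ev_eq_lift, h3, ← ev_eq_lift, ev_filt x n hx, ev_flat x R hR d h1]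

end

/-! ### the presented group -/

/-- generators of the free group, padded by `1` -/
def XF (n : ℕ) (i : ℕ) : FreeGroup (Fin n) := if h : i < n then FreeGroup.of ⟨i, h⟩ else 1

/-- the relator set -/
def RS (n : ℕ) (R : List Wd) : Set (FreeGroup (Fin n)) := {r | ∃ w ∈ R, r = ev (XF n) w}

/-- generators of the presented group -/
def xg (n : ℕ) (R : List Wd) (i : ℕ) : PresentedGroup (RS n R) :=
  PresentedGroup.mk (RS n R) (XF n i)

lemma map_ev {G H : Type*} [Group G] [Group H] (f : G →* H) (x : ℕ → G) (w : Wd) :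
    f (ev x w) = ev (fun i => f (x i)) w := by
  induction w with
  | nil => simp [ev_nil]
  | cons l w ih =>
    rw [ev_cons, ev_cons, map_mul, ih]
    congr 1
    obtain ⟨i, b⟩ := l
    cases b <;> simp [lt]

lemma ev_xg (n : ℕ) (R : List Wd) (w : Wd) :
    ev (xg n R) w = PresentedGroup.mk (RS n R) (ev (XF n) w) :=
  (map_ev (PresentedGroup.mk (RS n R)) (XF n) w).symm

lemma xg_one (n : ℕ) (R : List Wd) (i : ℕ) (hi : n ≤ i) : xg n R i = 1 := by
  have : XF n i = 1 := by simp [XF, Nat.not_lt.mpr hi]
  rw [xg, this, map_one]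

lemma XF_gen (n : ℕ) : Subgroup.closure (Set.range (XF n)) = ⊤ := by
  rw [eq_top_iff, ← FreeGroup.closure_range_of]
  apply Subgroup.closure_mono
  rintro _ ⟨i, rfl⟩
  exact ⟨i, by simp [XF]⟩

lemma xg_gen (n : ℕ) (R : List Wd) : Subgroup.closure (Set.range (xg n R)) = ⊤ := by
  have h1 : Set.range (xg n R) = (PresentedGroup.mk (RS n R)) '' Set.range (XF n) := by
    rw [← Set.range_comp]; rfl
  rw [h1, ← MonoidHom.map_closure, XF_gen]
  rw [← MonoidHom.range_eq_map, MonoidHom.range_eq_top]
  exact PresentedGroup.mk_surjective _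

lemma xg_rel (n : ℕ) (R : List Wd) : ∀ r ∈ R, ev (xg n R) r = 1 := by
  intro r hr
  rw [ev_xg]
  exact PresentedGroup.one_of_mem ⟨r, hr, rfl⟩

lemma xg_fpres (n : ℕ) (R : List Wd) : FPres (xg n R) n R := by
  refine ⟨xg_rel n R, ?_⟩
  intro H _ y hy hyR
  have hlift : ∀ i, FreeGroup.lift (fun i : Fin n => y i) (XF n i) = y i := by
    intro i
    by_cases h : i < n
    · simp [XF, h]
    · simp [XF, h, hy i (by omega)]
  have hrel : ∀ r ∈ RS n R, FreeGroup.lift (fun i : Fin n => y i) r = 1 := by
    rintro _ ⟨w, hw, rfl⟩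
    rw [map_ev]
    simp only [hlift]
    exact hyR w hw
  refine ⟨PresentedGroup.toGroup hrel, ?_⟩
  intro i
  by_cases h : i < n
  · have h1 : xg n R i = PresentedGroup.of ⟨i, h⟩ := by
      simp only [xg, XF, dif_pos h]; rfl
    rw [h1, PresentedGroup.toGroup.of]
  · rw [xg_one n R i (by omega), map_one, hy i (by omega)]

lemma normalClosure_flat (n : ℕ) (R : List Wd) (g : FreeGroup (Fin n))
    (hg : g ∈ Subgroup.normalClosure (RS n R)) :
    ∃ d : Der, (∀ t ∈ d, ∃ r ∈ R, t.2.1 = r) ∧ g = ev (XF n) (flat d) := by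
  unfold Subgroup.normalClosure at hg
  induction hg using Subgroup.closure_induction with
  | mem y hy =>
    rw [Group.mem_conjugatesOfSet_iff] at hy
    obtain ⟨r, ⟨w, hw, rfl⟩, hr⟩ := hy
    rw [isConj_iff] at hr
    obtain ⟨h, rfl⟩ := hr
    obtain ⟨u, rfl⟩ := exists_word (XF n) (XF_gen n) h
    refine ⟨[(u, w, true)], ?_, ?_⟩
    · intro t ht
      rw [List.mem_singleton] at ht
      subst ht
      exact ⟨w, hw, rfl⟩
    · simp [flat, ev_append, ev_inv, mul_assoc]
  | one => exact ⟨[], by simp, rfl⟩
  | mul a b _ _ ha hb =>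
    obtain ⟨d1, h1, rfl⟩ := ha
    obtain ⟨d2, h2, rfl⟩ := hb
    refine ⟨d1 ++ d2, ?_, ?_⟩
    · intro t ht
      rcases List.mem_append.mp ht with h | h
      · exact h1 t h
      · exact h2 t h
    · have e1 : flat (d1 ++ d2) = flat d1 ++ flat d2 := by simp [flat, List.flatMap_append]
      rw [e1, ev_append]
  | inv a _ ha =>
    obtain ⟨d1, h1, rfl⟩ := ha
    refine ⟨(d1.map fun t => (t.1, t.2.1, !t.2.2)).reverse, ?_, ?_⟩
    · intro t ht
      rw [List.mem_reverse, List.mem_map] at ht
      obtain ⟨s, hs, rfl⟩ := ht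
      exact h1 s hs
    · rename_i hmem
      clear h1 hmem
      induction d1 with
      | nil => simp [flat, ev_nil]
      | cons t d ih =>
        have e1 : flat (t :: d) =
            (t.1 ++ ((if t.2.2 = true then t.2.1 else inv t.2.1) ++ inv t.1)) ++ flat d := by
          simp [flat]
        have e2 : flat ((List.map (fun t : Wd × Wd × Bool => (t.1, t.2.1, !t.2.2)) (t :: d)).reverse)
            = flat ((List.map (fun t : Wd × Wd × Bool => (t.1, t.2.1, !t.2.2)) d).reverse) ++
              (t.1 ++ ((if (!t.2.2) = true then t.2.1 else inv t.2.1) ++ inv t.1)) := by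
          simp [flat, List.flatMap_append]
        rw [e1, e2, ev_append, ev_append, mul_inv_rev, ih]
        congr 1
        rw [ev_append, ev_append, ev_append, ev_append, ev_inv]
        cases t.2.2
        · simp [ev_inv, mul_assoc]
        · simp [ev_inv, mul_assoc]

lemma map_XF (n : ℕ) (w : Wd) :
    FreeGroup.map (fun i : Fin n => (i : ℕ)) (ev (XF n) w) = FreeGroup.mk (filt n w) := by
  induction w with
  | nil => simp [ev_nil, filt]; rfl
  | cons l w ih =>
    rw [ev_cons, map_mul, ih]
    obtain ⟨i, b⟩ := l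
    by_cases h : i < n
    · have e : filt n ((i, b) :: w) = (i, b) :: w.filter fun l => decide (l.1 < n) := by
        simp [filt, h]
      rw [e, filt]
      have h1 : (FreeGroup.mk ((i, b) :: w.filter fun l => decide (l.1 < n)) : FreeGroup ℕ) =
          FreeGroup.mk [(i, b)] * FreeGroup.mk (w.filter fun l => decide (l.1 < n)) := by
        rw [FreeGroup.mul_mk]; rfl
      rw [h1]
      congr 1
      cases b
      · simp only [lt, XF, dif_pos h, Bool.false_eq_true, if_false, map_inv, FreeGroup.map.of]
        rfl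
      · simp only [lt, XF, dif_pos h, if_true, FreeGroup.map.of]
        rfl
    · have e : filt n ((i, b) :: w) = filt n w := by
        simp [filt, h]
      rw [e]
      have h1 : lt (XF n) (i, b) = 1 := by cases b <;> simp [lt, XF, h]
      rw [h1, map_one, one_mul]

lemma isDer_complete (n : ℕ) (R : List Wd) (v : Wd) (hv : ev (xg n R) v = 1) :
    ∃ d, IsDer n R v d := by
  rw [ev_xg] at hv
  have h1 : ev (XF n) v ∈ Subgroup.normalClosure (RS n R) := by
    rw [← QuotientGroup.eq_one_iff]
    exact hv
  obtain ⟨d, hd, hd2⟩ := normalClosure_flat n R _ h1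
  refine ⟨d, hd, ?_⟩
  apply FreeGroup.reduce.sound
  rw [← map_XF, ← map_XF, hd2]

/-! ### the main equivalence -/

lemma bnd_mono (n M S S' : ℕ) (h : S ≤ S') : bnd n M S ≤ bnd n M S' := by
  unfold bnd
  gcongr

lemma exists_S (n M L : ℕ) (l : List ℕ) (h0 : bnd n M 0 ≤ L) (h : ∀ a ∈ l, bnd n M a ≤ L) :
    ∃ S, (∀ a ∈ l, a ≤ S) ∧ bnd n M S ≤ L := by
  induction l with
  | nil => exact ⟨0, by simp, h0⟩
  | cons a l ih =>
    obtain ⟨S, h1, h2⟩ := ih (fun b hb => h b (by simp [hb]))
    rcases le_total a S with h3 | h3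
    · refine ⟨S, ?_, h2⟩
      intro b hb
      rcases List.mem_cons.mp hb with rfl | hb
      · exact h3
      · exact h1 b hb
    · refine ⟨a, ?_, h a (by simp)⟩
      intro b hb
      rcases List.mem_cons.mp hb with rfl | hb
      · exact le_rfl
      · exact (h1 b hb).trans h3

theorem ok_sound (n : ℕ) (R : List Wd) (c : Cert) (h : Ok (n, R) c) :
    ∀ a ∈ commutator (PresentedGroup (RS n R)), ∀ b ∈ commutator (PresentedGroup (RS n R)),
      a * b = b * a := by
  obtain ⟨Lam, ⟨M, L⟩, D⟩ := c
  obtain ⟨hM, hb0, hb, hcov, hreq⟩ := h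
  simp only at hM hb0 hb hcov hreq
  set x := xg n R with hxdef
  have hx := xg_one n R
  obtain ⟨S, hS1, hS2⟩ := exists_S n M L ((Lam.flatten).map fun t => t.1.length) hb0 (by
    intro a ha
    rw [List.mem_map] at ha
    obtain ⟨t, ht, rfl⟩ := ha
    rw [List.mem_flatten] at ht
    obtain ⟨lam, hlam, ht⟩ := ht
    exact hb lam hlam t ht)
  have hev : ∀ v ∈ req n L Lam, ev x v = 1 := by
    intro v hv
    obtain ⟨d, _, hd⟩ := hreq v hv
    exact isDer_sound x n hx R (xg_rel n R) v d hd
  have hcm1 : ∀ m m' : ℕ × Bool, (¬ (m.1 < n ∧ m'.1 < n)) → cm x m m' = 1 := by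
    intro m m' h
    have hl : ∀ l : ℕ × Bool, n ≤ l.1 → lt x l = 1 := by
      intro l hl
      have h0 : x l.1 = 1 := hx l.1 hl
      simp [lt, h0]
    by_cases h1 : m.1 < n
    · have h2 : n ≤ m'.1 := by
        by_contra h3
        exact h ⟨h1, by omega⟩
      simp [cm, hl m' h2]
    · simp [cm, hl m (by omega)]
  refine abelian_of_cert x n hx (xg_gen n R) Lam M L S hM ?_ ?_ ?_ ?_ ?_
  · intro lam hlam t ht
    exact hS1 _ (List.mem_map.mpr ⟨t, List.mem_flatten.mpr ⟨lam, hlam, ht⟩, rfl⟩)
  · have : M * (S ^ 2 + n * (4 * S + 3) ^ 2) + 4 * S + 4 = bnd n M S := by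
      unfold bnd; ring
    omega
  · intro q hq1 hq2
    have hbox := cw_mem_box n M q hq1
    obtain ⟨i, hi, hqi⟩ := hq2
    have hcount := le_count_cw n q i hi
    rw [Int.abs_eq_natAbs] at hqi
    have hMi : (q i).natAbs = M := by exact_mod_cast hqi
    rw [hMi] at hcount
    obtain ⟨lam, hlam, hcase⟩ := hcov (cw q n) hbox ⟨(i, decide (0 ≤ q i)), by
      have h1 : 0 < ((cw q n).filter fun m => m = (i, decide (0 ≤ q i))).length := by omega
      obtain ⟨a, ha⟩ := List.exists_mem_of_length_pos h1
      rw [List.mem_filter] at ha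
      have h2 : a = (i, decide (0 ≤ q i)) := by simpa using ha.2
      rw [← h2]
      exact ha.1, hcount⟩
    refine ⟨lam, hlam, ?_⟩
    have hsum : ∀ w : Wd, (PP (cw q n) w : ℤ) - NN (cw q n) w =
        ∑ i ∈ Finset.range n, q i * pos w i := by
      intro w
      rw [PP_sub_NN n _ w (cw_letters n q)]
      apply Finset.sum_congr rfl
      intro j hj
      rw [pos_cw, if_pos (Finset.mem_range.mp hj)]
    rcases hcase with h | h
    · left
      intro t ht
      have h1 := h t ht
      rw [← hsum]
      omega
    · right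
      intro t ht
      have h1 := h t ht
      rw [← hsum]
      omega
  · intro lam hlam m m'
    by_cases h : m.1 < n ∧ m'.1 < n
    · have h1 := hev (relw lam (cmw m m') ++ inv (cmw m m')) (by
        rw [req, List.mem_append]
        left
        rw [List.mem_flatMap]
        exact ⟨lam, hlam, List.mem_map.mpr ⟨cmw m m', mem_cms n m m' h.1 h.2, rfl⟩⟩)
      rw [ev_append, ev_inv, ev_relw, ev_cmw] at h1
      exact mul_inv_eq_one.mp h1
    · rw [hcm1 m m' h]
      have : ∀ l : List (Wd × Bool), relprod x l 1 = 1 := by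
        intro l
        induction l with
        | nil => rfl
        | cons t l ih =>
          have h2 : relprod x (t :: l) 1 =
              MulAut.conj (ev x t.1) (if t.2 then 1 else 1⁻¹) * relprod x l 1 := by
            simp [relprod]
          rw [h2, ih]
          simp
      exact this lam
  · intro q hq l l' m m'
    by_cases h : l.1 < n ∧ l'.1 < n
    · by_cases h' : m.1 < n ∧ m'.1 < n
      · have h1 := hev (commw (cmw l l') (cw q n) (cmw m m')) (by
          rw [req, List.mem_append]
          right
          rw [List.mem_flatMap]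
          refine ⟨cw q n, cw_mem_box n L q hq, ?_⟩
          rw [List.mem_flatMap]
          refine ⟨cmw l l', mem_cms n l l' h.1 h.2, ?_⟩
          exact List.mem_map.mpr ⟨cmw m m', mem_cms n m m' h'.1 h'.2, rfl⟩)
        rw [ev_commw, ev_cmw, ev_cmw] at h1
        have h2 : ⁅cm x l l', MulAut.conj (ev x (cw q n)) (cm x m m')⁆ = 1 := h1
        rwa [commutatorElement_eq_one_iff_commute] at h2
      · rw [hcm1 m m' h', map_one]
        exact Commute.one_right _
    · rw [hcm1 l l' h]
      exact Commute.one_left _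

theorem ok_complete (n : ℕ) (R : List Wd)
    (hab : ∀ a ∈ commutator (PresentedGroup (RS n R)),
      ∀ b ∈ commutator (PresentedGroup (RS n R)), a * b = b * a) :
    ∃ c : Cert, Ok (n, R) c := by
  set x := xg n R with hxdef
  obtain ⟨Lam, M, hM, hcov, hLam⟩ := exists_cert_data x n R (xg_one n R) (xg_gen n R)
    (xg_fpres n R) hab
  set S : ℕ := ((Lam.flatten).map fun t => t.1.length).foldr max 0 with hS
  have hSle : ∀ lam ∈ Lam, ∀ t ∈ lam, t.1.length ≤ S := by
    intro lam hlam t ht
    have h1 : ∀ (l : List ℕ) (a : ℕ), a ∈ l → a ≤ l.foldr max 0 := by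
      intro l
      induction l with
      | nil => simp
      | cons b l ih =>
        intro a ha
        rw [List.foldr_cons]
        rcases List.mem_cons.mp ha with rfl | ha
        · exact le_max_left _ _
        · exact (ih a ha).trans (le_max_right _ _)
    apply h1
    exact List.mem_map.mpr ⟨t, List.mem_flatten.mpr ⟨lam, hlam, ht⟩, rfl⟩
  set L : ℕ := bnd n M S with hL
  -- derivations
  have hev : ∀ v ∈ req n L Lam, ev x v = 1 := by
    intro v hv
    rw [req, List.mem_append] at hv
    rcases hv with hv | hv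
    · rw [List.mem_flatMap] at hv
      obtain ⟨lam, hlam, hv⟩ := hv
      rw [List.mem_map] at hv
      obtain ⟨b, hb, rfl⟩ := hv
      obtain ⟨l, l', rfl⟩ := of_mem_cms n b hb
      rw [ev_append, ev_inv, ev_relw, ev_cmw, hLam lam hlam _ (cm_mem x l l'), mul_inv_cancel]
    · rw [List.mem_flatMap] at hv
      obtain ⟨u, _, hv⟩ := hv
      rw [List.mem_flatMap] at hv
      obtain ⟨a, ha, hv⟩ := hv
      rw [List.mem_map] at hv
      obtain ⟨b, hb, rfl⟩ := hv
      obtain ⟨l, l', rfl⟩ := of_mem_cms n a ha
      obtain ⟨m, m', rfl⟩ := of_mem_cms n b hb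
      rw [ev_commw, ev_cmw, ev_cmw,
        hab _ (cm_mem x l l') _ (conj_mem_comm (ev x u) _ (cm_mem x m m'))]
      group
  have hD : ∀ V : List Wd, (∀ v ∈ V, ev x v = 1) →
      ∃ D : List Der, ∀ v ∈ V, ∃ d ∈ D, IsDer n R v d := by
    intro V
    induction V with
    | nil => intro _; exact ⟨[], by simp⟩
    | cons v V ih =>
      intro h
      obtain ⟨D, hD⟩ := ih (fun w hw => h w (by simp [hw]))
      obtain ⟨d, hd⟩ := isDer_complete n R v (h v (by simp))
      refine ⟨d :: D, ?_⟩
      intro w hw
      rcases List.mem_cons.mp hw with rfl | hw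
      · exact ⟨d, by simp, hd⟩
      · obtain ⟨e, he, he2⟩ := hD w hw
        exact ⟨e, by simp [he], he2⟩
  obtain ⟨D, hD⟩ := hD _ hev
  refine ⟨(Lam, (M, L), D), hM, bnd_mono n M 0 S (Nat.zero_le _), ?_, ?_, hD⟩
  · intro lam hlam t ht
    exact bnd_mono n M _ S (hSle lam hlam t ht)
  · intro u hu hlu
    obtain ⟨l, hl, hlM⟩ := hlu
    obtain ⟨h1, h2⟩ := box_count n M u hu
    have hln := box_letters n M u hu l hl
    have h3 := h2 l
    have h4 := h1 l.1
    have h5 : |pos u l.1| = M := by
      apply le_antisymm h4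
      have : (M : ℤ) ≤ ((u.filter fun m => m = l).length : ℤ) := by exact_mod_cast hlM
      linarith
    obtain ⟨lam, hlam, hcase⟩ := hcov (pos u) (fun i _ => h1 i) ⟨l.1, hln, h5⟩
    refine ⟨lam, hlam, ?_⟩
    have hsum : ∀ w : Wd, (PP u w : ℤ) - NN u w = ∑ i ∈ Finset.range n, pos u i * pos w i :=
      fun w => PP_sub_NN n u w (box_letters n M u hu)
    rcases hcase with h | h
    · left
      intro t ht
      have h6 := h t ht
      rw [← hsum] at h6
      omega
    · right
      intro t ht
      have h6 := h t ht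
      rw [← hsum] at h6
      omega

lemma derived_two_iff (G : Type) [Group G] :
    derivedSeries G 2 = ⊥ ↔ ∀ a ∈ commutator G, ∀ b ∈ commutator G, a * b = b * a := by
  rw [derivedSeries_succ, derivedSeries_one, Subgroup.commutator_eq_bot_iff_le_centralizer]
  constructor
  · intro h a ha b hb
    have h1 := h ha
    rw [Subgroup.mem_centralizer_iff] at h1
    exact (h1 b hb).symm
  · intro h a ha
    rw [Subgroup.mem_centralizer_iff]
    intro b hb
    exact (h a ha b hb).symm

theorem re_metabelian : REPred fun p : ℕ × List Wd =>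
    derivedSeries (PresentedGroup (RS p.1 p.2)) 2 = ⊥ := by
  refine (re_exists pp_ok).of_eq fun p => ?_
  rw [derived_two_iff]
  exact ⟨fun ⟨c, hc⟩ => ok_sound p.1 p.2 c hc, fun h => ok_complete p.1 p.2 h⟩

end Pool.Agent.Helper740
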