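import Pool.Agent.Helper740.TameB2
import Mathlib.GroupTheory.RegularWreathProduct
import Mathlib.GroupTheory.Abelianization.Defs

/-! Half-space generation for finitely presented metabelian groups (Bieri-Strebel). -/

namespace Pool.Agent.Helper740

open scoped commutatorElement
open Filter

universe u

section

variable {G : Type u} [Group G]

/-- A group receiving two quotients in which nontrivial images never commute. -/
lemma exists_P (A : Type u) [CommGroup A] (K1 K2 : Subgroup A) :
    ∃ (P : Type u) (_ : Group P) (f1 f2 : A →* P),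
      (∀ a, a ∈ K1 → f1 a = 1) ∧ (∀ a, a ∈ K2 → f2 a = 1) ∧
      ∀ a b, Commute (f1 a) (f2 b) → a ∈ K1 ∨ b ∈ K2 := by
  classical
  let i1 : (A ⧸ K1) →* RegularWreathProduct (A ⧸ K1) (A ⧸ K2) :=
    { toFun := fun u => ⟨Pi.mulSingle 1 u, 1⟩
      map_one' := by
        apply RegularWreathProduct.ext <;> simp
      map_mul' := by
        intro u v
        apply RegularWreathProduct.ext
        · funext z
          simp only [RegularWreathProduct.mul_left, inv_one, one_mul, Pi.mul_apply]
          rw [Pi.mulSingle_mul]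
          rfl
        · simp }
  let i2 : (A ⧸ K2) →* RegularWreathProduct (A ⧸ K1) (A ⧸ K2) :=
    { toFun := fun v => ⟨1, v⟩
      map_one' := rfl
      map_mul' := by
        intro u v
        apply RegularWreathProduct.ext
        · funext z
          simp
        · simp }
  refine ⟨RegularWreathProduct (A ⧸ K1) (A ⧸ K2), inferInstance,
    i1.comp (QuotientGroup.mk' K1), i2.comp (QuotientGroup.mk' K2), ?_, ?_, ?_⟩
  · intro a ha
    have h1 : (QuotientGroup.mk' K1) a = 1 := by
      rw [← MonoidHom.mem_ker, QuotientGroup.ker_mk']; exact ha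
    simp only [MonoidHom.comp_apply, h1, map_one]
  · intro a ha
    have h1 : (QuotientGroup.mk' K2) a = 1 := by
      rw [← MonoidHom.mem_ker, QuotientGroup.ker_mk']; exact ha
    simp only [MonoidHom.comp_apply, h1, map_one]
  · intro a b hab
    by_cases hb : b ∈ K2
    · exact Or.inr hb
    · left
      have h1 : (QuotientGroup.mk' K2) b ≠ 1 := by
        rw [Ne, ← MonoidHom.mem_ker, QuotientGroup.ker_mk']; exact hb
      have h2 := hab.eq
      have h3 := congrArg (fun w => RegularWreathProduct.left w 1) h2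
      have h4 : ((QuotientGroup.mk' K2) b)⁻¹ ≠ 1 := by simpa using h1
      simp only [MonoidHom.comp_apply, MonoidHom.coe_mk, OneHom.coe_mk, i1, i2,
        RegularWreathProduct.mul_left, Pi.mul_apply, Pi.mulSingle_eq_same, Pi.one_apply,
        mul_one, one_mul] at h3
      rw [Pi.mulSingle_eq_of_ne h4] at h3
      rw [← MonoidHom.mem_ker, QuotientGroup.ker_mk'] at h3
      exact h3

variable (x : ℕ → G) (c : G → ℝ)

/-- the subgroup generated by the conjugates `h (cm l l') h⁻¹` with `c h ∈ I` -/
def AA (I : Set ℝ) : Subgroup G :=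
  Subgroup.closure {g | ∃ (h : G) (l l' : ℕ × Bool), c h ∈ I ∧ g = MulAut.conj h (cm x l l')}

lemma conj_mem_AA {I : Set ℝ} {h : G} (hI : c h ∈ I) (l l' : ℕ × Bool) :
    MulAut.conj h (cm x l l') ∈ AA x c I :=
  Subgroup.subset_closure ⟨h, l, l', hI, rfl⟩

lemma cm_mem (l l' : ℕ × Bool) : cm x l l' ∈ commutator G :=
  Subgroup.commutator_mem_commutator (Subgroup.mem_top _) (Subgroup.mem_top _)

lemma conj_mem_comm (g a : G) (ha : a ∈ commutator G) : MulAut.conj g a ∈ commutator G :=
  (inferInstance : (commutator G).Normal).conj_mem a ha g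

variable {c} in
lemma AA_shift (hc : ∀ g h, c (g * h) = c g + c h) {I J : Set ℝ} (g : G)
    (hIJ : ∀ r ∈ I, c g + r ∈ J) (a : G) (ha : a ∈ AA x c I) : MulAut.conj g a ∈ AA x c J := by
  induction ha using Subgroup.closure_induction with
  | mem y hy =>
    obtain ⟨h, l, l', hI, rfl⟩ := hy
    rw [← MulAut.mul_apply, ← map_mul]
    apply conj_mem_AA
    rw [hc]
    exact hIJ _ hI
  | one => rw [map_one]; exact one_mem _
  | mul a b _ _ ha hb => rw [map_mul]; exact mul_mem ha hb
  | inv a _ ha => rw [map_inv]; exact inv_mem ha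

lemma commutator_le_AA (hgen : Subgroup.closure (Set.range x) = ⊤) :
    commutator G ≤ AA x c Set.univ := by
  have hKconj : ∀ (g : G), ∀ k ∈ AA x c Set.univ, MulAut.conj g k ∈ AA x c Set.univ := by
    intro g k hk
    induction hk using Subgroup.closure_induction with
    | mem y hy =>
      obtain ⟨h, l, l', _, rfl⟩ := hy
      rw [← MulAut.mul_apply, ← map_mul]
      exact conj_mem_AA x c (Set.mem_univ _) _ _
    | one => rw [map_one]; exact one_mem _
    | mul a b _ _ ha hb => rw [map_mul]; exact mul_mem ha hb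
    | inv a _ ha => rw [map_inv]; exact inv_mem ha
  have h5 : ∀ (l : ℕ × Bool) (v : Wd), ⁅lt x l, ev x v⁆ ∈ AA x c Set.univ := by
    intro l v
    induction v with
    | nil => simp [ev_nil]
    | cons m v ih =>
      rw [ev_cons]
      have e : ⁅lt x l, lt x m * ev x v⁆ =
          ⁅lt x l, lt x m⁆ * MulAut.conj (lt x m) ⁅lt x l, ev x v⁆ := by
        simp only [commutatorElement_def, MulAut.conj_apply]
        group
      rw [e]
      refine mul_mem (Subgroup.subset_closure ⟨1, l, m, Set.mem_univ _, by simp [cm]⟩)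
        (hKconj _ _ ih)
  have h6 : ∀ (u v : Wd), ⁅ev x u, ev x v⁆ ∈ AA x c Set.univ := by
    intro u v
    induction u with
    | nil => simp [ev_nil]
    | cons m u ih =>
      rw [ev_cons]
      have e : ⁅lt x m * ev x u, ev x v⁆ =
          MulAut.conj (lt x m) ⁅ev x u, ev x v⁆ * ⁅lt x m, ev x v⁆ := by
        simp only [commutatorElement_def, MulAut.conj_apply]
        group
      rw [e]
      exact mul_mem (hKconj _ _ ih) (h5 m v)
  rw [commutator_def, Subgroup.commutator_le]
  intro g _ h _
  obtain ⟨u, rfl⟩ := exists_word x hgen g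
  obtain ⟨v, rfl⟩ := exists_word x hgen h
  exact h6 u v

variable {c}

lemma c_one (hc : ∀ g h, c (g * h) = c g + c h) : c 1 = 0 := by
  have := hc 1 1
  rw [mul_one] at this
  linarith

lemma c_inv (hc : ∀ g h, c (g * h) = c g + c h) (g : G) : c g⁻¹ = - c g := by
  have h1 := hc g g⁻¹
  rw [mul_inv_cancel, c_one hc] at h1
  linarith

lemma c_pow (hc : ∀ g h, c (g * h) = c g + c h) (g : G) (m : ℕ) : c (g ^ m) = m * c g := by
  induction m with
  | zero => simp [c_one hc]
  | succ m ih => rw [pow_succ, hc, ih]; push_cast; ring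

lemma c_comm (hc : ∀ g h, c (g * h) = c g + c h) (a : G) (ha : a ∈ commutator G) : c a = 0 := by
  let χ : G →* Multiplicative ℝ :=
    { toFun := fun g => Multiplicative.ofAdd (c g)
      map_one' := by rw [c_one hc]; rfl
      map_mul' := fun g h => by rw [hc]; rfl }
  have h := Abelianization.commutator_subset_ker χ ha
  rw [MonoidHom.mem_ker] at h
  exact Multiplicative.ofAdd.injective h

lemma eventually_AA (hc : ∀ g h, c (g * h) = c g + c h)
    (hgen : Subgroup.closure (Set.range x) = ⊤) (c0 : ℝ) (a : G) (ha : a ∈ commutator G) :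
    ∃ B : ℝ, ∀ g, c g ≤ B → MulAut.conj g a ∈ AA x c (Set.Iic c0) := by
  have ha' := commutator_le_AA x c hgen ha
  induction ha' using Subgroup.closure_induction with
  | mem y hy =>
    obtain ⟨h, l, l', _, rfl⟩ := hy
    refine ⟨c0 - c h, fun g hg => ?_⟩
    rw [← MulAut.mul_apply, ← map_mul]
    apply conj_mem_AA
    rw [hc, Set.mem_Iic]
    linarith
  | one => exact ⟨0, fun g _ => by rw [map_one]; exact one_mem _⟩
  | mul a b ha0 hb0 iha ihb =>
    have hAA : ∀ y, y ∈ AA x c Set.univ → y ∈ commutator G := by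
      intro y hy
      induction hy using Subgroup.closure_induction with
      | mem z hz =>
        obtain ⟨h, l, l', _, rfl⟩ := hz
        exact conj_mem_comm _ _ (cm_mem x l l')
      | one => exact one_mem _
      | mul a b _ _ ha hb => exact mul_mem ha hb
      | inv a _ ha => exact inv_mem ha
    obtain ⟨B1, h1⟩ := iha (hAA a ha0)
    obtain ⟨B2, h2⟩ := ihb (hAA b hb0)
    refine ⟨min B1 B2, fun g hg => ?_⟩
    rw [map_mul]
    exact mul_mem (h1 g (hg.trans (min_le_left _ _))) (h2 g (hg.trans (min_le_right _ _)))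
  | inv a ha0 iha =>
    obtain ⟨B1, h1⟩ := iha ((commutator G).inv_mem_iff.mp ha)
    refine ⟨B1, fun g hg => ?_⟩
    rw [map_inv]
    exact inv_mem (h1 g hg)

/-- the twisted difference -/
def dl (s : G) (M : ℕ) (g h : G) : commutator G :=
  ⟨g * (h * s ^ M * h⁻¹ * (s ^ M)⁻¹) * g⁻¹,
    (inferInstance : (commutator G).Normal).conj_mem _
      (Subgroup.commutator_mem_commutator (Subgroup.mem_top _) (Subgroup.mem_top _)) g⟩

lemma dl_succ (s : G) (M : ℕ) (g h : G) :
    dl s (M + 1) g h = dl s M g h * dl s 1 (g * s ^ M) h := by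
  apply Subtype.ext
  simp only [dl, Subgroup.coe_mul, pow_succ, pow_zero, one_mul]
  group

lemma dl_mul (hab : ∀ a ∈ commutator G, ∀ b ∈ commutator G, a * b = b * a)
    (s : G) (M : ℕ) (g h k : G) :
    dl s M g (h * k) = dl s M g h * dl s M (g * h) k := by
  have h1 : dl s M g h * dl s M (g * h) k = dl s M (g * h) k * dl s M g h :=
    Subtype.ext (hab _ (dl s M g h).2 _ (dl s M (g * h) k).2)
  rw [h1]
  apply Subtype.ext
  simp only [dl, Subgroup.coe_mul]
  group

lemma exists_theta (hc : ∀ g h, c (g * h) = c g + c h)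
    (hgen : Subgroup.closure (Set.range x) = ⊤)
    (hab : ∀ a ∈ commutator G, ∀ b ∈ commutator G, a * b = b * a)
    {P : Type u} [Group P] (f : commutator G →* P) (c0 : ℝ)
    (hf : ∀ a : commutator G, (a : G) ∈ AA x c (Set.Iic c0) → f a = 1)
    (z0 : ℕ × Bool) (hz : 0 < c (lt x z0)) :
    ∃ θ : G → G → P, (∀ g h k, θ g (h * k) = θ g h * θ (g * h) k) ∧
      (∀ g i, c g ≤ c0 → θ g (x i) = 1) ∧
      (∀ g ∈ commutator G, ∀ a : commutator G, θ g a = f a) := by
  set s : G := lt x (z0.1, !z0.2) with hs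
  have hst : s = (lt x z0)⁻¹ := lt_not x z0.1 z0.2
  have hcs : c s < 0 := by rw [hst, c_inv hc]; linarith
  -- eventual smallness
  have small : ∀ a ∈ commutator G, ∀ g : G, ∃ M0 : ℕ, ∀ M ≥ M0,
      MulAut.conj (g * s ^ M) a ∈ AA x c (Set.Iic c0) := by
    intro a ha g
    obtain ⟨B, hB⟩ := eventually_AA x hc hgen c0 a ha
    obtain ⟨M0, hM0⟩ := exists_nat_gt ((c g - B) / (-c s))
    refine ⟨M0, fun M hM => hB _ ?_⟩
    rw [hc, c_pow hc]
    have h1 : (c g - B) / (-c s) < M := lt_of_lt_of_le hM0 (by exact_mod_cast hM)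
    rw [div_lt_iff₀ (by linarith)] at h1
    nlinarith
  have hlim : ∀ g h : G, ∃ p : P, ∃ M0 : ℕ, ∀ M ≥ M0, f (dl s M g h) = p := by
    intro g h
    obtain ⟨M0, hM0⟩ := small (dl s 1 1 h).1 (dl s 1 1 h).2 g
    refine ⟨f (dl s M0 g h), M0, fun M hM => ?_⟩
    induction M, hM using Nat.le_induction with
    | base => rfl
    | succ M hM ih =>
      rw [dl_succ, map_mul, ih, hf (dl s 1 (g * s ^ M) h), mul_one]
      have h2 := hM0 M hM
      have h3 : ((dl s 1 (g * s ^ M) h : commutator G) : G) =
          MulAut.conj (g * s ^ M) (dl s 1 1 h : commutator G) := by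
        simp only [dl, MulAut.conj_apply]
        group
      rw [h3]
      exact h2
  choose θ hθ using hlim
  refine ⟨θ, ?_, ?_, ?_⟩
  · intro g h k
    obtain ⟨M1, h1⟩ := hθ g (h * k)
    obtain ⟨M2, h2⟩ := hθ g h
    obtain ⟨M3, h3⟩ := hθ (g * h) k
    set M := max M1 (max M2 M3) with hM
    rw [← h1 M (le_max_left _ _), ← h2 M ((le_max_left _ _).trans (le_max_right _ _)),
      ← h3 M ((le_max_right _ _).trans (le_max_right _ _)), dl_mul hab, map_mul]
  · intro g i hg
    obtain ⟨M1, h1⟩ := hθ g (x i)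
    rw [← h1 M1 le_rfl]
    clear h1
    induction M1 with
    | zero =>
      have : dl s 0 g (x i) = 1 := by
        apply Subtype.ext
        simp [dl]
      rw [this, map_one]
    | succ M ih =>
      rw [dl_succ, map_mul, ih, one_mul]
      apply hf
      have h3 : ((dl s 1 (g * s ^ M) (x i) : commutator G) : G) =
          MulAut.conj (g * s ^ M) (cm x (i, true) (z0.1, !z0.2)) := by
        simp only [dl, MulAut.conj_apply, cm, commutatorElement_def, ← hs]
        simp only [lt, if_true, pow_one]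
      rw [h3]
      apply conj_mem_AA
      rw [Set.mem_Iic, hc, c_pow hc]
      have : (0 : ℝ) ≤ M := Nat.cast_nonneg M
      nlinarith
  · intro g hg a
    obtain ⟨M1, h1⟩ := hθ g a
    obtain ⟨M2, h2⟩ := small ((a : G)⁻¹) (inv_mem a.2) 1
    set M := max M1 M2 with hM
    rw [← h1 M (le_max_left _ _)]
    have h3 := h2 M (le_max_right _ _)
    rw [one_mul] at h3
    set b : commutator G := ⟨MulAut.conj (s ^ M) (a : G)⁻¹, conj_mem_comm _ _ (inv_mem a.2)⟩
      with hb
    have h4 : dl s M g a = a * b := by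
      apply Subtype.ext
      simp only [dl, hb, Subgroup.coe_mul]
      have h5 : (a : G) * s ^ M * (a : G)⁻¹ * (s ^ M)⁻¹ =
          (a : G) * MulAut.conj (s ^ M) (a : G)⁻¹ := by
        simp only [MulAut.conj_apply]; group
      rw [h5]
      have h6 : g * ((a : G) * MulAut.conj (s ^ M) (a : G)⁻¹) =
          ((a : G) * MulAut.conj (s ^ M) (a : G)⁻¹) * g :=
        hab g hg _ (mul_mem a.2 (conj_mem_comm _ _ (inv_mem a.2)))
      rw [h6]
      group
    rw [h4, map_mul, hf b h3, mul_one]

end

end Pool.Agent.Helper740
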