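import Pool.Agent.Helper740.TameA1

/-! The half-space theorem. -/

namespace Pool.Agent.Helper740

open scoped commutatorElement

universe u

section

variable {G : Type u} [Group G] (x : ℕ → G) {c : G → ℝ}

/-- `R` is a finite list of relators presenting `G` on the generators `x i`, `i < n`. -/
def FPres (n : ℕ) (R : List Wd) : Prop :=
  (∀ r ∈ R, ev x r = 1) ∧ ∀ (H : Type u) [Group H] (y : ℕ → H), (∀ i, n ≤ i → y i = 1) →
    (∀ r ∈ R, ev y r = 1) → ∃ φ : G →* H, ∀ i, φ (x i) = y i

variable (c) in
/-- total variation of a word -/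
noncomputable def kap (w : Wd) : ℝ := (w.map fun l => |c (lt x l)|).sum

lemma kap_append (u v : Wd) : kap x c (u ++ v) = kap x c u + kap x c v := by
  simp [kap]

lemma kap_nonneg (u : Wd) : 0 ≤ kap x c u := by
  apply List.sum_nonneg
  intro y hy
  rw [List.mem_map] at hy
  obtain ⟨l, _, rfl⟩ := hy
  exact abs_nonneg _

lemma abs_c_ev_le (hc : ∀ g h, c (g * h) = c g + c h) (u : Wd) : |c (ev x u)| ≤ kap x c u := by
  induction u with
  | nil => simp [ev_nil, c_one hc, kap]
  | cons l u ih =>
    rw [ev_cons, hc]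
    have h1 : kap x c (l :: u) = |c (lt x l)| + kap x c u := by simp [kap]
    rw [h1]
    exact (abs_add_le _ _).trans (by linarith)

lemma abs_c_prefix (hc : ∀ g h, c (g * h) = c g + c h) {u w : Wd} (h : u <+: w) :
    |c (ev x u)| ≤ kap x c w := by
  obtain ⟨v, rfl⟩ := h
  rw [kap_append]
  have := kap_nonneg (c := c) x v
  have := abs_c_ev_le x hc u
  linarith

lemma prefix_replicate {α : Type*} {u : List α} {m : ℕ} {a : α} (h : u <+: List.replicate m a) :
    ∃ j ≤ m, u = List.replicate j a := by
  refine ⟨u.length, by simpa using h.length_le, ?_⟩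
  rw [List.eq_replicate_iff]
  exact ⟨rfl, fun b hb => (List.mem_replicate.mp (h.subset hb)).2⟩

lemma conj_trivial (hab : ∀ a ∈ commutator G, ∀ b ∈ commutator G, a * b = b * a)
    (g h a : G) (hgh : g * h⁻¹ ∈ commutator G) (ha : a ∈ commutator G) :
    MulAut.conj g a = MulAut.conj h a := by
  have h1 : g = (g * h⁻¹) * h := by group
  have h2 := hab _ hgh _ (conj_mem_comm h a ha)
  rw [h1, map_mul, MulAut.mul_apply]
  rw [MulAut.conj_apply (g * h⁻¹), h2]
  group

lemma path_word (hc : ∀ g h, c (g * h) = c g + c h)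
    (hgen : Subgroup.closure (Set.range x) = ⊤)
    (hab : ∀ a ∈ commutator G, ∀ b ∈ commutator G, a * b = b * a)
    (z0 : ℕ × Bool) (hz : 0 < c (lt x z0)) (B : ℝ) (hB : ∀ l, |c (lt x l)| ≤ B)
    (g : G) (l l' : ℕ × Bool) (hg : 4 * B ≤ c g) :
    ∃ W : Wd, ev x W = MulAut.conj g (cm x l l') ∧ ∀ u, u <+: W → 0 ≤ c (ev x u) := by
  have hB0 : 0 ≤ B := (abs_nonneg _).trans (hB l)
  obtain ⟨w, hw⟩ := exists_word x hgen g
  obtain ⟨K, hK⟩ := exists_nat_ge (kap x c w / c (lt x z0))
  rw [div_le_iff₀ hz] at hK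
  set tK : Wd := List.replicate K z0 with htK
  have hinv : inv tK = List.replicate K (z0.1, !z0.2) := by
    simp [inv, htK]
  set W1 : Wd := tK ++ (w ++ inv tK) with hW1
  have hevt : ev x tK = (lt x z0) ^ K := by rw [htK, ev_replicate]
  have hevW1 : ev x W1 = lt x z0 ^ K * g * (lt x z0 ^ K)⁻¹ := by
    rw [hW1, ev_append, ev_append, ev_inv, hevt, hw, mul_assoc]
  set q : Wd := [l, l', (l.1, !l.2), (l'.1, !l'.2)] with hq
  have hevq : ev x q = cm x l l' := by
    rw [hq, ev_cons, ev_cons, ev_cons, ev_singleton, lt_not, lt_not, cm, commutatorElement_def]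
    group
  have hcW1 : c (ev x W1) = c g := by
    rw [hevW1, hc, hc, c_inv hc]; ring
  have hcq : c (ev x q) = 0 := by rw [hevq]; exact c_comm hc _ (cm_mem x l l')
  have hkq : ∀ v : Wd, v <+: q → |c (ev x v)| ≤ 4 * B := by
    intro v hv
    refine (abs_c_prefix x hc hv).trans ?_
    rw [hq]
    simp only [kap, List.map_cons, List.map_nil, List.sum_cons, List.sum_nil]
    have h1 := hB l
    have h2 := hB l'
    have h3 := hB (l.1, !l.2)
    have h4 := hB (l'.1, !l'.2)
    linarith
  -- prefixes of `W1`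
  have hp1 : ∀ u, u <+: W1 → 0 ≤ c (ev x u) := by
    intro u hu
    rcases prefix_append_cases hu with h | ⟨v, rfl, hv⟩
    · obtain ⟨j, _, rfl⟩ := prefix_replicate h
      rw [ev_replicate, c_pow hc]
      positivity
    · rw [ev_append, hc, hevt, c_pow hc]
      rcases prefix_append_cases hv with h | ⟨v', rfl, hv'⟩
      · have := abs_le.mp (abs_c_prefix x hc h)
        linarith
      · rw [hinv] at hv'
        obtain ⟨j, hj, rfl⟩ := prefix_replicate hv'
        rw [ev_append, hc, ev_replicate, c_pow hc, lt_not, c_inv hc, hw]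
        have hj' : (j : ℝ) ≤ K := by exact_mod_cast hj
        nlinarith
  refine ⟨W1 ++ (q ++ inv W1), ?_, ?_⟩
  · rw [ev_append x W1, ev_append x q, ev_inv x W1, hevq]
    have h1 : MulAut.conj (ev x W1) (cm x l l') = MulAut.conj g (cm x l l') := by
      apply conj_trivial hab _ _ _ _ (cm_mem x l l')
      rw [hevW1]
      exact Subgroup.commutator_mem_commutator (Subgroup.mem_top _) (Subgroup.mem_top _)
    rw [← h1, MulAut.conj_apply]
    group
  · intro u hu
    rcases prefix_append_cases hu with h | ⟨v, rfl, hv⟩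
    · exact hp1 u h
    · rw [ev_append, hc, hcW1]
      rcases prefix_append_cases hv with h | ⟨v', rfl, hv'⟩
      · have := abs_le.mp (hkq v h)
        linarith
      · rw [ev_append, hc, hcq, zero_add]
        obtain ⟨v'', hv''⟩ := hv'
        have h1 : W1 = inv v'' ++ inv v' := by
          rw [← inv_append, hv'', inv_inv']
        have h2 := hp1 (inv v'') ⟨inv v', h1.symm⟩
        have h3 : c (ev x W1) = c (ev x (inv v'')) + c (ev x (inv v')) := by
          conv_lhs => rw [h1]
          rw [ev_append, hc]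
        rw [ev_inv x v', c_inv hc, hcW1] at h3
        linarith

/-- evaluation in the wreath product along a path inside a region -/
lemma ev_region {P : Type u} [Group P] (Θ0 : G → ℕ → P) (θ : G → G → P)
    (hθ : ∀ g h k, θ g (h * k) = θ g h * θ (g * h) k) (Q : G → Prop)
    (hQ : ∀ v i, Q v → Θ0 v i = θ v (x i)) (w : Wd) :
    ∀ z : G, (∀ u, u <+: w → Q (z⁻¹ * ev x u)) →
      (ev (fun i => (⟨fun z => Θ0 z⁻¹ i, x i⟩ : RegularWreathProduct P G)) w).left z =
        θ z⁻¹ (ev x w) := by
  have hθ1 : ∀ g, θ g 1 = 1 := by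
    intro g
    have h := hθ g 1 1
    rw [mul_one, mul_one] at h
    exact left_eq_mul.mp h
  induction w with
  | nil =>
    intro z _
    rw [ev_nil, ev_nil, hθ1]
    rfl
  | cons l w ih =>
    intro z hz
    rw [ev_cons, ev_cons]
    set y : ℕ → RegularWreathProduct P G := fun i => ⟨fun z => Θ0 z⁻¹ i, x i⟩ with hy
    have hright : (lt y l).right = lt x l := by
      obtain ⟨i, b⟩ := l
      cases b <;> simp [lt, hy]
    rw [RegularWreathProduct.mul_left, Pi.mul_apply, hright]
    have h1 := ih ((lt x l)⁻¹ * z) (by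
      intro u hu
      have h2 := hz (l :: u) (by
        obtain ⟨v, rfl⟩ := hu
        exact ⟨v, rfl⟩)
      rw [ev_cons, ← mul_assoc] at h2
      rw [mul_inv_rev, inv_inv]
      exact h2)
    rw [h1, mul_inv_rev, inv_inv, hθ]
    congr 1
    obtain ⟨i, b⟩ := l
    cases b
    · have h3 := hz [(i, false)] ⟨w, rfl⟩
      rw [ev_singleton] at h3
      have h4 : lt x (i, false) = (x i)⁻¹ := by simp [lt]
      rw [h4] at h3 ⊢
      have h5 : (lt y (i, false)).left z = (Θ0 (z⁻¹ * (x i)⁻¹) i)⁻¹ := by
        simp only [lt, hy]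
        simp
      rw [h5, hQ _ _ h3]
      have h6 := hθ z⁻¹ (x i)⁻¹ (x i)
      rw [inv_mul_cancel, hθ1] at h6
      exact (eq_inv_of_mul_eq_one_left h6.symm).symm
    · have h3 := hz [] List.nil_prefix
      rw [ev_nil, mul_one] at h3
      have h4 : lt x (i, true) = x i := by simp [lt]
      have h5 : (lt y (i, true)).left z = Θ0 z⁻¹ i := by
        simp [lt, hy]
      rw [h5, hQ _ _ h3, h4]

lemma ev_right {P : Type u} [Group P] (y : ℕ → RegularWreathProduct P G)
    (hy : ∀ i, (y i).right = x i) (w : Wd) : (ev y w).right = ev x w := by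
  induction w with
  | nil => rfl
  | cons l w ih =>
    rw [ev_cons, ev_cons, RegularWreathProduct.mul_right, ih]
    congr 1
    obtain ⟨i, b⟩ := l
    cases b <;> simp [lt, hy]

/-- **The half-space theorem.** -/
theorem half_space (n : ℕ) (R : List Wd) (hx : ∀ i, n ≤ i → x i = 1)
    (hgen : Subgroup.closure (Set.range x) = ⊤) (hR : FPres x n R)
    (hab : ∀ a ∈ commutator G, ∀ b ∈ commutator G, a * b = b * a)
    (hc : ∀ g h, c (g * h) = c g + c h) (z0 : ℕ × Bool) (hz : 0 < c (lt x z0)) :
    ∃ c0 : ℝ, (∀ a ∈ commutator G, a ∈ AA x c (Set.Iic c0)) ∨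
      (∀ a ∈ commutator G, a ∈ AA x (fun g => - c g) (Set.Iic c0)) := by
  -- bound on letters
  set B : ℝ := ∑ i ∈ Finset.range n, |c (x i)| with hB
  have hB0 : 0 ≤ B := Finset.sum_nonneg fun _ _ => abs_nonneg _
  have hBl : ∀ l, |c (lt x l)| ≤ B := by
    intro l
    have h1 : |c (lt x l)| = |c (x l.1)| := by
      obtain ⟨i, b⟩ := l
      cases b
      · simp only [lt, Bool.false_eq_true, if_false, c_inv hc, abs_neg]
      · simp [lt]
    rw [h1]
    by_cases hl : l.1 < n
    · exact Finset.single_le_sum (f := fun i => |c (x i)|) (fun _ _ => abs_nonneg _)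
        (Finset.mem_range.mpr hl)
    · rw [hx _ (by omega), c_one hc, abs_zero]; exact hB0
  set c0 : ℝ := (R.map (kap x c)).sum + 4 * B with hc0
  have hRk : ∀ r ∈ R, kap x c r ≤ c0 := by
    intro r hr
    have h1 : kap x c r ≤ (R.map (kap x c)).sum := by
      apply List.single_le_sum (l := R.map (kap x c))
      · intro y hy
        rw [List.mem_map] at hy
        obtain ⟨r, _, rfl⟩ := hy
        exact kap_nonneg x r
      · exact List.mem_map_of_mem hr
    linarith
  have hc04 : 4 * B ≤ c0 := by
    have : 0 ≤ (R.map (kap x c)).sum := by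
      apply List.sum_nonneg
      intro y hy
      rw [List.mem_map] at hy
      obtain ⟨r, _, rfl⟩ := hy
      exact kap_nonneg x r
    linarith
  refine ⟨c0, ?_⟩
  by_contra hcon
  push Not at hcon
  obtain ⟨⟨a1, ha1, ha1'⟩, ⟨a2, ha2, ha2'⟩⟩ := hcon
  -- generators outside
  set c' : G → ℝ := fun g => - c g with hc'
  have hc'h : ∀ g h, c' (g * h) = c' g + c' h := by
    intro g h; simp only [hc', hc]; ring
  have out : ∀ d : G → ℝ, ∀ a ∈ commutator G, a ∉ AA x d (Set.Iic c0) →
      ∃ (g : G) (l l' : ℕ × Bool), MulAut.conj g (cm x l l') ∉ AA x d (Set.Iic c0) := by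
    intro d a ha ha'
    by_contra hcon
    push Not at hcon
    apply ha'
    have h1 := commutator_le_AA x d hgen ha
    induction h1 using Subgroup.closure_induction with
    | mem y hy =>
      obtain ⟨h, l, l', _, rfl⟩ := hy
      exact hcon h l l'
    | one => exact one_mem _
    | mul u v hu hv _ _ =>
      have key : ∀ y ∈ AA x d Set.univ, y ∈ AA x d (Set.Iic c0) := by
        intro y hy
        induction hy using Subgroup.closure_induction with
        | mem y hy =>
          obtain ⟨h, l, l', _, rfl⟩ := hy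
          exact hcon h l l'
        | one => exact one_mem _
        | mul u v _ _ hu hv => exact mul_mem hu hv
        | inv u _ hu => exact inv_mem hu
      exact mul_mem (key u hu) (key v hv)
    | inv u hu _ =>
      have key : ∀ y ∈ AA x d Set.univ, y ∈ AA x d (Set.Iic c0) := by
        intro y hy
        induction hy using Subgroup.closure_induction with
        | mem y hy =>
          obtain ⟨h, l, l', _, rfl⟩ := hy
          exact hcon h l l'
        | one => exact one_mem _
        | mul u v _ _ hu hv => exact mul_mem hu hv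
        | inv u _ hu => exact inv_mem hu
      exact inv_mem (key u hu)
  obtain ⟨g, l, l', hgA⟩ := out c a1 ha1 ha1'
  obtain ⟨h, m, m', hhA⟩ := out c' a2 ha2 ha2'
  set a : G := MulAut.conj g (cm x l l') with ha
  set b : G := MulAut.conj h (cm x m m') with hb
  have haA : a ∈ commutator G := conj_mem_comm _ _ (cm_mem x l l')
  have hbA : b ∈ commutator G := conj_mem_comm _ _ (cm_mem x m m')
  have hcg : c0 < c g := by
    by_contra hle
    exact hgA (conj_mem_AA x c (by simpa using hle) l l')
  have hch : c0 < c' h := by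
    by_contra hle
    exact hhA (conj_mem_AA x c' (by simpa using hle) m m')
  -- the group `P`
  let cg : CommGroup (commutator G) :=
    { (inferInstance : Group (commutator G)) with
      mul_comm := fun a b => Subtype.ext (hab a a.2 b b.2) }
  obtain ⟨P, hP, fU, fV, hU, hV, hUV⟩ := @exists_P (commutator G) cg
    ((AA x c (Set.Iic c0)).subgroupOf (commutator G))
    ((AA x c' (Set.Iic c0)).subgroupOf (commutator G))
  obtain ⟨θU, hU1, hU2, hU3⟩ := exists_theta x hc hgen hab fU c0
    (fun a ha => hU a (by rwa [Subgroup.mem_subgroupOf])) z0 hz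
  have hz' : 0 < c' (lt x (z0.1, !z0.2)) := by
    simp only [hc']
    rw [lt_not, c_inv hc]
    linarith
  obtain ⟨θV, hV1, hV2, hV3⟩ := exists_theta x hc'h hgen hab fV c0
    (fun a ha => hV a (by rwa [Subgroup.mem_subgroupOf])) (z0.1, !z0.2) hz'
  classical
  let Θ0 : G → ℕ → P := fun v i => if 0 < c v then θU v (x i) else θV v (x i)
  let y : ℕ → RegularWreathProduct P G := fun i => ⟨fun z => Θ0 z⁻¹ i, x i⟩
  have hc00 : 0 ≤ c0 := by linarith
  have hQU : ∀ v i, -c0 ≤ c v → Θ0 v i = θU v (x i) := by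
    intro v i hv
    by_cases h0 : 0 < c v
    · simp only [Θ0, if_pos h0]
    · simp only [Θ0, if_neg h0]
      rw [hU2 v i (by linarith), hV2 v i (by simp only [hc']; linarith)]
  have hQV : ∀ v i, c v ≤ c0 → Θ0 v i = θV v (x i) := by
    intro v i hv
    by_cases h0 : 0 < c v
    · simp only [Θ0, if_pos h0]
      rw [hU2 v i hv, hV2 v i (by simp only [hc']; linarith)]
    · simp only [Θ0, if_neg h0]
  have hθ1 : ∀ (θ : G → G → P), (∀ g h k, θ g (h * k) = θ g h * θ (g * h) k) →
      ∀ g, θ g 1 = 1 := by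
    intro θ hθ g
    have h := hθ g 1 1
    rw [mul_one, mul_one] at h
    exact left_eq_mul.mp h
  have hyn : ∀ i, n ≤ i → y i = 1 := by
    intro i hi
    apply RegularWreathProduct.ext
    · funext z
      simp only [y, Θ0, hx i hi, hθ1 θU hU1, hθ1 θV hV1, ite_self]
      rfl
    · exact hx i hi
  have hyR : ∀ r ∈ R, ev y r = 1 := by
    intro r hr
    apply RegularWreathProduct.ext
    · funext z
      by_cases h0 : 0 < c z⁻¹
      · have h1 := ev_region x Θ0 θU hU1 (fun v => -c0 ≤ c v) hQU r z (by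
          intro u hu
          rw [hc]
          have h2 := (abs_le.mp ((abs_c_prefix x hc hu).trans (hRk r hr))).1
          linarith)
        rw [hR.1 r hr, hθ1 θU hU1] at h1
        exact h1
      · have h1 := ev_region x Θ0 θV hV1 (fun v => c v ≤ c0) hQV r z (by
          intro u hu
          rw [hc]
          have h2 := (abs_le.mp ((abs_c_prefix x hc hu).trans (hRk r hr))).2
          linarith)
        rw [hR.1 r hr, hθ1 θV hV1] at h1
        exact h1
    · rw [ev_right x y (fun i => rfl) r, hR.1 r hr]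
      rfl
  obtain ⟨φ, hφ⟩ := hR.2 (RegularWreathProduct P G) y hyn hyR
  have hφw : ∀ w : Wd, φ (ev x w) = ev y w := by
    intro w
    induction w with
    | nil => rw [ev_nil, ev_nil, map_one]
    | cons l w ih =>
      rw [ev_cons, ev_cons, map_mul, ih]
      congr 1
      obtain ⟨i, b⟩ := l
      cases b <;> simp [lt, hφ]
  -- the two words
  obtain ⟨Wa, hWa, hWa'⟩ := path_word x hc hgen hab z0 hz B hBl g l l' (by linarith)
  have hBl' : ∀ l, |c' (lt x l)| ≤ B := by
    intro l
    simp only [hc', abs_neg]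
    exact hBl l
  obtain ⟨Wb, hWb, hWb'⟩ := path_word x hc'h hgen hab (z0.1, !z0.2) hz' B hBl' h m m'
    (by linarith)
  have hleftA : ∀ z ∈ commutator G, (φ a).left z = fU ⟨a, haA⟩ := by
    intro z hz
    have h1 := ev_region x Θ0 θU hU1 (fun v => -c0 ≤ c v) hQU Wa z (by
      intro u hu
      have h2 : c z⁻¹ = 0 := by rw [c_inv hc, c_comm hc z hz, neg_zero]
      rw [hc, h2, zero_add]
      linarith [hWa' u hu])
    have h2 := hU3 z⁻¹ (inv_mem hz) ⟨a, haA⟩
    have hea : ev x Wa = a := hWa
    have hφa : φ a = ev y Wa := by rw [← hφw Wa, hea]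
    rw [hφa]
    rw [hea] at h1
    exact h1.trans h2
  have hleftB : ∀ z ∈ commutator G, (φ b).left z = fV ⟨b, hbA⟩ := by
    intro z hz
    have h1 := ev_region x Θ0 θV hV1 (fun v => c v ≤ c0) hQV Wb z (by
      intro u hu
      have h2 : c z⁻¹ = 0 := by rw [c_inv hc, c_comm hc z hz, neg_zero]
      rw [hc, h2, zero_add]
      have h3 := hWb' u hu
      simp only [hc'] at h3
      linarith)
    have h2 := hV3 z⁻¹ (inv_mem hz) ⟨b, hbA⟩
    have heb : ev x Wb = b := hWb
    have hφb : φ b = ev y Wb := by rw [← hφw Wb, heb]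
    rw [hφb]
    rw [heb] at h1
    exact h1.trans h2
  have hcomm : φ a * φ b = φ b * φ a := by rw [← map_mul, ← map_mul, hab a haA b hbA]
  have hra : (φ a).right = a := by
    rw [ha, ← hWa, hφw, ev_right x y (fun i => rfl)]
  have hrb : (φ b).right = b := by
    rw [hb, ← hWb, hφw, ev_right x y (fun i => rfl)]
  have hfin := congrArg (fun w => RegularWreathProduct.left w 1) hcomm
  simp only [RegularWreathProduct.mul_left, Pi.mul_apply, hra, hrb, mul_one] at hfin
  rw [hleftA 1 (one_mem _), hleftA _ (inv_mem hbA), hleftB 1 (one_mem _),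
    hleftB _ (inv_mem haA)] at hfin
  rcases hUV ⟨a, haA⟩ ⟨b, hbA⟩ hfin with h1 | h1
  · exact hgA (by rwa [Subgroup.mem_subgroupOf] at h1)
  · exact hhA (by rwa [Subgroup.mem_subgroupOf] at h1)

end

end Pool.Agent.Helper740
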