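import Pool.Agent.Helper740.TameA2
import Mathlib.RingTheory.Nakayama

/-! From half-space generation to a polynomial fixing the module. -/

namespace Pool.Agent.Helper740

open scoped commutatorElement

universe u

section nak

variable {G : Type u} [Group G] {M : Type u} [AddCommGroup M] (σ : G →* AddMonoid.End M)

/-- additive subgroup spanned by the `σ g` with `c g ∈ I` -/
def spn (c : G → ℝ) (I : Set ℝ) : AddSubgroup (AddMonoid.End M) :=
  AddSubgroup.closure {f | ∃ g, c g ∈ I ∧ f = σ g}

lemma spn_mul {c : G → ℝ} (hc : ∀ g h, c (g * h) = c g + c h) {I J K : Set ℝ}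
    (hIJ : ∀ r ∈ I, ∀ s ∈ J, r + s ∈ K) (a b : AddMonoid.End M) (ha : a ∈ spn σ c I)
    (hb : b ∈ spn σ c J) : a * b ∈ spn σ c K := by
  induction ha using AddSubgroup.closure_induction with
  | mem y hy =>
    obtain ⟨g, hg, rfl⟩ := hy
    induction hb using AddSubgroup.closure_induction with
    | mem z hz =>
      obtain ⟨h, hh, rfl⟩ := hz
      rw [← map_mul]
      exact AddSubgroup.subset_closure ⟨g * h, by rw [hc]; exact hIJ _ hg _ hh, rfl⟩
    | zero => rw [mul_zero]; exact zero_mem _
    | add p q _ _ hp hq => rw [mul_add]; exact add_mem hp hq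
    | neg p _ hp => rw [mul_neg]; exact neg_mem hp
  | zero => rw [zero_mul]; exact zero_mem _
  | add p q _ _ hp hq => rw [add_mul]; exact add_mem hp hq
  | neg p _ hp => rw [neg_mul]; exact neg_mem hp

lemma spn_comm (hcomm : ∀ g h, σ g * σ h = σ h * σ g) {c : G → ℝ} {I J : Set ℝ}
    (a b : AddMonoid.End M) (ha : a ∈ spn σ c I)
    (hb : b ∈ spn σ c J) : a * b = b * a := by
  induction ha using AddSubgroup.closure_induction with
  | mem y hy =>
    obtain ⟨g, hg, rfl⟩ := hy
    induction hb using AddSubgroup.closure_induction with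
    | mem z hz =>
      obtain ⟨h, hh, rfl⟩ := hz
      exact hcomm g h
    | zero => rw [mul_zero, zero_mul]
    | add p q _ _ hp hq => rw [mul_add, add_mul, hp, hq]
    | neg p _ hp => rw [mul_neg, neg_mul, hp]
  | zero => rw [zero_mul, mul_zero]
  | add p q _ _ hp hq => rw [add_mul, mul_add, hp, hq]
  | neg p _ hp => rw [neg_mul, mul_neg, hp]

lemma nak (hcomm : ∀ g h, σ g * σ h = σ h * σ g) {c : G → ℝ}
    (hc : ∀ g h, c (g * h) = c g + c h) (T : Finset M)
    (hT : ∀ a : M, a ∈ AddSubgroup.closure {b | ∃ h, ∃ τ ∈ T, 0 ≤ c h ∧ b = σ h τ})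
    (t : G) (ht : 0 < c t) :
    ∃ e ∈ spn σ c (Set.Ioi 0), ∀ a : M, e a = a := by
  let S : Subring (AddMonoid.End M) :=
    { spn σ c (Set.Ici 0) with
      mul_mem' := fun {a b} ha hb => spn_mul σ hc (fun r hr s hs => by
        simp only [Set.mem_Ici] at *; linarith) a b ha hb
      one_mem' := AddSubgroup.subset_closure ⟨1, by simp [c_one hc], (map_one σ).symm⟩ }
  letI : CommRing S :=
    { (inferInstance : Ring S) with
      mul_comm := fun a b => Subtype.ext (spn_comm σ hcomm a.1 b.1 a.2 b.2) }
  let I : Ideal S :=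
    { carrier := {s | (s : AddMonoid.End M) ∈ spn σ c (Set.Ioi 0)}
      add_mem' := fun {a b} ha hb => by
        change ((a : AddMonoid.End M) + b) ∈ spn σ c (Set.Ioi 0)
        exact add_mem ha hb
      zero_mem' := zero_mem (spn σ c (Set.Ioi 0))
      smul_mem' := fun s a ha => spn_mul σ hc (fun r hr s hs => by
        simp only [Set.mem_Ici, Set.mem_Ioi] at *; linarith) s.1 a.1 s.2 ha }
  have hmemS : ∀ g, 0 ≤ c g → σ g ∈ S := fun g hg =>
    AddSubgroup.subset_closure ⟨g, hg, rfl⟩
  have hFG : (⊤ : Submodule S M).FG := by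
    refine ⟨T, ?_⟩
    rw [eq_top_iff]
    intro a _
    have h1 := hT a
    induction h1 using AddSubgroup.closure_induction with
    | mem y hy =>
      obtain ⟨h, τ, hτ, hh, rfl⟩ := hy
      exact Submodule.smul_mem _ (⟨σ h, hmemS h hh⟩ : S) (Submodule.subset_span hτ)
    | zero => exact zero_mem _
    | add p q _ _ hp hq => exact add_mem (hp trivial) (hq trivial)
    | neg p _ hp => exact neg_mem (hp trivial)
  have hin : (⊤ : Submodule S M) ≤ I • (⊤ : Submodule S M) := by
    intro a _
    have h1 : (⟨σ t, hmemS t ht.le⟩ : S) ∈ I := AddSubgroup.subset_closure ⟨t, ht, rfl⟩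
    have h2 := Submodule.smul_mem_smul h1 (Submodule.mem_top (x := σ t⁻¹ a))
    have h3 : (⟨σ t, hmemS t ht.le⟩ : S) • (σ t⁻¹ a) = a := by
      change σ t (σ t⁻¹ a) = a
      have : σ t (σ t⁻¹ a) = (σ t * σ t⁻¹) a := rfl
      rw [this, ← map_mul, mul_inv_cancel, map_one]
      rfl
    rwa [h3] at h2
  obtain ⟨r, hr, hr2⟩ := Submodule.exists_sub_one_mem_and_smul_eq_zero_of_fg_of_le_smul I
    (⊤ : Submodule S M) hFG hin
  refine ⟨((1 - r : S) : AddMonoid.End M), ?_, ?_⟩
  · have h1 : (1 - r : S) ∈ I := by
      have := neg_mem hr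
      rwa [neg_sub] at this
    exact h1
  · intro a
    have h1 : r • a = 0 := hr2 a trivial
    have h2 : (1 - r : S) • a = a := by rw [sub_smul, one_smul, h1, sub_zero]
    exact h2

lemma spn_list {c : G → ℝ} {I : Set ℝ} (e : AddMonoid.End M) (he : e ∈ spn σ c I) :
    ∃ lam : List (G × Bool), (∀ p ∈ lam, c p.1 ∈ I) ∧
      ∀ a : M, e a = (lam.map fun p => σ p.1 (if p.2 then a else -a)).sum := by
  induction he using AddSubgroup.closure_induction with
  | mem y hy =>
    obtain ⟨g, hg, rfl⟩ := hy
    exact ⟨[(g, true)], by simpa using hg, by simp⟩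
  | zero => exact ⟨[], by simp, by simp⟩
  | add p q _ _ hp hq =>
    obtain ⟨l1, h1, h1'⟩ := hp
    obtain ⟨l2, h2, h2'⟩ := hq
    refine ⟨l1 ++ l2, ?_, ?_⟩
    · intro p hp
      rcases List.mem_append.mp hp with h | h
      · exact h1 p h
      · exact h2 p h
    · intro a
      rw [List.map_append, List.sum_append, ← h1', ← h2']
      rfl
  | neg p _ hp =>
    obtain ⟨l1, h1, h1'⟩ := hp
    refine ⟨l1.map fun p => (p.1, !p.2), ?_, ?_⟩
    · intro p hp
      rw [List.mem_map] at hp
      obtain ⟨q, hq, rfl⟩ := hp
      exact h1 q hq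
    · intro a
      have h2 : (-p) a = -(p a) := rfl
      rw [h2, h1', List.map_map]
      have h3 : ∀ l : List (G × Bool),
          -(l.map fun p => σ p.1 (if p.2 = true then a else -a)).sum =
          (l.map ((fun p => σ p.1 (if p.2 = true then a else -a)) ∘
            fun p => (p.1, !p.2))).sum := by
        intro l
        induction l with
        | nil => simp
        | cons q l ih =>
          rw [List.map_cons, List.sum_cons, List.map_cons, List.sum_cons, neg_add, ih]
          congr 1
          obtain ⟨g, b⟩ := q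
          cases b <;> simp
      exact h3 l1

end nak

section

variable {G : Type u} [Group G] (x : ℕ → G) {c : G → ℝ}

/-- the signed product of conjugates -/
def gprod (lam : List (G × Bool)) (a : G) : G :=
  (lam.map fun p => MulAut.conj p.1 (if p.2 then a else a⁻¹)).prod

theorem exists_lam_pos (n : ℕ) (hx : ∀ i, n ≤ i → x i = 1)
    (hab : ∀ a ∈ commutator G, ∀ b ∈ commutator G, a * b = b * a)
    (hc : ∀ g h, c (g * h) = c g + c h) (t : G) (ht : 0 < c t) (c0 : ℝ)
    (hA : ∀ a ∈ commutator G, a ∈ AA x (fun g => - c g) (Set.Iic c0)) :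
    ∃ lam : List (G × Bool), (∀ p ∈ lam, 0 < c p.1) ∧
      ∀ a ∈ commutator G, gprod lam a = a := by
  set c' : G → ℝ := fun g => - c g with hc'
  have hc'h : ∀ g h, c' (g * h) = c' g + c' h := by
    intro g h; simp only [hc', hc]; ring
  -- shift to the half-space `c ≥ 0`
  obtain ⟨k, hk⟩ := exists_nat_ge (c0 / c t)
  rw [div_le_iff₀ ht] at hk
  have hA0 : ∀ a ∈ commutator G, a ∈ AA x c' (Set.Iic 0) := by
    intro a ha
    have h1 := hA _ (conj_mem_comm (t ^ k)⁻¹ a ha)
    have h2 := AA_shift x hc'h (J := Set.Iic 0) (t ^ k) (fun r hr => by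
      rw [Set.mem_Iic] at hr ⊢
      rw [c_pow hc'h]
      simp only [hc']
      linarith) _ h1
    rwa [← MulAut.mul_apply, ← map_mul, mul_inv_cancel, map_one, MulAut.one_apply] at h2
  let cg : CommGroup (commutator G) :=
    { (inferInstance : Group (commutator G)) with
      mul_comm := fun a b => Subtype.ext (hab a a.2 b b.2) }
  let σ0 : G → AddMonoid.End (Additive (commutator G)) := fun g =>
    { toFun := fun a => Additive.ofMul
        (⟨MulAut.conj g (Additive.toMul a : commutator G), conj_mem_comm g _
          (Additive.toMul a).2⟩ : commutator G)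
      map_zero' := by
        apply Additive.toMul.injective
        apply Subtype.ext
        exact map_one (MulAut.conj g)
      map_add' := fun a b => by
        apply Additive.toMul.injective
        apply Subtype.ext
        exact map_mul (MulAut.conj g) _ _ }
  let σ : G →* AddMonoid.End (Additive (commutator G)) :=
    { toFun := σ0
      map_one' := by
        apply AddMonoidHom.ext
        intro a
        apply Additive.toMul.injective
        apply Subtype.ext
        change MulAut.conj 1 _ = _
        rw [map_one]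
        rfl
      map_mul' := fun g h => by
        apply AddMonoidHom.ext
        intro a
        apply Additive.toMul.injective
        apply Subtype.ext
        change MulAut.conj (g * h) _ = _
        rw [map_mul]
        rfl }
  have hσ : ∀ (g : G) (a : commutator G),
      σ g (Additive.ofMul a) =
        Additive.ofMul (⟨MulAut.conj g (a : G), conj_mem_comm g a a.2⟩ : commutator G) := by
    intro g a
    rfl
  have hcomm : ∀ g h, σ g * σ h = σ h * σ g := by
    intro g h
    rw [← map_mul, ← map_mul]
    apply AddMonoidHom.ext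
    intro a
    obtain ⟨a, rfl⟩ := Additive.ofMul.surjective a
    apply Additive.toMul.injective
    apply Subtype.ext
    change MulAut.conj (g * h) (a : G) = MulAut.conj (h * g) (a : G)
    apply conj_trivial hab _ _ _ _ a.2
    have : g * h * (h * g)⁻¹ = ⁅g, h⁆ := by
      simp only [commutatorElement_def]; group
    rw [this]
    exact Subgroup.commutator_mem_commutator (Subgroup.mem_top _) (Subgroup.mem_top _)
  classical
  -- the finite generating set
  let L : Finset (ℕ × Bool) := (Finset.range (n + 1)) ×ˢ Finset.univ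
  let T : Finset (Additive (commutator G)) :=
    (L ×ˢ L).image fun q => Additive.ofMul ⟨cm x q.1 q.2, cm_mem x q.1 q.2⟩
  have hTmem : ∀ l l' : ℕ × Bool, Additive.ofMul (⟨cm x l l', cm_mem x l l'⟩ : commutator G) ∈ T := by
    have red : ∀ l : ℕ × Bool, ∃ m ∈ L, lt x m = lt x l := by
      intro l
      by_cases hl : l.1 < n
      · exact ⟨l, by simp [L]; omega, rfl⟩
      · refine ⟨(n, true), by simp [L], ?_⟩
        obtain ⟨i, b⟩ := l
        have h1 : x i = 1 := hx i (by simpa using hl)
        have h2 : x n = 1 := hx n le_rfl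
        cases b <;> simp [lt, h1, h2]
    intro l l'
    obtain ⟨m, hm, hm'⟩ := red l
    obtain ⟨m', hm1, hm1'⟩ := red l'
    have h1 : cm x l l' = cm x m m' := by simp only [cm, hm', hm1']
    rw [Finset.mem_image]
    exact ⟨(m, m'), Finset.mem_product.mpr ⟨hm, hm1⟩, by simp only [h1]⟩
  have hT : ∀ a : Additive (commutator G),
      a ∈ AddSubgroup.closure {b | ∃ h, ∃ τ ∈ T, 0 ≤ c h ∧ b = σ h τ} := by
    intro a
    obtain ⟨⟨a, ha⟩, rfl⟩ := Additive.ofMul.surjective a
    have h1 := hA0 a ha
    have key : ∀ a, a ∈ AA x c' (Set.Iic 0) → ∀ ha : a ∈ commutator G,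
        (Additive.ofMul (⟨a, ha⟩ : commutator G)) ∈
          AddSubgroup.closure {b | ∃ h, ∃ τ ∈ T, 0 ≤ c h ∧ b = σ h τ} := by
      intro a ha0
      have hAA : ∀ y, y ∈ AA x c' (Set.Iic 0) → y ∈ commutator G := by
        intro y hy
        induction hy using Subgroup.closure_induction with
        | mem z hz =>
          obtain ⟨h, l, l', _, rfl⟩ := hz
          exact conj_mem_comm _ _ (cm_mem x l l')
        | one => exact one_mem _
        | mul a b _ _ ha hb => exact mul_mem ha hb
        | inv a _ ha => exact inv_mem ha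
      induction ha0 using Subgroup.closure_induction with
      | mem y hy =>
        intro ha
        obtain ⟨h, l, l', hh, rfl⟩ := hy
        apply AddSubgroup.subset_closure
        refine ⟨h, _, hTmem l l', ?_, rfl⟩
        simp only [hc', Set.mem_Iic] at hh
        linarith
      | one =>
        intro ha
        exact zero_mem _
      | mul p q hp hq ihp ihq =>
        intro ha
        have e : Additive.ofMul (⟨p * q, ha⟩ : commutator G) =
            Additive.ofMul (⟨p, hAA p hp⟩ : commutator G) +
              Additive.ofMul (⟨q, hAA q hq⟩ : commutator G) := rfl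
        rw [e]
        exact add_mem (ihp _) (ihq _)
      | inv p hp ihp =>
        intro ha
        have e : Additive.ofMul (⟨p⁻¹, ha⟩ : commutator G) =
            - Additive.ofMul (⟨p, hAA p hp⟩ : commutator G) := rfl
        rw [e]
        exact neg_mem (ihp _)
    exact key a h1 ha
  obtain ⟨e, he, he2⟩ := nak σ hcomm hc T hT t ht
  obtain ⟨lam, hlam, hlam2⟩ := spn_list σ e he
  refine ⟨lam, hlam, ?_⟩
  intro a ha
  have h1 := hlam2 (Additive.ofMul (⟨a, ha⟩ : commutator G))
  rw [he2] at h1
  have key : ∀ l : List (G × Bool), ((Additive.toMul ((l.map fun p => σ p.1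
      (if p.2 then Additive.ofMul (⟨a, ha⟩ : commutator G) else
        -Additive.ofMul (⟨a, ha⟩ : commutator G))).sum) : commutator G) : G) = gprod l a := by
    intro l
    induction l with
    | nil => rfl
    | cons p l ih =>
      rw [List.map_cons, List.sum_cons, toMul_add, Subgroup.coe_mul, ih]
      have e : gprod (p :: l) a = MulAut.conj p.1 (if p.2 then a else a⁻¹) * gprod l a := by
        simp [gprod]
      rw [e]
      congr 1
      obtain ⟨g, b⟩ := p
      cases b
      · simp only [Bool.false_eq_true, if_false]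
        rfl
      · simp only [if_true]
        rfl
  rw [← key lam, ← h1]
  rfl

end

end Pool.Agent.Helper740
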