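import Pool.Agent.Helper740.Words

/-! Finitely many relations force a group to be metabelian (the easy half of Bieri-Strebel). -/

namespace Pool.Agent.Helper740

open scoped commutatorElement

section

variable {G : Type*} [Group G] (x : ℕ → G) (n : ℕ)

/-- canonical element -/
def xp (p : ℕ → ℤ) (k : ℕ) : G := ev x (cw p k)

lemma lt_pow_natAbs (k : ℕ) (z : ℤ) : lt x (k, decide (0 ≤ z)) ^ z.natAbs = x k ^ z := by
  by_cases h : 0 ≤ z
  · obtain ⟨m, rfl⟩ := Int.eq_ofNat_of_zero_le h
    simp [lt]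
  · have h2 : z = -(z.natAbs : ℤ) := by omega
    have h3 : lt x (k, decide (0 ≤ z)) = (x k)⁻¹ := by simp [lt, h]
    rw [h3]
    conv_rhs => rw [h2]
    rw [zpow_neg, zpow_natCast, inv_pow]

lemma lt_pow (k m : ℕ) (b : Bool) : lt x (k, b) ^ m = x k ^ ((m : ℤ) * sgn b) := by
  cases b <;> simp [lt, sgn]

lemma xp_zero (p : ℕ → ℤ) : xp x p 0 = 1 := rfl

lemma xp_succ (p : ℕ → ℤ) (k : ℕ) : xp x p (k + 1) = xp x p k * x k ^ (p k) := by
  rw [xp, cw, ev_append, ev_replicate, lt_pow_natAbs]; rfl

lemma xp_congr (p q : ℕ → ℤ) (k : ℕ) (h : ∀ i < k, p i = q i) : xp x p k = xp x q k := by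
  induction k with
  | zero => rfl
  | succ k ih =>
    rw [xp_succ, xp_succ, ih (fun i hi => h i (by omega)), h k (by omega)]

lemma xp_zero_beyond (p : ℕ → ℤ) (k m : ℕ) (hkm : k ≤ m) (h : ∀ i, k ≤ i → p i = 0) :
    xp x p m = xp x p k := by
  induction m, hkm using Nat.le_induction with
  | base => rfl
  | succ m hm ih => rw [xp_succ, ih, h m hm, zpow_zero, mul_one]

/-- the subgroup generated by the conjugates of commutators of letters by short canonical
elements -/
def EE (N : ℤ) : Subgroup G :=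
  Subgroup.closure {g | ∃ (p : ℕ → ℤ) (l l' : ℕ × Bool), nsq n p < N ∧
    g = MulAut.conj (xp x p n) (cm x l l')}

lemma mem_EE {N : ℤ} (p : ℕ → ℤ) (l l' : ℕ × Bool) (h : nsq n p < N) :
    MulAut.conj (xp x p n) (cm x l l') ∈ EE x n N :=
  Subgroup.subset_closure ⟨p, l, l', h, rfl⟩

lemma aux_pow (N : ℤ) (p : ℕ → ℤ) (hp : nsq n p < N) (k : ℕ) (hk : k < n) (b : Bool)
    (z : ℕ × Bool) (m : ℕ) (hm : m ≤ (p k).natAbs) :
    MulAut.conj (xp x p k) ⁅lt x (k, b) ^ m, lt x z⁆ ∈ EE x n N := by
  induction m with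
  | zero => simp
  | succ m ih =>
    have h1 : ⁅lt x (k, b) ^ (m + 1), lt x z⁆ =
        (lt x (k, b) ^ m * ⁅lt x (k, b), lt x z⁆ * (lt x (k, b) ^ m)⁻¹) *
          ⁅lt x (k, b) ^ m, lt x z⁆ := by
      simp only [commutatorElement_def, pow_succ]
      group
    rw [h1, map_mul]
    refine mul_mem ?_ (ih (by omega))
    have h2 : MulAut.conj (xp x p k)
        (lt x (k, b) ^ m * ⁅lt x (k, b), lt x z⁆ * (lt x (k, b) ^ m)⁻¹) =
        MulAut.conj (xp x p k * lt x (k, b) ^ m) (cm x (k, b) z) := by
      simp only [MulAut.conj_apply, cm]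
      group
    rw [h2]
    set t : ℕ → ℤ := fun j => if j < k then p j else if j = k then (m : ℤ) * sgn b else 0 with ht
    have h3 : xp x p k * lt x (k, b) ^ m = xp x t n := by
      rw [xp_zero_beyond x t (k + 1) n (by omega) (fun i hi => by
        simp only [ht]; rw [if_neg (by omega), if_neg (by omega)]), xp_succ, lt_pow]
      have h4 : t k = (m : ℤ) * sgn b := by simp [ht]
      rw [h4, xp_congr x p t k (fun i hi => by simp [ht, hi])]
    rw [h3]
    apply mem_EE
    refine lt_of_le_of_lt (nsq_mono n t p ?_) hp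
    intro j hj
    simp only [ht]
    split_ifs with h5 h6
    · exact le_rfl
    · subst h6
      rw [abs_mul, abs_sgn, mul_one, Nat.abs_cast, Int.abs_eq_natAbs]
      omega
    · simp

lemma move (hx : ∀ i, n ≤ i → x i = 1) (N : ℤ) (p : ℕ → ℤ) (hp : nsq n p < N) (z : ℕ × Bool) :
    ∃ d ∈ EE x n N, xp x p n * lt x z =
      d * xp x (fun i => p i + if z.1 = i then sgn z.2 else 0) n := by
  by_cases hz : n ≤ z.1
  · refine ⟨1, one_mem _, ?_⟩
    have h1 : lt x z = 1 := by simp [lt, hx z.1 hz]
    rw [h1, mul_one, one_mul]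
    apply xp_congr
    intro i hi
    rw [if_neg (by omega), add_zero]
  · push Not at hz
    set p' : ℕ → ℤ := fun i => p i + if z.1 = i then sgn z.2 else 0 with hp'
    have claim : ∀ k, z.1 + 1 ≤ k → k ≤ n → ∃ d ∈ EE x n N, xp x p k * lt x z =
        d * xp x p' k := by
      intro k hk
      induction k, hk using Nat.le_induction with
      | base =>
        intro _
        refine ⟨1, one_mem _, ?_⟩
        rw [one_mul, xp_succ, xp_succ, mul_assoc]
        have h1 : xp x p z.1 = xp x p' z.1 := by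
          apply xp_congr
          intro i hi
          simp only [hp']
          rw [if_neg (by omega), add_zero]
        have h2 : p' z.1 = p z.1 + sgn z.2 := by simp [hp']
        have h3 : lt x z = x z.1 ^ sgn z.2 := by
          obtain ⟨i, b⟩ := z
          cases b <;> simp [lt, sgn]
        rw [h1, h2, h3, zpow_add]
      | succ k hk ih =>
        intro hkn
        obtain ⟨d, hd, hd2⟩ := ih (by omega)
        have he := aux_pow x n N p hp k (by omega) (decide (0 ≤ p k)) z (p k).natAbs le_rfl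
        rw [lt_pow_natAbs] at he
        refine ⟨_, mul_mem he hd, ?_⟩
        rw [xp_succ, xp_succ]
        have h1 : p' k = p k := by
          simp only [hp']
          rw [if_neg (by omega), add_zero]
        rw [h1]
        calc xp x p k * x k ^ p k * lt x z
            = (MulAut.conj (xp x p k) ⁅x k ^ p k, lt x z⁆) * (xp x p k * lt x z) *
                x k ^ p k := by
              simp only [MulAut.conj_apply, commutatorElement_def]
              group
          _ = (MulAut.conj (xp x p k) ⁅x k ^ p k, lt x z⁆) * d * (xp x p' k * x k ^ p k) := by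
              rw [hd2]; group
    exact claim n (by omega) le_rfl

/-- all proper prefixes of the word stay in the ball -/
def Good (N : ℤ) (w : Wd) : Prop := ∀ u v : Wd, w = u ++ v → v ≠ [] → nsq n (pos u) < N

lemma ev_good (hx : ∀ i, n ≤ i → x i = 1) (N : ℤ) (w : Wd) (hw : Good n N w) :
    ∃ d ∈ EE x n N, ev x w = d * xp x (pos w) n := by
  induction w using List.reverseRecOn with
  | nil =>
    refine ⟨1, one_mem _, ?_⟩
    rw [xp_zero_beyond x (pos []) 0 n (by omega) (fun i _ => pos_nil i), xp_zero]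
    simp [ev]
  | append_singleton u z ih =>
    obtain ⟨d, hd, hd2⟩ := ih (fun a b hab hb => hw a (b ++ [z]) (by rw [hab]; simp) (by simp))
    obtain ⟨e, he, he2⟩ := move x n hx N (pos u) (hw u [z] rfl (by simp)) z
    refine ⟨d * e, mul_mem hd he, ?_⟩
    rw [ev_append, ev_singleton, hd2, mul_assoc, he2, ← mul_assoc]
    congr 1
    apply xp_congr
    intro i _
    rw [pos_append, pos_cons, pos_nil, add_zero]

/-- the commutation hypothesis for the ball -/
def CC (N : ℤ) : Prop := ∀ p : ℕ → ℤ, nsq n p < N → ∀ l l' m m' : ℕ × Bool,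
  Commute (cm x l l') (MulAut.conj (xp x p n) (cm x m m'))

lemma comm_EE {N : ℤ} (hC : CC x n N) (l l' : ℕ × Bool) (e : G) (he : e ∈ EE x n N) :
    Commute (cm x l l') e := by
  induction he using Subgroup.closure_induction with
  | mem y hy =>
    obtain ⟨p, m, m', hp, rfl⟩ := hy
    exact hC p hp l l' m m'
  | one => exact Commute.one_right _
  | mul a b _ _ ha hb => exact ha.mul_right hb
  | inv a _ ha => exact ha.inv_right

lemma good_iff (hx : ∀ i, n ≤ i → x i = 1) {N : ℤ} (hC : CC x n N) (w : Wd) (hw : Good n N w)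
    (l l' m m' : ℕ × Bool) :
    Commute (cm x l l') (MulAut.conj (ev x w) (cm x m m')) ↔
      Commute (cm x l l') (MulAut.conj (xp x (pos w) n) (cm x m m')) := by
  obtain ⟨d, hd, hd2⟩ := ev_good x n hx N w hw
  have h1 := comm_EE x n hC l l' d hd
  have h2 : MulAut.conj (ev x w) (cm x m m') =
      d * MulAut.conj (xp x (pos w) n) (cm x m m') * d⁻¹ := by
    rw [hd2]
    simp only [MulAut.conj_apply]
    group
  constructor
  · intro h
    have h3 : MulAut.conj (xp x (pos w) n) (cm x m m') =
        d⁻¹ * MulAut.conj (ev x w) (cm x m m') * d := by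
      rw [h2]; group
    rw [h3]
    exact (h1.inv_right.mul_right h).mul_right h1
  · intro h
    rw [h2]
    exact (h1.mul_right h).mul_right h1.inv_right

lemma good_comm (hx : ∀ i, n ≤ i → x i = 1) {N : ℤ} (hC : CC x n N) (w : Wd) (hw : Good n N w)
    (hend : nsq n (pos w) < N) (l l' m m' : ℕ × Bool) :
    Commute (cm x l l') (MulAut.conj (ev x w) (cm x m m')) :=
  (good_iff x n hx hC w hw l l' m m').mpr (hC _ hend l l' m m')

lemma inv_append (u v : Wd) : inv (u ++ v) = inv v ++ inv u := by simp [inv]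

lemma inv_inv' (u : Wd) : inv (inv u) = u := by
  simp [inv, Function.comp_def]

/-- positions along the inverse of a canonical word -/
lemma prefix_inv_cw (p : ℕ → ℤ) (u : Wd) (hu : u <+: inv (cw p n)) (i : ℕ) (hi : i < n) :
    |pos u i| ≤ |p i| := by
  obtain ⟨v, hv⟩ := hu
  have h1 : cw p n = inv v ++ inv u := by
    rw [← inv_append, hv, inv_inv']
  have h2 := prefix_cw p n (inv v) ⟨inv u, h1.symm⟩ i hi
  have h3 : pos (cw p n) i = p i := by rw [pos_cw, if_pos hi]
  rw [h1, pos_append, pos_inv, pos_inv] at h3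
  rw [pos_inv] at h2
  have h4 : pos u i = -(p i) - pos v i := by omega
  rw [h4]
  rcases h2 with ⟨ha, hb⟩ | ⟨ha, hb⟩
  · rw [abs_of_nonneg (by omega : 0 ≤ p i), abs_of_nonpos (by omega)]; omega
  · rw [abs_of_nonpos (by omega : p i ≤ 0), abs_of_nonneg (by omega)]; omega

lemma nsq_congr (p q : ℕ → ℤ) (h : ∀ i < n, p i = q i) : nsq n p = nsq n q := by
  apply Finset.sum_congr rfl
  intro i hi
  rw [h i (Finset.mem_range.mp hi)]

lemma cross (hx : ∀ i, n ≤ i → x i = 1) {N : ℤ} (hC : CC x n N) (p r : ℕ → ℤ) (K : ℤ)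
    (hp : nsq n p ≤ K) (hr : nsq n r ≤ K) (hK : 4 * K < N) (l l' m m' : ℕ × Bool) :
    Commute (MulAut.conj (xp x p n) (cm x l l')) (MulAut.conj (xp x r n) (cm x m m')) := by
  have hK0 : 0 ≤ K := (nsq_nonneg n p).trans hp
  have bound : ∀ v : Wd, v <+: cw r n → nsq n (pos (inv (cw p n) ++ v)) < N := by
    intro v hv
    have h1 : nsq n (pos (inv (cw p n) ++ v)) = nsq n (fun i => -p i + pos v i) := by
      apply nsq_congr
      intro i hi
      rw [pos_append, pos_inv, pos_cw, if_pos hi]
    rw [h1]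
    have h2 := nsq_add_le n (fun i => -p i) (pos v)
    have h3 : nsq n (fun i => -p i) = nsq n p := by simp [nsq]
    have h4 : nsq n (pos v) ≤ nsq n r :=
      nsq_mono n _ _ (fun i hi => (prefix_cw r n v hv i hi).abs_le)
    linarith
  have hgood : Good n N (inv (cw p n) ++ cw r n) := by
    intro u v huv _
    rcases prefix_append_cases (u := u) ⟨v, huv.symm⟩ with h | ⟨v', rfl, hv'⟩
    · have h1 : nsq n (pos u) ≤ nsq n p :=
        nsq_mono n _ _ (fun i hi => prefix_inv_cw n p u h i hi)
      linarith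
    · exact bound v' hv'
  have h1 := good_comm x n hx hC _ hgood (bound _ (List.prefix_refl _)) l l' m m'
  rw [ev_append, ev_inv] at h1
  have h2 := h1.map (MulAut.conj (xp x p n))
  have h3 : MulAut.conj (xp x p n) (MulAut.conj ((ev x (cw p n))⁻¹ * ev x (cw r n)) (cm x m m')) =
      MulAut.conj (xp x r n) (cm x m m') := by
    simp only [MulAut.conj_apply, xp]
    group
  rwa [h3] at h2

lemma exact_conj (hx : ∀ i, n ≤ i → x i = 1) {N : ℤ} (hC : CC x n N) (w : Wd) (K : ℤ)
    (hw : Good n (K + 1) w) (hend : nsq n (pos w) ≤ K) (hK : 4 * K < N) (m m' : ℕ × Bool) :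
    MulAut.conj (ev x w) (cm x m m') = MulAut.conj (xp x (pos w) n) (cm x m m') := by
  obtain ⟨d, hd, hd2⟩ := ev_good x n hx (K + 1) w hw
  have h0 : ∀ e ∈ EE x n (K + 1), Commute e (MulAut.conj (xp x (pos w) n) (cm x m m')) := by
    intro e he
    induction he using Subgroup.closure_induction with
    | mem y hy =>
      obtain ⟨p, l, l', hp, rfl⟩ := hy
      exact cross x n hx hC p (pos w) K (by omega) hend hK l l' m m'
    | one => exact Commute.one_left _
    | mul a b _ _ ha hb => exact ha.mul_left hb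
    | inv a _ ha => exact ha.inv_left
  have h1 := h0 d hd
  rw [hd2]
  have h2 : MulAut.conj (d * xp x (pos w) n) (cm x m m') =
      d * MulAut.conj (xp x (pos w) n) (cm x m m') * d⁻¹ := by
    simp only [MulAut.conj_apply]
    group
  rw [h2, h1.eq]
  group

lemma relprod_conj (lam : List (Wd × Bool)) (g b : G) :
    MulAut.conj g (relprod x lam b) =
      (lam.map fun t => MulAut.conj (g * ev x t.1) (if t.2 then b else b⁻¹)).prod := by
  rw [relprod, map_list_prod, List.map_map]
  congr 1
  apply List.map_congr_left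
  intro t _
  simp only [Function.comp_apply, map_mul, MulAut.mul_apply]

lemma commute_list_prod {M : Type*} [Monoid M] (a : M) (L : List M) (h : ∀ b ∈ L, Commute a b) :
    Commute a L.prod := by
  induction L with
  | nil => simp
  | cons b L ih =>
    rw [List.prod_cons]
    exact (h b (by simp)).mul_right (ih fun c hc => h c (by simp [hc]))

lemma btw_tdiv (z : ℤ) : Btw (z.tdiv 4) z ∧ Btw (z - z.tdiv 4) z := by
  rcases le_total 0 z with h | h
  · rw [Int.tdiv_eq_ediv_of_nonneg h]
    constructor <;> left <;> omega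
  · obtain ⟨w, rfl⟩ : ∃ w, z = -w := ⟨-z, by ring⟩
    rw [Int.neg_tdiv, Int.tdiv_eq_ediv_of_nonneg (by omega)]
    constructor <;> right <;> omega

lemma abs_tdiv (z : ℤ) : 4 * |z.tdiv 4| ≤ |z| ∧ |z| ≤ 4 * |z.tdiv 4| + 3 ∧
    |z - z.tdiv 4| = |z| - |z.tdiv 4| := by
  rcases le_total 0 z with h | h
  · rw [Int.tdiv_eq_ediv_of_nonneg h, abs_of_nonneg h, abs_of_nonneg (by omega : 0 ≤ z / 4),
      abs_of_nonneg (by omega)]
    refine ⟨?_, ?_, ?_⟩ <;> omega
  · obtain ⟨w, rfl⟩ : ∃ w, z = -w := ⟨-z, by ring⟩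
    rw [Int.neg_tdiv, Int.tdiv_eq_ediv_of_nonneg (by omega), abs_neg, abs_neg,
      abs_of_nonneg (by omega : 0 ≤ w), abs_of_nonneg (by omega : 0 ≤ w / 4),
      abs_of_nonpos (by omega)]
    refine ⟨?_, ?_, ?_⟩ <;> omega

/-- `q - q.tdiv 4` and then any value between `0` and `q.tdiv 4 + s` -/
lemma max_bound (q s v : ℤ) (S : ℤ) (hs : |s| ≤ S) (hv : Btw v (q.tdiv 4 + s)) :
    (q - q.tdiv 4 + v) ^ 2 ≤ (q + s) ^ 2 + (4 * S + 3) ^ 2 := by
  obtain ⟨h1, h2, h3⟩ := abs_tdiv q
  have hS : 0 ≤ S := (abs_nonneg s).trans hs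
  -- the value lies between `q1` and `q + s`
  have h4 : |q - q.tdiv 4 + v| ≤ max |q - q.tdiv 4| |q + s| := by
    rcases hv with ⟨ha, hb⟩ | ⟨ha, hb⟩
    · rw [abs_le]
      constructor
      · have := neg_abs_le (q - q.tdiv 4)
        have := le_max_left |q - q.tdiv 4| |q + s|
        omega
      · have := le_abs_self (q + s)
        have := le_max_right |q - q.tdiv 4| |q + s|
        omega
    · rw [abs_le]
      constructor
      · have := neg_abs_le (q + s)
        have := le_max_right |q - q.tdiv 4| |q + s|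
        omega
      · have := le_abs_self (q - q.tdiv 4)
        have := le_max_left |q - q.tdiv 4| |q + s|
        omega
  have h5 : |q| - S ≤ |q + s| := by
    have := abs_sub_abs_le_abs_sub q (-s)
    rw [abs_neg, sub_neg_eq_add] at this
    omega
  rcases le_total |q - q.tdiv 4| |q + s| with h | h
  · rw [max_eq_right h] at h4
    have := sq_le_sq.mpr h4
    nlinarith [sq_nonneg (4 * S + 3)]
  · rw [max_eq_left h] at h4
    have h6 := sq_le_sq.mpr h4
    have h7 : |q| ≤ 4 * S + 3 := by omega
    have h8 : |q - q.tdiv 4| ≤ 4 * S + 3 := by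
      have := abs_nonneg (q.tdiv 4)
      omega
    have h9 : (q - q.tdiv 4) ^ 2 ≤ (4 * S + 3) ^ 2 := by
      rw [← sq_abs (q - q.tdiv 4)]
      exact pow_le_pow_left₀ (abs_nonneg _) h8 2
    nlinarith [sq_nonneg (q + s)]

lemma step (hx : ∀ i, n ≤ i → x i = 1) {N : ℤ} (hC : CC x n N) (q : ℕ → ℤ) (hq : nsq n q = N)
    (S : ℕ) (lam : List (Wd × Bool)) (hlen : ∀ t ∈ lam, t.1.length ≤ S)
    (hrel : ∀ m m', relprod x lam (cm x m m') = cm x m m')
    (hbig : 16 * (S : ℤ) ^ 2 < N)
    (hneg : ∀ t ∈ lam, 2 * ∑ i ∈ Finset.range n, q i * pos t.1 i + (S : ℤ) ^ 2 +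
      n * (4 * (S : ℤ) + 3) ^ 2 < 0)
    (hq4 : ∃ i < n, 4 ≤ |q i|) (l l' m m' : ℕ × Bool) :
    Commute (cm x l l') (MulAut.conj (xp x q n) (cm x m m')) := by
  set q2 : ℕ → ℤ := fun i => (q i).tdiv 4 with hq2
  set q1 : ℕ → ℤ := fun i => q i - (q i).tdiv 4 with hq1
  -- first reduction
  set W : Wd := cw q1 n ++ cw q2 n with hW
  have hposW : ∀ i < n, pos W i = q i := by
    intro i hi
    rw [hW, pos_append, pos_cw, pos_cw, if_pos hi, if_pos hi]
    simp [hq1, hq2]
  have hlenW : (W.length : ℤ) = ∑ i ∈ Finset.range n, |q i| := by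
    rw [hW, List.length_append]
    push_cast
    rw [length_cw, length_cw, ← Finset.sum_add_distrib]
    apply Finset.sum_congr rfl
    intro i _
    have := (abs_tdiv (q i)).2.2
    simp only [hq1, hq2]
    omega
  have hgoodW : Good n N W := by
    intro u v huv hv
    rw [← hq]
    have hb : ∀ i < n, |pos u i| ≤ |q i| := by
      intro i hi
      rcases prefix_append_cases (u := u) ⟨v, huv.symm⟩ with h | ⟨v', rfl, hv'⟩
      · have h1 := (prefix_cw q1 n u h i hi).abs_le
        have h2 := (btw_tdiv (q i)).2.abs_le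
        exact h1.trans h2
      · rw [pos_append, pos_cw, if_pos hi]
        have h1 := prefix_cw q2 n v' hv' i hi
        have h2 := btw_tdiv (q i)
        simp only [hq1, hq2] at h1 ⊢
        have h3 : Btw (q i - (q i).tdiv 4 + pos v' i) (q i) := by
          rcases h2 with ⟨h2, h2'⟩
          unfold Btw at *
          omega
        exact h3.abs_le
    apply nsq_lt n _ _ hb
    by_contra hcon
    push Not at hcon
    have h1 : ∑ i ∈ Finset.range n, |q i| ≤ ∑ i ∈ Finset.range n, |pos u i| :=
      Finset.sum_le_sum fun i hi => hcon i (Finset.mem_range.mp hi)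
    have h2 := sum_abs_pos_le u n
    have h3 : (u.length : ℤ) < W.length := by
      rw [huv, List.length_append]
      have := List.length_pos_of_ne_nil hv
      push_cast
      omega
    linarith
  have key := (good_iff x n hx hC W hgoodW l l' m m')
  have h0 : xp x (pos W) n = xp x q n := xp_congr x _ _ n hposW
  rw [h0] at key
  rw [← key]
  -- expand the relation
  rw [← hrel m m', relprod_conj]
  apply commute_list_prod
  intro b hb
  rw [List.mem_map] at hb
  obtain ⟨t, ht, rfl⟩ := hb
  have htl : (t.1.length : ℤ) ≤ S := by exact_mod_cast hlen t ht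
  have hN0 : 0 ≤ nsq n q2 := nsq_nonneg n q2
  have hq2n : 16 * nsq n q2 ≤ N := by
    rw [← hq]
    unfold nsq
    rw [Finset.mul_sum]
    apply Finset.sum_le_sum
    intro i _
    have h1 := (abs_tdiv (q i)).1
    simp only [hq2]
    have h2 : (4 * |(q i).tdiv 4|) ^ 2 ≤ |q i| ^ 2 :=
      pow_le_pow_left₀ (by positivity) h1 2
    rw [sq_abs, mul_pow, sq_abs] at h2
    linarith
  set K : ℤ := 2 * nsq n q2 + 2 * (S : ℤ) ^ 2 with hK
  have hK4 : 4 * K < N := by rw [hK]; linarith
  have hlS : ∀ v : Wd, v <+: t.1 → nsq n (pos v) ≤ (S : ℤ) ^ 2 := by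
    intro v hv
    refine (nsq_pos_le n v).trans ?_
    apply pow_le_pow_left₀ (by positivity)
    have : v.length ≤ t.1.length := hv.length_le
    omega
  have hbd : ∀ v : Wd, v <+: t.1 → nsq n (pos (cw q2 n ++ v)) ≤ K := by
    intro v hv
    have h1 : nsq n (pos (cw q2 n ++ v)) = nsq n (fun i => q2 i + pos v i) := by
      apply nsq_congr
      intro i hi
      rw [pos_append, pos_cw, if_pos hi]
    rw [h1]
    have h2 := nsq_add_le n q2 (pos v)
    have h3 := hlS v hv
    rw [hK]; linarith
  have hgood2 : Good n (K + 1) (cw q2 n ++ t.1) := by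
    intro u v huv _
    rcases prefix_append_cases (u := u) ⟨v, huv.symm⟩ with h | ⟨v', rfl, hv'⟩
    · have h1 : nsq n (pos u) ≤ nsq n q2 :=
        nsq_mono n _ _ (fun i hi => (prefix_cw q2 n u h i hi).abs_le)
      have h2 : 0 ≤ (S : ℤ) ^ 2 := sq_nonneg _
      rw [hK]; linarith
    · have := hbd v' hv'
      omega
  set r : ℕ → ℤ := pos (cw q2 n ++ t.1) with hr
  have hri : ∀ i < n, r i = (q i).tdiv 4 + pos t.1 i := by
    intro i hi
    rw [hr, pos_append, pos_cw, if_pos hi]
  have hex := exact_conj x n hx hC (cw q2 n ++ t.1) K hgood2 (hbd _ (List.prefix_refl _)) hK4 m m'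
  rw [← hr] at hex
  -- the long word
  have hlast : ∀ v' : Wd, v' <+: cw r n → nsq n (pos (cw q1 n ++ v')) < N := by
    intro v' hv'
    have h1 : nsq n (pos (cw q1 n ++ v')) ≤
        ∑ i ∈ Finset.range n, ((q i + pos t.1 i) ^ 2 + (4 * (S : ℤ) + 3) ^ 2) := by
      unfold nsq
      apply Finset.sum_le_sum
      intro i hi
      have hi' := Finset.mem_range.mp hi
      rw [pos_append, pos_cw, if_pos hi']
      have h2 := prefix_cw r n v' hv' i hi'
      rw [hri i hi'] at h2
      have h3 : |pos t.1 i| ≤ (S : ℤ) := (abs_pos_le t.1 i).trans htl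
      exact max_bound (q i) (pos t.1 i) (pos v' i) S h3 h2
    have h2 : ∑ i ∈ Finset.range n, ((q i + pos t.1 i) ^ 2 + (4 * (S : ℤ) + 3) ^ 2) =
        nsq n q + 2 * ∑ i ∈ Finset.range n, q i * pos t.1 i + nsq n (pos t.1) +
          n * (4 * (S : ℤ) + 3) ^ 2 := by
      unfold nsq
      rw [Finset.sum_add_distrib, Finset.sum_const, Finset.card_range, Finset.mul_sum,
        ← Finset.sum_add_distrib, ← Finset.sum_add_distrib]
      congr 1
      · apply Finset.sum_congr rfl
        intro i _
        ring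
    have h3 := hneg t ht
    have h4 := hlS t.1 (List.prefix_refl _)
    linarith
  have hgood3 : Good n N (cw q1 n ++ cw r n) := by
    intro u v huv _
    rcases prefix_append_cases (u := u) ⟨v, huv.symm⟩ with h | ⟨v', rfl, hv'⟩
    · have h1 : nsq n (pos u) ≤ nsq n q1 :=
        nsq_mono n _ _ (fun i hi => (prefix_cw q1 n u h i hi).abs_le)
      have h2 : nsq n q1 < nsq n q := by
        apply nsq_lt
        · intro i _
          have := abs_tdiv (q i)
          have h5 := abs_nonneg ((q i).tdiv 4)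
          simp only [hq1]
          omega
        · obtain ⟨i, hi, h4⟩ := hq4
          refine ⟨i, hi, ?_⟩
          have := abs_tdiv (q i)
          simp only [hq1]
          omega
      linarith
    · exact hlast v' hv'
  have hfin := good_comm x n hx hC _ hgood3 (hlast _ (List.prefix_refl _)) l l' m m'
  have h5 : MulAut.conj (ev x W * ev x t.1) (cm x m m') =
      MulAut.conj (ev x (cw q1 n ++ cw r n)) (cm x m m') := by
    have e1 : ev x W * ev x t.1 = ev x (cw q1 n) * ev x (cw q2 n ++ t.1) := by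
      rw [hW, ev_append, ev_append, mul_assoc]
    rw [e1, map_mul, MulAut.mul_apply, hex, ev_append, map_mul, MulAut.mul_apply]
    rfl
  split_ifs
  · rw [h5]; exact hfin
  · rw [map_inv, h5]; exact hfin.inv_right

end

end Pool.Agent.Helper740
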