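import Pool.Agent.Helper740.TameB

/-! The sufficiency theorem: a certificate forces a group to be metabelian. -/

namespace Pool.Agent.Helper740

open scoped commutatorElement

lemma scale_aux (r M z : ℤ) (hr : 0 < r) (hM : 0 ≤ M) (hz : |z| ≤ r) :
    |(M * z).tdiv r| ≤ M ∧ |M * z - r * (M * z).tdiv r| ≤ r ∧ (|z| = r → |(M * z).tdiv r| = M) := by
  have main : ∀ w : ℤ, 0 ≤ w → w ≤ r → 0 ≤ (M * w) / r ∧ (M * w) / r ≤ M ∧
      0 ≤ M * w - r * ((M * w) / r) ∧ M * w - r * ((M * w) / r) ≤ r ∧
      (w = r → (M * w) / r = M) := by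
    intro w hw hwr
    have h1 : 0 ≤ M * w := mul_nonneg hM hw
    refine ⟨Int.ediv_nonneg h1 hr.le, ?_, ?_, ?_, ?_⟩
    · apply Int.ediv_le_of_le_mul hr
      nlinarith
    · have := Int.emod_nonneg (M * w) hr.ne'
      have h2 := Int.mul_ediv_add_emod (M * w) r
      linarith
    · have := Int.emod_lt_of_pos (M * w) hr
      have h2 := Int.mul_ediv_add_emod (M * w) r
      linarith
    · rintro rfl
      exact Int.mul_ediv_cancel _ hr.ne'
  rcases le_total 0 z with h | h
  · rw [abs_of_nonneg h] at hz ⊢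
    have h1 : 0 ≤ M * z := mul_nonneg hM h
    rw [Int.tdiv_eq_ediv_of_nonneg h1]
    obtain ⟨a, b, c, d, e⟩ := main z h hz
    rw [abs_of_nonneg a, abs_of_nonneg c]
    exact ⟨b, d, e⟩
  · obtain ⟨w, rfl⟩ : ∃ w, z = -w := ⟨-z, by ring⟩
    have hw : 0 ≤ w := by omega
    rw [abs_neg, abs_of_nonneg hw] at hz ⊢
    have h1 : 0 ≤ M * w := mul_nonneg hM hw
    have h2 : M * -w = -(M * w) := by ring
    rw [h2, Int.neg_tdiv, Int.tdiv_eq_ediv_of_nonneg h1]
    obtain ⟨a, b, c, d, e⟩ := main w hw hz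
    have h3 : -(M * w) - r * -(M * w / r) = -(M * w - r * (M * w / r)) := by ring
    rw [h3, abs_neg, abs_neg, abs_of_nonneg a, abs_of_nonneg c]
    exact ⟨b, d, e⟩

lemma cover_general (n : ℕ) (Lam : List (List (Wd × Bool))) (M L S : ℕ) (hM : 0 < M)
    (hL : M * (S ^ 2 + n * (4 * S + 3) ^ 2) + 4 * S + 4 ≤ L)
    (hcov : ∀ q : ℕ → ℤ, (∀ i < n, |q i| ≤ M) → (∃ i < n, |q i| = M) → ∃ lam ∈ Lam,
      (∀ t ∈ lam, ∑ i ∈ Finset.range n, q i * pos t.1 i + t.1.length < 0) ∨
      (∀ t ∈ lam, 0 < ∑ i ∈ Finset.range n, q i * pos t.1 i - t.1.length))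
    (q : ℕ → ℤ) (r : ℤ) (hr : ∀ i < n, |q i| ≤ r) (hr2 : ∃ i < n, |q i| = r) (hrL : (L : ℤ) ≤ r) :
    ∃ lam ∈ Lam,
      (∀ t ∈ lam, 2 * ∑ i ∈ Finset.range n, q i * pos t.1 i + (S : ℤ) ^ 2 +
        n * (4 * (S : ℤ) + 3) ^ 2 < 0) ∨
      (∀ t ∈ lam, 2 * ∑ i ∈ Finset.range n, (-q i) * pos t.1 i + (S : ℤ) ^ 2 +
        n * (4 * (S : ℤ) + 3) ^ 2 < 0) := by
  have hr0 : 0 < r := by
    have : 4 ≤ L := by omega
    omega
  have hMz : (0 : ℤ) < M := by exact_mod_cast hM
  have hLz : (M : ℤ) * ((S : ℤ) ^ 2 + n * (4 * (S : ℤ) + 3) ^ 2) + 4 * S + 4 ≤ L := by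
    exact_mod_cast hL
  set y : ℕ → ℤ := fun i => ((M : ℤ) * q i).tdiv r with hy
  have hyM : ∀ i < n, |y i| ≤ M := fun i hi => (scale_aux r M (q i) hr0 hMz.le (hr i hi)).1
  have hyr : ∀ i < n, |(M : ℤ) * q i - r * y i| ≤ r := fun i hi =>
    (scale_aux r M (q i) hr0 hMz.le (hr i hi)).2.1
  obtain ⟨i0, hi0, hi0r⟩ := hr2
  have hy0 : |y i0| = M := (scale_aux r M (q i0) hr0 hMz.le (hr i0 hi0)).2.2 hi0r
  obtain ⟨lam, hlam, hcase⟩ := hcov y hyM ⟨i0, hi0, hy0⟩
  -- the error term
  have err : ∀ w : Wd, |(M : ℤ) * ∑ i ∈ Finset.range n, q i * pos w i -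
      r * ∑ i ∈ Finset.range n, y i * pos w i| ≤ r * w.length := by
    intro w
    rw [Finset.mul_sum, Finset.mul_sum, ← Finset.sum_sub_distrib]
    calc |∑ i ∈ Finset.range n, ((M : ℤ) * (q i * pos w i) - r * (y i * pos w i))|
        ≤ ∑ i ∈ Finset.range n, |(M : ℤ) * (q i * pos w i) - r * (y i * pos w i)| :=
          Finset.abs_sum_le_sum_abs _ _
      _ ≤ ∑ i ∈ Finset.range n, r * |pos w i| := by
          apply Finset.sum_le_sum
          intro i hi
          have h1 : (M : ℤ) * (q i * pos w i) - r * (y i * pos w i) =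
            ((M : ℤ) * q i - r * y i) * pos w i := by ring
          rw [h1, abs_mul]
          exact mul_le_mul_of_nonneg_right (hyr i (Finset.mem_range.mp hi)) (abs_nonneg _)
      _ = r * ∑ i ∈ Finset.range n, |pos w i| := by rw [Finset.mul_sum]
      _ ≤ r * w.length := mul_le_mul_of_nonneg_left (sum_abs_pos_le w n) hr0.le
  refine ⟨lam, hlam, ?_⟩
  rcases hcase with h | h
  · left
    intro t ht
    have h1 := h t ht
    have h2 := (abs_le.mp (err t.1)).2
    have h3 : (M : ℤ) * ∑ i ∈ Finset.range n, q i * pos t.1 i ≤ -r := by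
      nlinarith
    by_contra hcon
    push Not at hcon
    nlinarith
  · right
    intro t ht
    have h1 := h t ht
    have h2 := (abs_le.mp (err t.1)).1
    have h3 : (M : ℤ) * ∑ i ∈ Finset.range n, q i * pos t.1 i ≥ r := by
      nlinarith
    have h4 : ∑ i ∈ Finset.range n, (-q i) * pos t.1 i =
        - ∑ i ∈ Finset.range n, q i * pos t.1 i := by
      rw [← Finset.sum_neg_distrib]
      apply Finset.sum_congr rfl
      intro i _
      ring
    rw [h4]
    by_contra hcon
    push Not at hcon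
    nlinarith

section

variable {G : Type*} [Group G] (x : ℕ → G) (n : ℕ)

lemma CC_all (hx : ∀ i, n ≤ i → x i = 1) (Lam : List (List (Wd × Bool))) (M L S : ℕ) (hM : 0 < M)
    (hS : ∀ lam ∈ Lam, ∀ t ∈ lam, t.1.length ≤ S)
    (hL : M * (S ^ 2 + n * (4 * S + 3) ^ 2) + 4 * S + 4 ≤ L)
    (hcov : ∀ q : ℕ → ℤ, (∀ i < n, |q i| ≤ M) → (∃ i < n, |q i| = M) → ∃ lam ∈ Lam,
      (∀ t ∈ lam, ∑ i ∈ Finset.range n, q i * pos t.1 i + t.1.length < 0) ∨
      (∀ t ∈ lam, 0 < ∑ i ∈ Finset.range n, q i * pos t.1 i - t.1.length))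
    (hrel : ∀ lam ∈ Lam, ∀ m m', relprod x lam (cm x m m') = cm x m m')
    (hbase : ∀ q : ℕ → ℤ, (∀ i < n, |q i| ≤ L) → ∀ l l' m m',
      Commute (cm x l l') (MulAut.conj (xp x q n) (cm x m m'))) (N : ℕ) : CC x n N := by
  induction N with
  | zero =>
    intro p hp
    have := nsq_nonneg n p
    push_cast at hp
    omega
  | succ N ih =>
    intro p hp l l' m m'
    push_cast at hp
    by_cases hpN : nsq n p < N
    · exact ih p hpN l l' m m'
    have hpN' : nsq n p = N := by omega
    by_cases hpL : ∀ i < n, |p i| ≤ L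
    · exact hbase p hpL l l' m m'
    push Not at hpL
    obtain ⟨j, hj, hjL⟩ := hpL
    obtain ⟨i0, hi0, hmax⟩ := Finset.exists_max_image (Finset.range n) (fun i => |p i|)
      ⟨j, Finset.mem_range.mpr hj⟩
    have hi0' := Finset.mem_range.mp hi0
    have hr : ∀ i < n, |p i| ≤ |p i0| := fun i hi => hmax i (Finset.mem_range.mpr hi)
    have hrL : (L : ℤ) < |p i0| := lt_of_lt_of_le hjL (hr j hj)
    have hL1 : 4 * S + 4 ≤ L := by
      have : 0 ≤ M * (S ^ 2 + n * (4 * S + 3) ^ 2) := Nat.zero_le _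
      omega
    have hL1z : 4 * (S : ℤ) + 4 ≤ L := by exact_mod_cast hL1
    have hbig : 16 * (S : ℤ) ^ 2 < N := by
      rw [← hpN']
      have h1 : (p i0) ^ 2 ≤ nsq n p :=
        Finset.single_le_sum (f := fun i => (p i) ^ 2) (fun i _ => sq_nonneg _) hi0
      have h2 : (4 * (S : ℤ) + 4) ^ 2 ≤ (p i0) ^ 2 := by
        rw [← sq_abs (p i0)]
        apply pow_le_pow_left₀ (by positivity)
        omega
      nlinarith
    have h4 : ∃ i < n, 4 ≤ |p i| := ⟨i0, hi0', by omega⟩
    obtain ⟨lam, hlam, hcase⟩ := cover_general n Lam M L S hM hL hcov p |p i0| hr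
      ⟨i0, hi0', rfl⟩ hrL.le
    rcases hcase with hneg | hneg
    · exact step x n hx ih p hpN' S lam (hS lam hlam) (hrel lam hlam) hbig hneg h4 l l' m m'
    · -- flip
      have hN' : nsq n (fun i => -p i) = N := by
        rw [← hpN']; simp [nsq]
      have h4' : ∃ i < n, 4 ≤ |(fun i => -p i) i| := by
        obtain ⟨i, hi, h⟩ := h4
        exact ⟨i, hi, by simpa using h⟩
      have h5 := step x n hx ih (fun i => -p i) hN' S lam (hS lam hlam) (hrel lam hlam) hbig hneg
        h4' m m' l l'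
      have h6 := h5.map (MulAut.conj (xp x (fun i => -p i) n)⁻¹)
      have h7 : MulAut.conj (xp x (fun i => -p i) n)⁻¹
          (MulAut.conj (xp x (fun i => -p i) n) (cm x l l')) = cm x l l' := by
        rw [← MulAut.mul_apply, ← map_mul, inv_mul_cancel, map_one, MulAut.one_apply]
      rw [h7] at h6
      set w : Wd := inv (cw (fun i => -p i) n) with hw
      have hev : ev x w = (xp x (fun i => -p i) n)⁻¹ := by rw [hw, ev_inv]; rfl
      have hlen : (w.length : ℤ) = ∑ i ∈ Finset.range n, |p i| := by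
        have h8 : w.length = (cw (fun i => -p i) n).length := by simp [hw, inv]
        rw [h8, length_cw]
        simp
      have hgood : Good n N w := by
        intro u v huv hv
        rw [← hpN']
        have hb : ∀ i < n, |pos u i| ≤ |p i| := by
          intro i hi
          have h8 := prefix_inv_cw n (fun i => -p i) u ⟨v, by rw [← hw, huv]⟩ i hi
          simpa using h8
        apply nsq_lt n _ _ hb
        by_contra hcon
        push Not at hcon
        have h1 : ∑ i ∈ Finset.range n, |p i| ≤ ∑ i ∈ Finset.range n, |pos u i| :=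
          Finset.sum_le_sum fun i hi => hcon i (Finset.mem_range.mp hi)
        have h2 := sum_abs_pos_le u n
        have h3 : (u.length : ℤ) < w.length := by
          rw [huv, List.length_append]
          have := List.length_pos_of_ne_nil hv
          push_cast
          omega
        linarith
      rw [← hev] at h6
      have h8 := (good_iff x n hx ih w hgood l l' m m').mp h6.symm
      have h9 : xp x (pos w) n = xp x p n := by
        apply xp_congr
        intro i hi
        rw [hw, pos_inv, pos_cw, if_pos hi]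
        ring
      rwa [h9] at h8

/-- If all conjugates of commutators of generators commute, the commutator subgroup is abelian. -/
lemma abelian_of_CC (hx : ∀ i, n ≤ i → x i = 1) (hgen : Subgroup.closure (Set.range x) = ⊤)
    (hC : ∀ N : ℕ, CC x n N) :
    ∀ a ∈ commutator G, ∀ b ∈ commutator G, a * b = b * a := by
  -- all words
  have h1 : ∀ (w : Wd) (l l' m m' : ℕ × Bool),
      Commute (cm x l l') (MulAut.conj (ev x w) (cm x m m')) := by
    intro w l l' m m'
    have hb : ∀ u : Wd, u.length ≤ w.length → nsq n (pos u) < ((w.length ^ 2 + 1 : ℕ) : ℤ) := by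
      intro u hu
      have h2 := nsq_pos_le n u
      have h3 : (u.length : ℤ) ^ 2 ≤ (w.length : ℤ) ^ 2 := by
        apply pow_le_pow_left₀ (by positivity)
        exact_mod_cast hu
      push_cast
      linarith
    apply good_comm x n hx (hC (w.length ^ 2 + 1)) w
    · intro u v huv _
      apply hb
      rw [huv, List.length_append]
      omega
    · exact hb w le_rfl
  have h2 : ∀ (g : G) (l l' m m' : ℕ × Bool),
      Commute (cm x l l') (MulAut.conj g (cm x m m')) := by
    intro g l l' m m'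
    obtain ⟨w, rfl⟩ := exists_word x hgen g
    exact h1 w l l' m m'
  have h3 : ∀ (g h : G) (l l' m m' : ℕ × Bool),
      Commute (MulAut.conj g (cm x l l')) (MulAut.conj h (cm x m m')) := by
    intro g h l l' m m'
    have h4 := (h2 (g⁻¹ * h) l l' m m').map (MulAut.conj g)
    have h5 : MulAut.conj g (MulAut.conj (g⁻¹ * h) (cm x m m')) =
        MulAut.conj h (cm x m m') := by
      rw [← MulAut.mul_apply, ← map_mul, mul_inv_cancel_left]
    rwa [h5] at h4
  set T : Set G := {g | ∃ (h : G) (l l' : ℕ × Bool), g = MulAut.conj h (cm x l l')} with hT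
  set K : Subgroup G := Subgroup.closure T with hK
  have hKab : ∀ a ∈ K, ∀ b ∈ K, Commute a b := by
    intro a ha b hb
    induction ha using Subgroup.closure_induction with
    | mem y hy =>
      obtain ⟨g, l, l', rfl⟩ := hy
      induction hb using Subgroup.closure_induction with
      | mem z hz =>
        obtain ⟨h, m, m', rfl⟩ := hz
        exact h3 g h l l' m m'
      | one => exact Commute.one_right _
      | mul c d _ _ hc hd => exact hc.mul_right hd
      | inv c _ hc => exact hc.inv_right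
    | one => exact Commute.one_left _
    | mul c d _ _ hc hd => exact hc.mul_left hd
    | inv c _ hc => exact hc.inv_left
  have hKconj : ∀ (g : G), ∀ k ∈ K, MulAut.conj g k ∈ K := by
    intro g k hk
    induction hk using Subgroup.closure_induction with
    | mem y hy =>
      obtain ⟨h, l, l', rfl⟩ := hy
      rw [← MulAut.mul_apply, ← map_mul]
      exact Subgroup.subset_closure ⟨g * h, l, l', rfl⟩
    | one => rw [map_one]; exact one_mem _
    | mul c d _ _ hc hd => rw [map_mul]; exact mul_mem hc hd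
    | inv c _ hc => rw [map_inv]; exact inv_mem hc
  -- commutators of words lie in K
  have h5 : ∀ (l : ℕ × Bool) (v : Wd), ⁅lt x l, ev x v⁆ ∈ K := by
    intro l v
    induction v with
    | nil => simp [ev_nil]
    | cons m v ih =>
      rw [ev_cons]
      have e : ⁅lt x l, lt x m * ev x v⁆ =
          ⁅lt x l, lt x m⁆ * MulAut.conj (lt x m) ⁅lt x l, ev x v⁆ := by
        simp only [commutatorElement_def, MulAut.conj_apply]
        group
      rw [e]
      refine mul_mem (Subgroup.subset_closure ⟨1, l, m, by simp [cm]⟩) (hKconj _ _ ih)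
  have h6 : ∀ (u v : Wd), ⁅ev x u, ev x v⁆ ∈ K := by
    intro u v
    induction u with
    | nil => simp [ev_nil]
    | cons m u ih =>
      rw [ev_cons]
      have e : ⁅lt x m * ev x u, ev x v⁆ =
          MulAut.conj (lt x m) ⁅ev x u, ev x v⁆ * ⁅lt x m, ev x v⁆ := by
        simp only [commutatorElement_def, MulAut.conj_apply]
        group
      rw [e]
      exact mul_mem (hKconj _ _ ih) (h5 m v)
  have h7 : commutator G ≤ K := by
    rw [commutator_def, Subgroup.commutator_le]
    intro g _ h _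
    obtain ⟨u, rfl⟩ := exists_word x hgen g
    obtain ⟨v, rfl⟩ := exists_word x hgen h
    exact h6 u v
  intro a ha b hb
  exact hKab a (h7 ha) b (h7 hb)

/-- **Theorem B.** -/
theorem abelian_of_cert (hx : ∀ i, n ≤ i → x i = 1) (hgen : Subgroup.closure (Set.range x) = ⊤)
    (Lam : List (List (Wd × Bool))) (M L S : ℕ) (hM : 0 < M)
    (hS : ∀ lam ∈ Lam, ∀ t ∈ lam, t.1.length ≤ S)
    (hL : M * (S ^ 2 + n * (4 * S + 3) ^ 2) + 4 * S + 4 ≤ L)
    (hcov : ∀ q : ℕ → ℤ, (∀ i < n, |q i| ≤ M) → (∃ i < n, |q i| = M) → ∃ lam ∈ Lam,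
      (∀ t ∈ lam, ∑ i ∈ Finset.range n, q i * pos t.1 i + t.1.length < 0) ∨
      (∀ t ∈ lam, 0 < ∑ i ∈ Finset.range n, q i * pos t.1 i - t.1.length))
    (hrel : ∀ lam ∈ Lam, ∀ m m', relprod x lam (cm x m m') = cm x m m')
    (hbase : ∀ q : ℕ → ℤ, (∀ i < n, |q i| ≤ L) → ∀ l l' m m',
      Commute (cm x l l') (MulAut.conj (xp x q n) (cm x m m'))) :
    ∀ a ∈ commutator G, ∀ b ∈ commutator G, a * b = b * a :=
  abelian_of_CC x n hx hgen fun N => CC_all x n hx Lam M L S hM hS hL hcov hrel hbase N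

end

end Pool.Agent.Helper740
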