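import Mathlib.GroupTheory.Solvable
import Mathlib.Algebra.Group.Conj
import Mathlib.Tactic

/-! Words, positions and canonical words. -/

namespace Pool.Agent.Helper740

open scoped commutatorElement

/-- words in the letters `(i, true)` (the generator `i`) and `(i, false)` (its inverse) -/
abbrev Wd := List (ℕ × Bool)

/-- the sign of a letter -/
def sgn (b : Bool) : ℤ := if b then 1 else -1

/-- exponent sums of a word -/
def pos (w : Wd) (i : ℕ) : ℤ := (w.map fun l => if l.1 = i then sgn l.2 else 0).sum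

/-- formal inverse -/
def inv (w : Wd) : Wd := (w.map fun l => (l.1, !l.2)).reverse

/-- canonical word of a vector -/
def cw (p : ℕ → ℤ) : ℕ → Wd
  | 0 => []
  | k + 1 => cw p k ++ List.replicate (p k).natAbs (k, decide (0 ≤ p k))

lemma pos_nil (i : ℕ) : pos [] i = 0 := rfl

lemma pos_append (u v : Wd) (i : ℕ) : pos (u ++ v) i = pos u i + pos v i := by
  simp [pos]

lemma pos_cons (l : ℕ × Bool) (v : Wd) (i : ℕ) :
    pos (l :: v) i = (if l.1 = i then sgn l.2 else 0) + pos v i := by
  simp [pos]

lemma sgn_not (b : Bool) : sgn (!b) = - sgn b := by cases b <;> simp [sgn]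

lemma pos_inv (w : Wd) (i : ℕ) : pos (inv w) i = - pos w i := by
  induction w with
  | nil => simp [inv, pos]
  | cons l w ih =>
    have h : inv (l :: w) = inv w ++ [(l.1, !l.2)] := by simp [inv]
    rw [h, pos_append, ih, pos_cons, pos_cons, pos_nil, sgn_not]
    split_ifs <;> ring

lemma abs_sgn (b : Bool) : |sgn b| = 1 := by cases b <;> simp [sgn]

lemma sum_abs_pos_le (w : Wd) (n : ℕ) : ∑ i ∈ Finset.range n, |pos w i| ≤ w.length := by
  induction w with
  | nil => simp [pos_nil]
  | cons l w ih =>
    have h1 : ∑ i ∈ Finset.range n, |pos (l :: w) i| ≤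
        ∑ i ∈ Finset.range n, (|(if l.1 = i then sgn l.2 else 0 : ℤ)| + |pos w i|) := by
      apply Finset.sum_le_sum
      intro i _
      rw [pos_cons]
      exact abs_add_le _ _
    rw [Finset.sum_add_distrib] at h1
    have h2 : ∑ i ∈ Finset.range n, |(if l.1 = i then sgn l.2 else 0 : ℤ)| ≤ 1 := by
      have h3 : ∀ i ∈ Finset.range n, |(if l.1 = i then sgn l.2 else 0 : ℤ)| =
          if l.1 = i then 1 else 0 := by
        intro i _
        split_ifs
        · exact abs_sgn _
        · simp
      rw [Finset.sum_congr rfl h3, Finset.sum_ite_eq]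
      split_ifs <;> simp
    simp only [List.length_cons]
    push_cast
    linarith

lemma abs_pos_le (w : Wd) (i : ℕ) : |pos w i| ≤ w.length := by
  have h := sum_abs_pos_le w (i + 1)
  have h2 : |pos w i| ≤ ∑ j ∈ Finset.range (i + 1), |pos w j| :=
    Finset.single_le_sum (f := fun j => |pos w j|) (fun j _ => abs_nonneg _)
      (Finset.mem_range.mpr (Nat.lt_succ_self i))
  linarith

lemma pos_replicate (m k : ℕ) (b : Bool) (i : ℕ) :
    pos (List.replicate m (k, b)) i = if k = i then m * sgn b else 0 := by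
  simp [pos, List.map_replicate, List.sum_replicate]

lemma natAbs_sgn (z : ℤ) : (z.natAbs : ℤ) * sgn (decide (0 ≤ z)) = z := by
  by_cases h : 0 ≤ z
  · simp [sgn, h, abs_of_nonneg h]
  · simp [sgn, h]
    rw [abs_of_neg (by omega)]; ring

lemma pos_cw (p : ℕ → ℤ) (n i : ℕ) : pos (cw p n) i = if i < n then p i else 0 := by
  induction n with
  | zero => simp [cw, pos_nil]
  | succ n ih =>
    rw [cw, pos_append, ih, pos_replicate]
    rcases lt_trichotomy i n with h | h | h
    · rw [if_pos h, if_neg (by omega), if_pos (by omega)]; ring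
    · subst h
      rw [if_neg (by omega), if_pos rfl, if_pos (by omega), natAbs_sgn]; ring
    · rw [if_neg (by omega), if_neg (by omega), if_neg (by omega)]; ring

lemma length_cw (p : ℕ → ℤ) (n : ℕ) : ((cw p n).length : ℤ) = ∑ i ∈ Finset.range n, |p i| := by
  induction n with
  | zero => simp [cw]
  | succ n ih =>
    rw [cw, List.length_append, List.length_replicate, Finset.sum_range_succ]
    push_cast
    rw [ih]

/-- `u` lies between `0` and `p` -/
def Btw (u p : ℤ) : Prop := (0 ≤ u ∧ u ≤ p) ∨ (p ≤ u ∧ u ≤ 0)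

lemma Btw.abs_le {u p : ℤ} (h : Btw u p) : |u| ≤ |p| := by
  rcases h with ⟨h1, h2⟩ | ⟨h1, h2⟩
  · rw [abs_of_nonneg h1, abs_of_nonneg (h1.trans h2)]; exact h2
  · rw [abs_of_nonpos h2, abs_of_nonpos (h1.trans h2)]; omega

lemma btw_zero (p : ℤ) : Btw 0 p := by
  rcases le_total 0 p with h | h
  · exact Or.inl ⟨le_rfl, h⟩
  · exact Or.inr ⟨h, le_rfl⟩

lemma btw_self (p : ℤ) : Btw p p := by
  rcases le_total 0 p with h | h
  · exact Or.inl ⟨h, le_rfl⟩
  · exact Or.inr ⟨le_rfl, h⟩

lemma prefix_append_cases {α : Type*} {u a b : List α} (h : u <+: a ++ b) :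
    u <+: a ∨ ∃ v, u = a ++ v ∧ v <+: b := by
  obtain ⟨t, ht⟩ := h
  rcases List.append_eq_append_iff.mp ht with ⟨c, hc1, hc2⟩ | ⟨c, hc1, hc2⟩
  · left
    exact ⟨c, hc1.symm⟩
  · right
    exact ⟨c, hc1, t, hc2.symm⟩

lemma prefix_cw (p : ℕ → ℤ) (n : ℕ) (u : Wd) (hu : u <+: cw p n) (i : ℕ) (hi : i < n) :
    Btw (pos u i) (p i) := by
  induction n with
  | zero => omega
  | succ n ih =>
    rw [cw] at hu
    rcases prefix_append_cases hu with h | ⟨v, rfl, hv⟩
    · by_cases hin : i < n
      · exact ih h hin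
      · have h1 : i = n := by omega
        subst h1
        -- all letters of u have index < i
        have h2 : pos u i = 0 := by
          have h3 : ∀ l ∈ u, l.1 ≠ i := by
            intro l hl
            have h4 : l ∈ cw p i := h.subset hl
            have h5 : ∀ k, ∀ l ∈ cw p k, l.1 < k := by
              intro k
              induction k with
              | zero => simp [cw]
              | succ k ihk =>
                intro l hl
                rw [cw, List.mem_append] at hl
                rcases hl with hl | hl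
                · have := ihk l hl; omega
                · rw [List.mem_replicate] at hl
                  rw [hl.2]; simp
            have := h5 i l h4
            omega
          unfold pos
          apply List.sum_eq_zero
          intro y hy
          rw [List.mem_map] at hy
          obtain ⟨l, hl, rfl⟩ := hy
          rw [if_neg (h3 l hl)]
        rw [h2]
        exact btw_zero _
    · have h1 : ∃ m, m ≤ (p n).natAbs ∧ v = List.replicate m (n, decide (0 ≤ p n)) := by
        refine ⟨v.length, ?_, ?_⟩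
        · have := hv.length_le
          simpa using this
        · rw [List.eq_replicate_iff]
          refine ⟨rfl, fun b hb => ?_⟩
          have := hv.subset hb
          exact (List.mem_replicate.mp this).2
      obtain ⟨m, hm, rfl⟩ := h1
      rw [pos_append, pos_cw, pos_replicate]
      by_cases hin : i < n
      · rw [if_pos hin, if_neg (by omega), add_zero]
        exact btw_self _
      · have h1 : i = n := by omega
        subst h1
        rw [if_neg hin, if_pos rfl, zero_add]
        by_cases h : 0 ≤ p i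
        · left
          simp only [sgn, h, decide_true, if_true]
          omega
        · right
          simp only [sgn, h, decide_false]
          constructor
          · simp; omega
          · simp

/-- squared Euclidean norm -/
def nsq (n : ℕ) (p : ℕ → ℤ) : ℤ := ∑ i ∈ Finset.range n, (p i) ^ 2

lemma nsq_nonneg (n : ℕ) (p : ℕ → ℤ) : 0 ≤ nsq n p :=
  Finset.sum_nonneg fun _ _ => sq_nonneg _

lemma nsq_mono (n : ℕ) (p q : ℕ → ℤ) (h : ∀ i < n, |p i| ≤ |q i|) : nsq n p ≤ nsq n q := by
  apply Finset.sum_le_sum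
  intro i hi
  exact sq_le_sq.mpr (h i (Finset.mem_range.mp hi))

lemma nsq_lt (n : ℕ) (p q : ℕ → ℤ) (h : ∀ i < n, |p i| ≤ |q i|)
    (h2 : ∃ i < n, |p i| < |q i|) : nsq n p < nsq n q := by
  apply Finset.sum_lt_sum
  · intro i hi
    exact sq_le_sq.mpr (h i (Finset.mem_range.mp hi))
  · obtain ⟨i, hi, h3⟩ := h2
    exact ⟨i, Finset.mem_range.mpr hi, sq_lt_sq.mpr h3⟩

lemma nsq_add_le (n : ℕ) (p q : ℕ → ℤ) :
    nsq n (fun i => p i + q i) ≤ 2 * nsq n p + 2 * nsq n q := by
  unfold nsq
  rw [Finset.mul_sum, Finset.mul_sum, ← Finset.sum_add_distrib]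
  apply Finset.sum_le_sum
  intro i _
  nlinarith [sq_nonneg (p i - q i)]

lemma nsq_pos_le (n : ℕ) (w : Wd) : nsq n (pos w) ≤ (w.length : ℤ) ^ 2 := by
  have h1 := sum_abs_pos_le w n
  have h2 : nsq n (pos w) ≤ (∑ i ∈ Finset.range n, |pos w i|) ^ 2 := by
    unfold nsq
    have h3 : ∀ i ∈ Finset.range n, (pos w i) ^ 2 = |pos w i| ^ 2 := fun i _ => (sq_abs _).symm
    rw [Finset.sum_congr rfl h3]
    exact Finset.sum_sq_le_sq_sum_of_nonneg (fun i _ => abs_nonneg _)
  have h4 : 0 ≤ ∑ i ∈ Finset.range n, |pos w i| := Finset.sum_nonneg fun _ _ => abs_nonneg _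
  have h5 : (∑ i ∈ Finset.range n, |pos w i|) ^ 2 ≤ (w.length : ℤ) ^ 2 := by
    apply pow_le_pow_left₀ h4 h1
  linarith

section group

variable {G : Type*} [Group G]

/-- the value of a letter -/
def lt (x : ℕ → G) (l : ℕ × Bool) : G := if l.2 then x l.1 else (x l.1)⁻¹

/-- the value of a word -/
def ev (x : ℕ → G) (w : Wd) : G := (w.map (lt x)).prod

lemma ev_nil (x : ℕ → G) : ev x [] = 1 := rfl

lemma ev_append (x : ℕ → G) (u v : Wd) : ev x (u ++ v) = ev x u * ev x v := by
  simp [ev]

lemma ev_cons (x : ℕ → G) (l : ℕ × Bool) (v : Wd) : ev x (l :: v) = lt x l * ev x v := by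
  simp [ev]

lemma ev_singleton (x : ℕ → G) (l : ℕ × Bool) : ev x [l] = lt x l := by
  simp [ev]

lemma lt_not (x : ℕ → G) (i : ℕ) (b : Bool) : lt x (i, !b) = (lt x (i, b))⁻¹ := by
  cases b <;> simp [lt]

lemma ev_inv (x : ℕ → G) (w : Wd) : ev x (inv w) = (ev x w)⁻¹ := by
  induction w with
  | nil => simp [inv, ev]
  | cons l w ih =>
    have h : inv (l :: w) = inv w ++ [(l.1, !l.2)] := by simp [inv]
    rw [h, ev_append, ih, ev_singleton, ev_cons, lt_not, mul_inv_rev]

lemma ev_replicate (x : ℕ → G) (m : ℕ) (l : ℕ × Bool) :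
    ev x (List.replicate m l) = lt x l ^ m := by
  simp [ev, List.map_replicate, List.prod_replicate]

lemma exists_word (x : ℕ → G) (hgen : Subgroup.closure (Set.range x) = ⊤) (g : G) :
    ∃ w : Wd, ev x w = g := by
  have hg : g ∈ Subgroup.closure (Set.range x) := by rw [hgen]; trivial
  induction hg using Subgroup.closure_induction with
  | mem y hy =>
    obtain ⟨i, rfl⟩ := hy
    exact ⟨[(i, true)], by simp [ev, lt]⟩
  | one => exact ⟨[], rfl⟩
  | mul a b _ _ ha hb =>
    obtain ⟨u, rfl⟩ := ha
    obtain ⟨v, rfl⟩ := hb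
    exact ⟨u ++ v, ev_append x u v⟩
  | inv a _ ha =>
    obtain ⟨u, rfl⟩ := ha
    exact ⟨inv u, ev_inv x u⟩

/-- commutators of letters -/
def cm (x : ℕ → G) (l l' : ℕ × Bool) : G := ⁅lt x l, lt x l'⁆

/-- the signed product `∏ g b^(±1) g⁻¹` over a list -/
def relprod (x : ℕ → G) (lam : List (Wd × Bool)) (b : G) : G :=
  (lam.map fun t => MulAut.conj (ev x t.1) (if t.2 then b else b⁻¹)).prod

end group

end Pool.Agent.Helper740
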